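import Mathlib
import Pool.Agent.Helper21.IDP.Defs

/-! # The Ahlfors–Shimizu formula (task A for MP_6b834f_an) -/

open Filter Topology Real MeasureTheory Set

namespace IDP

namespace AS

/-! ### Parametric integrals over `[0, 2π]` -/

/-- A continuous function on `(-1,1) × ℝ` is bounded near `{t} × [0, 2π]`. -/
lemma exists_bound (F' : ℝ → ℝ → ℝ)
    (hF' : ContinuousOn (Function.uncurry F') (Ioo (-1 : ℝ) 1 ×ˢ univ))
    (t : ℝ) (ht : t ∈ Ioo (-1 : ℝ) 1) :
    ∃ C : ℝ, ∃ s ∈ 𝓝 t, s ⊆ Ioo (-1 : ℝ) 1 ∧ ∀ x ∈ s, ∀ θ ∈ Icc (0 : ℝ) (2 * π),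
      ‖F' x θ‖ ≤ C := by
  obtain ⟨ε, hε, hεs⟩ := Metric.nhds_basis_closedBall.mem_iff.1 (isOpen_Ioo.mem_nhds ht)
  have hcomp : IsCompact (Metric.closedBall t ε ×ˢ Icc (0 : ℝ) (2 * π)) :=
    (isCompact_closedBall t ε).prod isCompact_Icc
  obtain ⟨C, hC⟩ := hcomp.exists_bound_of_continuousOn
    (hF'.mono (prod_mono hεs (subset_univ _)))
  exact ⟨C, Metric.closedBall t ε, Metric.closedBall_mem_nhds t hε, hεs,
    fun x hx θ hθ => hC (x, θ) ⟨hx, hθ⟩⟩

lemma continuous_slice (F' : ℝ → ℝ → ℝ)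
    (hF' : ContinuousOn (Function.uncurry F') (Ioo (-1 : ℝ) 1 ×ˢ univ))
    (t : ℝ) (ht : t ∈ Ioo (-1 : ℝ) 1) : Continuous (F' t) := by
  rw [← continuousOn_univ]
  exact hF'.comp (f := fun θ => (t, θ)) (by fun_prop) fun θ _ => ⟨ht, mem_univ _⟩

lemma continuousAt_param (F' : ℝ → ℝ → ℝ)
    (hF' : ContinuousOn (Function.uncurry F') (Ioo (-1 : ℝ) 1 ×ˢ univ))
    (t : ℝ) (ht : t ∈ Ioo (-1 : ℝ) 1) :
    ContinuousAt (fun s => ∫ θ in (0 : ℝ)..(2 * π), F' s θ) t := by
  obtain ⟨C, s, hs, hs1, hC⟩ := exists_bound F' hF' t ht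
  refine intervalIntegral.continuousAt_of_dominated_interval (bound := fun _ => C) ?_ ?_ ?_ ?_
  · filter_upwards [hs] with x hx
    exact (continuous_slice F' hF' x (hs1 hx)).aestronglyMeasurable
  · filter_upwards [hs] with x hx
    refine Eventually.of_forall fun θ hθ => hC x hx θ ?_
    rw [uIoc_of_le (by positivity)] at hθ
    exact ⟨hθ.1.le, hθ.2⟩
  · exact intervalIntegrable_const
  · refine Eventually.of_forall fun θ _ => ?_
    have h1 : ContinuousAt (Function.uncurry F') (t, θ) :=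
      hF'.continuousAt ((isOpen_Ioo.prod isOpen_univ).mem_nhds ⟨ht, mem_univ _⟩)
    exact ContinuousAt.comp (f := fun x => (x, θ)) (g := Function.uncurry F') h1 (by fun_prop)

lemma hasDerivAt_param (F F' : ℝ → ℝ → ℝ)
    (hF : ∀ t ∈ Ioo (-1 : ℝ) 1, ∀ θ, HasDerivAt (fun s => F s θ) (F' t θ) t)
    (hFc : ContinuousOn (Function.uncurry F) (Ioo (-1 : ℝ) 1 ×ˢ univ))
    (hF' : ContinuousOn (Function.uncurry F') (Ioo (-1 : ℝ) 1 ×ˢ univ))
    (t : ℝ) (ht : t ∈ Ioo (-1 : ℝ) 1) :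
    HasDerivAt (fun s => ∫ θ in (0 : ℝ)..(2 * π), F s θ) (∫ θ in (0 : ℝ)..(2 * π), F' t θ) t := by
  obtain ⟨C, s, hs, hs1, hC⟩ := exists_bound F' hF' t ht
  refine (intervalIntegral.hasDerivAt_integral_of_dominated_loc_of_deriv_le (bound := fun _ => C)
    (s := s) hs ?_ ?_ ?_ ?_ ?_ ?_).2
  · filter_upwards [hs] with x hx
    exact (continuous_slice F hFc x (hs1 hx)).aestronglyMeasurable
  · exact (continuous_slice F hFc t ht).intervalIntegrable _ _
  · exact (continuous_slice F' hF' t ht).aestronglyMeasurable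
  · refine Eventually.of_forall fun θ hθ x hx => hC x hx θ ?_
    rw [uIoc_of_le (by positivity)] at hθ
    exact ⟨hθ.1.le, hθ.2⟩
  · exact intervalIntegrable_const
  · exact Eventually.of_forall fun θ _ x hx => hF x (hs1 hx) θ

/-! ### Polar coordinates on a disc -/

lemma polar_disc (f : ℂ → ℝ) (hf : ContinuousOn f (Metric.ball 0 1)) (t : ℝ) (ht0 : 0 ≤ t)
    (ht1 : t < 1) :
    ∫ z in Metric.ball (0 : ℂ) t, f z
      = ∫ s in (0 : ℝ)..t, s * ∫ θ in (0 : ℝ)..(2 * π), f (circleMap 0 s θ) := by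
  have hcm : ∀ p : ℝ × ℝ, Complex.polarCoord.symm p = circleMap 0 p.1 p.2 := by
    intro p
    rw [Complex.polarCoord_symm_apply, circleMap, Complex.exp_mul_I]
    push_cast
    ring
  have h1 : ∫ z in Metric.ball (0 : ℂ) t, f z
      = ∫ p in Ioo (0 : ℝ) t ×ˢ Ioo (-π) π, p.1 * f (circleMap 0 p.1 p.2) := by
    rw [← integral_indicator measurableSet_ball, ← Complex.integral_comp_polarCoord_symm]
    have h2 : polarCoord.target = Ioi (0 : ℝ) ×ˢ Ioo (-π) π := rfl
    rw [h2]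
    have h3 : ∀ p ∈ Ioi (0 : ℝ) ×ˢ Ioo (-π) π,
        p.1 • (Metric.ball (0 : ℂ) t).indicator f (Complex.polarCoord.symm p)
        = (Ioo (0 : ℝ) t ×ˢ Ioo (-π) π).indicator
            (fun p : ℝ × ℝ => p.1 * f (circleMap 0 p.1 p.2)) p := by
      rintro ⟨s, θ⟩ ⟨hs, hθ⟩
      simp only [mem_Ioi] at hs hθ
      rw [hcm]
      simp only [indicator, Metric.mem_ball, dist_zero_right, norm_circleMap_zero, abs_of_pos hs,
        mem_prod, mem_Ioo, hs, true_and, smul_eq_mul]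
      have hθ1 := hθ.1
      have hθ2 := hθ.2
      simp only [hθ1, hθ2, and_true]
      split_ifs <;> simp
    rw [setIntegral_congr_fun (measurableSet_Ioi.prod measurableSet_Ioo) h3,
      setIntegral_indicator (measurableSet_Ioo.prod measurableSet_Ioo)]
    congr 2
    ext ⟨s, θ⟩
    simp only [mem_inter_iff, mem_prod, mem_Ioi, mem_Ioo]
    tauto
  have hint : IntegrableOn (fun p : ℝ × ℝ => p.1 * f (circleMap 0 p.1 p.2))
      (Ioo (0 : ℝ) t ×ˢ Ioo (-π) π) := by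
    have hcomp : IsCompact (Icc (0 : ℝ) t ×ˢ Icc (-π) π) := isCompact_Icc.prod isCompact_Icc
    refine (ContinuousOn.integrableOn_compact hcomp ?_).mono_set
      (prod_mono Ioo_subset_Icc_self Ioo_subset_Icc_self)
    refine continuousOn_fst.mul (hf.comp ?_ ?_)
    · refine Continuous.continuousOn ?_
      unfold circleMap
      fun_prop
    · rintro ⟨s, θ⟩ ⟨hs, _⟩
      simp only [Metric.mem_ball, dist_zero_right, norm_circleMap_zero]
      rw [abs_of_nonneg hs.1]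
      exact lt_of_le_of_lt hs.2 ht1
  rw [h1, Measure.volume_eq_prod, setIntegral_prod _ hint, ← integral_Ioc_eq_integral_Ioo,
    ← intervalIntegral.integral_of_le ht0]
  refine intervalIntegral.integral_congr fun s _ => ?_
  simp only
  rw [← integral_Ioc_eq_integral_Ioo, ← intervalIntegral.integral_of_le (by linarith [pi_pos]),
    intervalIntegral.integral_const_mul]
  congr 1
  have hper : Function.Periodic (fun θ => f (circleMap 0 s θ)) (2 * π) := by
    intro θ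
    simp only [periodic_circleMap 0 s θ]
  have := hper.intervalIntegral_add_eq (-π) 0
  rw [show -π + 2 * π = π by ring, zero_add] at this
  exact this

/-! ### Derivatives along paths -/

/-- `‖v₁‖² + ‖v₂‖²`. -/
noncomputable def S (v1 v2 : ℂ → ℂ) (z : ℂ) : ℝ := ‖v1 z‖ ^ 2 + ‖v2 z‖ ^ 2

/-- `v₁' conj v₁ + v₂' conj v₂`. -/
noncomputable def D (v1 v2 : ℂ → ℂ) (z : ℂ) : ℂ :=
  deriv v1 z * (starRingEnd ℂ) (v1 z) + deriv v2 z * (starRingEnd ℂ) (v2 z)

/-- `Q = z (v₁' conj v₁ + v₂' conj v₂) / (‖v₁‖² + ‖v₂‖²)`. -/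
noncomputable def Q (v1 v2 : ℂ → ℂ) (z : ℂ) : ℂ := z * D v1 v2 z / (S v1 v2 z : ℂ)

/-- The derivative of `Q` in the direction of `z`. -/
noncomputable def G (v1 v2 : ℂ → ℂ) (z : ℂ) : ℂ :=
  D v1 v2 z / (S v1 v2 z : ℂ)
    + z * (deriv (deriv v1) z * (starRingEnd ℂ) (v1 z) + deriv (deriv v2) z * (starRingEnd ℂ) (v2 z))
      / (S v1 v2 z : ℂ)
    - z * D v1 v2 z ^ 2 / (S v1 v2 z : ℂ) ^ 2

/-- The square of the spherical derivative. -/
noncomputable def rho (v1 v2 : ℂ → ℂ) (z : ℂ) : ℝ :=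
  ‖deriv v1 z * v2 z - v1 z * deriv v2 z‖ ^ 2 / S v1 v2 z ^ 2

lemma S_complex (v1 v2 : ℂ → ℂ) (z : ℂ) :
    (S v1 v2 z : ℂ) = v1 z * (starRingEnd ℂ) (v1 z) + v2 z * (starRingEnd ℂ) (v2 z) := by
  rw [Complex.mul_conj', Complex.mul_conj', S]
  push_cast
  ring

lemma S_pos (v1 v2 : ℂ → ℂ) (z : ℂ) (h : v1 z ≠ 0 ∨ v2 z ≠ 0) : 0 < S v1 v2 z := by
  unfold S
  rcases h with h | h
  · have := norm_pos_iff.2 h
    positivity
  · have := norm_pos_iff.2 h
    positivity

section path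

variable {v1 v2 : ℂ → ℂ}
  (h1 : DifferentiableOn ℂ v1 (Metric.ball 0 1)) (h2 : DifferentiableOn ℂ v2 (Metric.ball 0 1))
  (h0 : ∀ z ∈ Metric.ball (0 : ℂ) 1, v1 z ≠ 0 ∨ v2 z ≠ 0)

lemma hasDerivAt_path {v : ℂ → ℂ} (h : DifferentiableOn ℂ v (Metric.ball 0 1)) {z : ℝ → ℂ}
    {z' : ℂ} {s : ℝ} (hz : HasDerivAt z z' s) (hzs : z s ∈ Metric.ball (0 : ℂ) 1) :
    HasDerivAt (fun t => v (z t)) (z' * deriv v (z s)) s := by
  have hv : HasDerivAt v (deriv v (z s)) (z s) :=
    (h.differentiableAt (Metric.isOpen_ball.mem_nhds hzs)).hasDerivAt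
  exact hv.scomp s hz

lemma hasDerivAt_path_conj {v : ℂ → ℂ} (h : DifferentiableOn ℂ v (Metric.ball 0 1)) {z : ℝ → ℂ}
    {z' : ℂ} {s : ℝ} (hz : HasDerivAt z z' s) (hzs : z s ∈ Metric.ball (0 : ℂ) 1) :
    HasDerivAt (fun t => (starRingEnd ℂ) (v (z t)))
      ((starRingEnd ℂ) z' * (starRingEnd ℂ) (deriv v (z s))) s := by
  have := (hasDerivAt_path h hz hzs).star
  rw [← map_mul]
  exact this

include h1 h2 h0 in
lemma hasDerivAt_Q {z : ℝ → ℂ} {z' : ℂ} {s : ℝ} (hz : HasDerivAt z z' s)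
    (hzs : z s ∈ Metric.ball (0 : ℂ) 1) :
    HasDerivAt (fun t => Q v1 v2 (z t))
      (z' * G v1 v2 (z s) + (starRingEnd ℂ) z' * z s * (rho v1 v2 (z s) : ℂ)) s := by
  have hd1 : DifferentiableOn ℂ (deriv v1) (Metric.ball 0 1) := h1.deriv Metric.isOpen_ball
  have hd2 : DifferentiableOn ℂ (deriv v2) (Metric.ball 0 1) := h2.deriv Metric.isOpen_ball
  have e1 := hasDerivAt_path h1 hz hzs
  have e2 := hasDerivAt_path h2 hz hzs
  have e3 := hasDerivAt_path hd1 hz hzs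
  have e4 := hasDerivAt_path hd2 hz hzs
  have c1 := hasDerivAt_path_conj h1 hz hzs
  have c2 := hasDerivAt_path_conj h2 hz hzs
  have hS : (S v1 v2 (z s) : ℂ) ≠ 0 := by
    exact_mod_cast (S_pos v1 v2 (z s) (h0 _ hzs)).ne'
  have hSd : HasDerivAt (fun t => (S v1 v2 (z t) : ℂ)) _ s :=
    ((e1.mul c1).add (e2.mul c2)).congr_of_eventuallyEq
      (Eventually.of_forall fun t => S_complex v1 v2 (z t))
  have hQ := (hz.mul ((e3.mul c1).add (e4.mul c2))).div hSd hS
  refine hQ.congr_deriv ?_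
  have hrho : (rho v1 v2 (z s) : ℂ) = (deriv v1 (z s) * v2 (z s) - v1 (z s) * deriv v2 (z s))
      * ((starRingEnd ℂ) (deriv v1 (z s)) * (starRingEnd ℂ) (v2 (z s))
        - (starRingEnd ℂ) (v1 (z s)) * (starRingEnd ℂ) (deriv v2 (z s)))
      / (S v1 v2 (z s) : ℂ) ^ 2 := by
    rw [← map_mul, ← map_mul, ← map_sub, Complex.mul_conj', rho]
    push_cast
    ring
  rw [hrho, G, D]
  have hS' := S_complex v1 v2 (z s)
  field_simp
  rw [hS']
  simp only [Pi.mul_apply, Pi.add_apply]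
  ring

include h1 h2 h0 in
lemma hasDerivAt_log {z : ℝ → ℂ} {z' : ℂ} {s : ℝ} (hz : HasDerivAt z z' s)
    (hzs : z s ∈ Metric.ball (0 : ℂ) 1) :
    HasDerivAt (fun t => (1 / 2 : ℝ) * Real.log (S v1 v2 (z t)))
      (z' * D v1 v2 (z s) / (S v1 v2 (z s) : ℂ)).re s := by
  have e1 := (hasDerivAt_path h1 hz hzs).norm_sq
  have e2 := (hasDerivAt_path h2 hz hzs).norm_sq
  have hS := (S_pos v1 v2 (z s) (h0 _ hzs)).ne'
  have h3 := ((e1.add e2).log hS).const_mul (1 / 2 : ℝ)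
  refine h3.congr_deriv ?_
  have h4 : (z' * D v1 v2 (z s) / (S v1 v2 (z s) : ℂ)).re
      = (z' * D v1 v2 (z s)).re / S v1 v2 (z s) := Complex.div_ofReal_re _ _
  rw [h4]
  have h5 : ((‖v1 (z s)‖ ^ 2 + ‖v2 (z s)‖ ^ 2 : ℝ)) = S v1 v2 (z s) := rfl
  simp only [Pi.add_apply]
  rw [h5]
  have h6 : ∀ a b : ℂ, inner ℝ a b = (b * (starRingEnd ℂ) a).re := by
    intro a b
    rw [Complex.inner, mul_comm]
  rw [h6, h6]
  have h7 : (z' * D v1 v2 (z s)).re
      = (z' * deriv v1 (z s) * (starRingEnd ℂ) (v1 (z s))).re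
        + (z' * deriv v2 (z s) * (starRingEnd ℂ) (v2 (z s))).re := by
    rw [← Complex.add_re, D]
    congr 1
    ring
  rw [h7]
  field_simp

include h1 h2 in
lemma continuousOn_S : ContinuousOn (S v1 v2) (Metric.ball 0 1) := by
  have c1 := h1.continuousOn
  have c2 := h2.continuousOn
  unfold S
  fun_prop

include h1 h2 in
lemma continuousOn_D : ContinuousOn (D v1 v2) (Metric.ball 0 1) := by
  have c1 := h1.continuousOn
  have c2 := h2.continuousOn
  have c3 := (h1.deriv Metric.isOpen_ball).continuousOn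
  have c4 := (h2.deriv Metric.isOpen_ball).continuousOn
  unfold D
  exact (c3.mul (Complex.continuous_conj.comp_continuousOn c1)).add
    (c4.mul (Complex.continuous_conj.comp_continuousOn c2))

omit h1 h2 in
include h0 in
lemma S_complex_ne {z : ℂ} (hz : z ∈ Metric.ball (0 : ℂ) 1) : (S v1 v2 z : ℂ) ≠ 0 := by
  exact_mod_cast (S_pos v1 v2 z (h0 _ hz)).ne'

include h1 h2 in
lemma continuousOn_Sc : ContinuousOn (fun z => (S v1 v2 z : ℂ)) (Metric.ball 0 1) :=
  Complex.continuous_ofReal.comp_continuousOn (continuousOn_S h1 h2)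

include h1 h2 h0 in
lemma continuousOn_Q : ContinuousOn (Q v1 v2) (Metric.ball 0 1) :=
  (continuousOn_id.mul (continuousOn_D h1 h2)).div (continuousOn_Sc h1 h2)
    fun _ hz => S_complex_ne h0 hz

include h1 h2 h0 in
lemma continuousOn_G : ContinuousOn (G v1 v2) (Metric.ball 0 1) := by
  have c1 := h1.continuousOn
  have c2 := h2.continuousOn
  have c3 := ((h1.deriv Metric.isOpen_ball).deriv Metric.isOpen_ball).continuousOn
  have c4 := ((h2.deriv Metric.isOpen_ball).deriv Metric.isOpen_ball).continuousOn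
  have hD := continuousOn_D h1 h2
  have hS := continuousOn_Sc h1 h2
  have hne : ∀ z ∈ Metric.ball (0 : ℂ) 1, (S v1 v2 z : ℂ) ≠ 0 :=
    fun z hz => S_complex_ne h0 hz
  refine ((hD.div hS hne).add ((continuousOn_id.mul ((c3.mul
    (Complex.continuous_conj.comp_continuousOn c1)).add (c4.mul
    (Complex.continuous_conj.comp_continuousOn c2)))).div hS hne)).sub
    ((continuousOn_id.mul (hD.pow 2)).div (hS.pow 2) fun z hz => pow_ne_zero 2 (hne z hz))

include h1 h2 h0 in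
lemma continuousOn_rho : ContinuousOn (rho v1 v2) (Metric.ball 0 1) := by
  have c1 := h1.continuousOn
  have c2 := h2.continuousOn
  have c3 := (h1.deriv Metric.isOpen_ball).continuousOn
  have c4 := (h2.deriv Metric.isOpen_ball).continuousOn
  have hS := continuousOn_S h1 h2
  exact ((((c3.mul c2).sub (c1.mul c4)).norm).pow 2).div (hS.pow 2)
    fun z hz => pow_ne_zero 2 (S_pos v1 v2 z (h0 _ hz)).ne'

end path

lemma circleMap_mem {t : ℝ} (ht : t ∈ Ioo (-1 : ℝ) 1) (θ : ℝ) :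
    circleMap 0 t θ ∈ Metric.ball (0 : ℂ) 1 := by
  rw [Metric.mem_ball, dist_zero_right, norm_circleMap_zero, abs_lt]
  exact ht

lemma hasDerivAt_radius (t θ : ℝ) :
    HasDerivAt (fun s : ℝ => circleMap 0 s θ) (Complex.exp (θ * Complex.I)) t := by
  have h : HasDerivAt (fun s : ℝ => (s : ℂ)) 1 t := Complex.ofRealCLM.hasDerivAt
  have h2 := (h.mul_const (Complex.exp (θ * Complex.I))).const_add (0 : ℂ)
  rw [one_mul] at h2
  exact h2

lemma continuousOn_polar {f : ℂ → ℂ} (hf : ContinuousOn f (Metric.ball 0 1)) :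
    ContinuousOn (fun p : ℝ × ℝ => f (circleMap 0 p.1 p.2)) (Ioo (-1 : ℝ) 1 ×ˢ univ) := by
  refine hf.comp ?_ ?_
  · refine Continuous.continuousOn ?_
    unfold circleMap
    fun_prop
  · rintro ⟨s, θ⟩ ⟨hs, _⟩
    exact circleMap_mem hs θ

lemma hasDerivAt_re {f : ℝ → ℂ} {f' : ℂ} {x : ℝ} (h : HasDerivAt f f' x) :
    HasDerivAt (fun t => (f t).re) f'.re x :=
  Complex.reCLM.hasFDerivAt.comp_hasDerivAt x h

lemma hasDerivAt_im {f : ℝ → ℂ} {f' : ℂ} {x : ℝ} (h : HasDerivAt f f' x) :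
    HasDerivAt (fun t => (f t).im) f'.im x :=
  Complex.imCLM.hasFDerivAt.comp_hasDerivAt x h

section main

variable {v1 v2 : ℂ → ℂ}
  (h1 : DifferentiableOn ℂ v1 (Metric.ball 0 1)) (h2 : DifferentiableOn ℂ v2 (Metric.ball 0 1))
  (h0 : ∀ z ∈ Metric.ball (0 : ℂ) 1, v1 z ≠ 0 ∨ v2 z ≠ 0)

include h1 h2 h0 in
/-- The circle mean of `Re Q` is twice the integral of `rho` over the disc. -/
lemma mean_Q (t : ℝ) (ht0 : 0 ≤ t) (ht1 : t < 1) :
    ∫ θ in (0 : ℝ)..(2 * π), (Q v1 v2 (circleMap 0 t θ)).re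
      = 2 * ∫ z in Metric.ball (0 : ℂ) t, rho v1 v2 z := by
  set F' : ℝ → ℝ → ℝ := fun s θ =>
    (Complex.exp (θ * Complex.I) * G v1 v2 (circleMap 0 s θ)
      + (starRingEnd ℂ) (Complex.exp (θ * Complex.I)) * circleMap 0 s θ
        * (rho v1 v2 (circleMap 0 s θ) : ℂ)).re with hF'
  have hrhoC : ContinuousOn (fun z => (rho v1 v2 z : ℂ)) (Metric.ball 0 1) :=
    Complex.continuous_ofReal.comp_continuousOn (continuousOn_rho h1 h2 h0)
  have cexp : Continuous fun p : ℝ × ℝ => Complex.exp (p.2 * Complex.I) := by fun_prop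
  have ccm : ContinuousOn (fun p : ℝ × ℝ => circleMap 0 p.1 p.2) (Ioo (-1 : ℝ) 1 ×ˢ univ) :=
    continuousOn_polar (f := fun z => z) continuousOn_id
  have cF' : ContinuousOn (Function.uncurry F') (Ioo (-1 : ℝ) 1 ×ˢ univ) := by
    refine Complex.continuous_re.comp_continuousOn ?_
    exact (cexp.continuousOn.mul (continuousOn_polar (continuousOn_G h1 h2 h0))).add
      (((Complex.continuous_conj.comp cexp).continuousOn.mul ccm).mul (continuousOn_polar hrhoC))
  have hF : ∀ s ∈ Ioo (-1 : ℝ) 1, ∀ θ,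
      HasDerivAt (fun s => (Q v1 v2 (circleMap 0 s θ)).re) (F' s θ) s := by
    intro s hs θ
    exact hasDerivAt_re (hasDerivAt_Q h1 h2 h0 (hasDerivAt_radius s θ) (circleMap_mem hs θ))
  have cF : ContinuousOn (Function.uncurry fun s θ => (Q v1 v2 (circleMap 0 s θ)).re)
      (Ioo (-1 : ℝ) 1 ×ˢ univ) :=
    Complex.continuous_re.comp_continuousOn (continuousOn_polar (continuousOn_Q h1 h2 h0))
  have hder : ∀ s ∈ Ioo (-1 : ℝ) 1, HasDerivAt
      (fun s => ∫ θ in (0 : ℝ)..(2 * π), (Q v1 v2 (circleMap 0 s θ)).re)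
      (∫ θ in (0 : ℝ)..(2 * π), F' s θ) s := fun s hs =>
    hasDerivAt_param _ F' hF cF cF' s hs
  -- the derivative
  have hval : ∀ s ∈ Ioo (0 : ℝ) 1, ∫ θ in (0 : ℝ)..(2 * π), F' s θ
      = 2 * (s * ∫ θ in (0 : ℝ)..(2 * π), rho v1 v2 (circleMap 0 s θ)) := by
    intro s hs
    have hs' : s ∈ Ioo (-1 : ℝ) 1 := ⟨by linarith [hs.1], hs.2⟩
    set K' : ℝ → ℝ := fun θ => (circleMap 0 s θ * Complex.I * G v1 v2 (circleMap 0 s θ)
      + (starRingEnd ℂ) (circleMap 0 s θ * Complex.I) * circleMap 0 s θ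
        * (rho v1 v2 (circleMap 0 s θ) : ℂ)).im with hK'
    have hK : ∀ θ, HasDerivAt (fun θ => (Q v1 v2 (circleMap 0 s θ)).im) (K' θ) θ := by
      intro θ
      exact hasDerivAt_im (hasDerivAt_Q h1 h2 h0 (hasDerivAt_circleMap 0 s θ)
        (circleMap_mem hs' θ))
    have cc : Continuous fun θ => circleMap 0 s θ := continuous_circleMap 0 s
    have cslice : ∀ f : ℂ → ℂ, ContinuousOn f (Metric.ball 0 1) →
        Continuous fun θ => f (circleMap 0 s θ) := by
      intro f hf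
      rw [← continuousOn_univ]
      exact hf.comp cc.continuousOn fun θ _ => circleMap_mem hs' θ
    have cK' : Continuous K' := by
      refine Complex.continuous_im.comp ?_
      exact (((cc.mul continuous_const).mul (cslice _ (continuousOn_G h1 h2 h0)))).add
        (((Complex.continuous_conj.comp (cc.mul continuous_const)).mul cc).mul (cslice _ hrhoC))
    have crho : Continuous fun θ => rho v1 v2 (circleMap 0 s θ) := by
      rw [← continuousOn_univ]
      exact (continuousOn_rho h1 h2 h0).comp cc.continuousOn fun θ _ => circleMap_mem hs' θ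
    have hK0 : ∫ θ in (0 : ℝ)..(2 * π), K' θ = 0 := by
      rw [intervalIntegral.integral_eq_sub_of_hasDerivAt (fun θ _ => hK θ)
        (cK'.intervalIntegrable _ _)]
      have : circleMap 0 s (2 * π) = circleMap 0 s 0 := by
        have := periodic_circleMap 0 s 0
        rwa [zero_add] at this
      rw [this, sub_self]
    have hkey : ∀ θ, s * F' s θ = K' θ + 2 * s ^ 2 * rho v1 v2 (circleMap 0 s θ) := by
      intro θ
      simp only [hF', hK']
      set g := G v1 v2 (circleMap 0 s θ)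
      set ρ := rho v1 v2 (circleMap 0 s θ)
      have hz : circleMap 0 s θ = s * Complex.exp (θ * Complex.I) := by simp [circleMap]
      have he : Complex.exp (θ * Complex.I) * (starRingEnd ℂ) (Complex.exp (θ * Complex.I))
          = 1 := by
        rw [Complex.mul_conj', Complex.norm_exp_ofReal_mul_I]
        norm_num
      rw [hz]
      set e := Complex.exp (θ * Complex.I)
      have hs1 : ∀ w : ℂ, s * w.re = ((s : ℂ) * w).re := by
        intro w
        simp
      rw [hs1]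
      have hA : (s : ℂ) * (e * g + (starRingEnd ℂ) e * (s * e) * (ρ : ℂ))
          = s * e * g + ((s ^ 2 * ρ : ℝ) : ℂ) := by
        push_cast
        linear_combination (s : ℂ) ^ 2 * ρ * he
      have hB : (s : ℂ) * e * Complex.I * g
          + (starRingEnd ℂ) ((s : ℂ) * e * Complex.I) * (s * e) * (ρ : ℂ)
          = Complex.I * (s * e * g - ((s ^ 2 * ρ : ℝ) : ℂ)) := by
        simp only [map_mul, Complex.conj_ofReal, Complex.conj_I]
        push_cast
        linear_combination -(s : ℂ) ^ 2 * ρ * Complex.I * he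
      rw [hA, hB]
      simp only [Complex.add_re, Complex.ofReal_re, Complex.I_mul_im, Complex.sub_re]
      ring
    have h3 : s * ∫ θ in (0 : ℝ)..(2 * π), F' s θ
        = 2 * s ^ 2 * ∫ θ in (0 : ℝ)..(2 * π), rho v1 v2 (circleMap 0 s θ) := by
      rw [← intervalIntegral.integral_const_mul]
      simp only [hkey]
      rw [intervalIntegral.integral_add (cK'.intervalIntegrable _ _)
        ((crho.const_mul _).intervalIntegrable _ _), hK0, zero_add,
        intervalIntegral.integral_const_mul]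
    have hs0 : s ≠ 0 := hs.1.ne'
    apply mul_left_cancel₀ hs0
    rw [h3]
    ring
  have h4 : ∫ s in (0 : ℝ)..t, (∫ θ in (0 : ℝ)..(2 * π), F' s θ)
      = (∫ θ in (0 : ℝ)..(2 * π), (Q v1 v2 (circleMap 0 t θ)).re)
        - ∫ θ in (0 : ℝ)..(2 * π), (Q v1 v2 (circleMap 0 0 θ)).re := by
    refine intervalIntegral.integral_eq_sub_of_hasDerivAt
      (f := fun s => ∫ θ in (0 : ℝ)..(2 * π), (Q v1 v2 (circleMap 0 s θ)).re) ?_ ?_
    · intro s hs
      rw [uIcc_of_le ht0] at hs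
      exact hder s ⟨by linarith [hs.1], by linarith [hs.2]⟩
    · refine ContinuousOn.intervalIntegrable ?_
      intro s hs
      rw [uIcc_of_le ht0] at hs
      exact (continuousAt_param F' cF' s ⟨by linarith [hs.1], by linarith [hs.2]⟩).continuousWithinAt
  have h5 : ∫ θ in (0 : ℝ)..(2 * π), (Q v1 v2 (circleMap 0 0 θ)).re = 0 := by
    have : ∀ θ, circleMap 0 0 θ = 0 := by
      intro θ
      simp [circleMap]
    simp [this, Q]
  rw [h5, sub_zero] at h4
  rw [← h4, polar_disc _ (continuousOn_rho h1 h2 h0) t ht0 ht1,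
    ← intervalIntegral.integral_const_mul]
  refine intervalIntegral.integral_congr_ae ?_
  refine Eventually.of_forall fun s hs => ?_
  rw [uIoc_of_le ht0] at hs
  exact hval s ⟨hs.1, by linarith [hs.2]⟩

include h1 h2 h0 in
/-- Ahlfors–Shimizu with the spherical derivative written with `rho`. -/
lemma main_rho (r : ℝ) (hr0 : 0 < r) (hr1 : r < 1) :
    ∫ t in (0 : ℝ)..r, (1 / π * ∫ z in Metric.ball (0 : ℂ) t, rho v1 v2 z) / t
      = (2 * π)⁻¹ * (∫ θ in (0 : ℝ)..(2 * π),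
          (1 / 2) * Real.log (S v1 v2 (circleMap 0 r θ)))
        - (1 / 2) * Real.log (S v1 v2 0) := by
  set F' : ℝ → ℝ → ℝ := fun s θ =>
    (Complex.exp (θ * Complex.I) * D v1 v2 (circleMap 0 s θ)
      / (S v1 v2 (circleMap 0 s θ) : ℂ)).re with hF'
  have cexp : Continuous fun p : ℝ × ℝ => Complex.exp (p.2 * Complex.I) := by fun_prop
  have cF' : ContinuousOn (Function.uncurry F') (Ioo (-1 : ℝ) 1 ×ˢ univ) := by
    refine Complex.continuous_re.comp_continuousOn ?_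
    refine (cexp.continuousOn.mul (continuousOn_polar (continuousOn_D h1 h2))).div
      (continuousOn_polar (continuousOn_Sc h1 h2)) ?_
    rintro ⟨s, θ⟩ ⟨hs, _⟩
    exact S_complex_ne h0 (circleMap_mem hs θ)
  have hF : ∀ s ∈ Ioo (-1 : ℝ) 1, ∀ θ,
      HasDerivAt (fun s => (1 / 2 : ℝ) * Real.log (S v1 v2 (circleMap 0 s θ))) (F' s θ) s := by
    intro s hs θ
    exact hasDerivAt_log h1 h2 h0 (hasDerivAt_radius s θ) (circleMap_mem hs θ)
  have cF : ContinuousOn (Function.uncurry fun s θ =>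
      (1 / 2 : ℝ) * Real.log (S v1 v2 (circleMap 0 s θ))) (Ioo (-1 : ℝ) 1 ×ˢ univ) := by
    refine ContinuousOn.mul continuousOn_const ?_
    refine ContinuousOn.log ?_ ?_
    · refine (continuousOn_S h1 h2).comp ?_ ?_
      · refine Continuous.continuousOn ?_
        unfold circleMap
        fun_prop
      · rintro ⟨s, θ⟩ ⟨hs, _⟩
        exact circleMap_mem hs θ
    · rintro ⟨s, θ⟩ ⟨hs, _⟩
      exact (S_pos v1 v2 _ (h0 _ (circleMap_mem hs θ))).ne'
  have h4 : ∫ s in (0 : ℝ)..r, (∫ θ in (0 : ℝ)..(2 * π), F' s θ)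
      = (∫ θ in (0 : ℝ)..(2 * π), (1 / 2 : ℝ) * Real.log (S v1 v2 (circleMap 0 r θ)))
        - ∫ θ in (0 : ℝ)..(2 * π), (1 / 2 : ℝ) * Real.log (S v1 v2 (circleMap 0 0 θ)) := by
    refine intervalIntegral.integral_eq_sub_of_hasDerivAt
      (f := fun s => ∫ θ in (0 : ℝ)..(2 * π), (1 / 2 : ℝ) * Real.log (S v1 v2 (circleMap 0 s θ)))
      ?_ ?_
    · intro s hs
      rw [uIcc_of_le hr0.le] at hs
      exact hasDerivAt_param _ F' hF cF cF' s ⟨by linarith [hs.1], by linarith [hs.2]⟩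
    · refine ContinuousOn.intervalIntegrable ?_
      intro s hs
      rw [uIcc_of_le hr0.le] at hs
      exact (continuousAt_param F' cF' s ⟨by linarith [hs.1], by linarith [hs.2]⟩).continuousWithinAt
  have h5 : ∫ θ in (0 : ℝ)..(2 * π), (1 / 2 : ℝ) * Real.log (S v1 v2 (circleMap 0 0 θ))
      = 2 * π * ((1 / 2) * Real.log (S v1 v2 0)) := by
    have : ∀ θ, circleMap 0 0 θ = 0 := by
      intro θ
      simp [circleMap]
    simp only [this]
    rw [intervalIntegral.integral_const]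
    simp
  have h6 : ∀ t ∈ Ioc (0 : ℝ) r, (1 / π * ∫ z in Metric.ball (0 : ℂ) t, rho v1 v2 z) / t
      = (2 * π)⁻¹ * ∫ θ in (0 : ℝ)..(2 * π), F' t θ := by
    intro t ht
    have ht1 : t < 1 := lt_of_le_of_lt ht.2 hr1
    have h7 := mean_Q h1 h2 h0 t ht.1.le ht1
    have h8 : ∫ θ in (0 : ℝ)..(2 * π), (Q v1 v2 (circleMap 0 t θ)).re
        = t * ∫ θ in (0 : ℝ)..(2 * π), F' t θ := by
      rw [← intervalIntegral.integral_const_mul]
      refine intervalIntegral.integral_congr fun θ _ => ?_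
      simp only [hF', Q]
      have hs1 : ∀ w : ℂ, t * w.re = ((t : ℂ) * w).re := by
        intro w
        simp
      rw [hs1]
      congr 1
      have hz : circleMap 0 t θ = t * Complex.exp (θ * Complex.I) := by simp [circleMap]
      set X := D v1 v2 (circleMap 0 t θ)
      set Y := S v1 v2 (circleMap 0 t θ)
      rw [hz]
      ring
    rw [h8] at h7
    have ht0 : t ≠ 0 := ht.1.ne'
    have hpi : π ≠ 0 := pi_ne_zero
    generalize (∫ θ in (0 : ℝ)..(2 * π), F' t θ) = I at h7 ⊢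
    field_simp
    linarith
  rw [intervalIntegral.integral_congr_ae (g := fun t => (2 * π)⁻¹ *
    ∫ θ in (0 : ℝ)..(2 * π), F' t θ)
    (Eventually.of_forall fun t ht => by
      rw [uIoc_of_le hr0.le] at ht
      exact h6 t ht), intervalIntegral.integral_const_mul, h4, h5]
  have hpi : π ≠ 0 := pi_ne_zero
  field_simp

end main

end AS

/-- (A) Ahlfors–Shimizu formula. -/
theorem ahlfors_shimizu (v1 v2 : ℂ → ℂ)
    (h1 : DifferentiableOn ℂ v1 (Metric.ball 0 1)) (h2 : DifferentiableOn ℂ v2 (Metric.ball 0 1))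
    (h0 : ∀ z ∈ Metric.ball (0 : ℂ) 1, v1 z ≠ 0 ∨ v2 z ≠ 0)
    (hv2 : ∃ z ∈ Metric.ball (0 : ℂ) 1, v2 z ≠ 0) (r : ℝ) (hr0 : 0 < r) (hr1 : r < 1) :
    ∫ t in (0 : ℝ)..r,
        (1 / Real.pi * ∫ z in Metric.ball (0 : ℂ) t,
          (‖deriv (fun w => v1 w / v2 w) z‖ / (1 + ‖v1 z / v2 z‖ ^ 2)) ^ 2) / t
      = (2 * Real.pi)⁻¹ * (∫ θ in (0 : ℝ)..(2 * Real.pi),
          (1 / 2) * Real.log (‖v1 (circleMap 0 r θ)‖ ^ 2 + ‖v2 (circleMap 0 r θ)‖ ^ 2))
        - (1 / 2) * Real.log (‖v1 0‖ ^ 2 + ‖v2 0‖ ^ 2) := by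
  have hmain := AS.main_rho h1 h2 h0 r hr0 hr1
  unfold AS.S at hmain
  rw [← hmain]
  -- the integrands agree off the zeros of `v2`
  have hne : ∀ᵐ z ∂(volume.restrict (Metric.ball (0 : ℂ) 1)), v2 z ≠ 0 := by
    have han : AnalyticOnNhd ℂ v2 (Metric.ball 0 1) := h2.analyticOnNhd Metric.isOpen_ball
    rcases han.eqOn_zero_or_eventually_ne_zero_of_preconnected
      (convex_ball (0 : ℂ) 1).isPreconnected with h | h
    · obtain ⟨z, hz, hz'⟩ := hv2
      exact absurd (h hz) hz'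
    · exact ae_restrict_le_codiscreteWithin measurableSet_ball h
  have hpt : ∀ z ∈ Metric.ball (0 : ℂ) 1, v2 z ≠ 0 →
      (‖deriv (fun w => v1 w / v2 w) z‖ / (1 + ‖v1 z / v2 z‖ ^ 2)) ^ 2 = AS.rho v1 v2 z := by
    intro z hz hz2
    have d1 : DifferentiableAt ℂ v1 z := h1.differentiableAt (Metric.isOpen_ball.mem_nhds hz)
    have d2 : DifferentiableAt ℂ v2 z := h2.differentiableAt (Metric.isOpen_ball.mem_nhds hz)
    have hd : deriv (fun w => v1 w / v2 w) z
        = (deriv v1 z * v2 z - v1 z * deriv v2 z) / v2 z ^ 2 :=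
      (d1.hasDerivAt.div d2.hasDerivAt hz2).deriv
    rw [hd, AS.rho, AS.S, norm_div, norm_div, norm_pow]
    have hn : ‖v2 z‖ ≠ 0 := norm_ne_zero_iff.2 hz2
    have hS : ‖v1 z‖ ^ 2 + ‖v2 z‖ ^ 2 ≠ 0 := by positivity
    rw [show 1 + (‖v1 z‖ / ‖v2 z‖) ^ 2 = (‖v1 z‖ ^ 2 + ‖v2 z‖ ^ 2) / ‖v2 z‖ ^ 2 by
      field_simp
      ring]
    field_simp
  refine intervalIntegral.integral_congr_ae (Eventually.of_forall fun t ht => ?_)
  rw [uIoc_of_le hr0.le] at ht
  have hsub : Metric.ball (0 : ℂ) t ⊆ Metric.ball 0 1 :=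
    Metric.ball_subset_ball (ht.2.trans hr1.le)
  have : ∫ z in Metric.ball (0 : ℂ) t,
          (‖deriv (fun w => v1 w / v2 w) z‖ / (1 + ‖v1 z / v2 z‖ ^ 2)) ^ 2
      = ∫ z in Metric.ball (0 : ℂ) t, AS.rho v1 v2 z := by
    refine setIntegral_congr_ae measurableSet_ball ?_
    have h3 := (ae_restrict_iff' measurableSet_ball).1 hne
    filter_upwards [h3] with z hz hzt
    exact hpt z (hsub hzt) (hz (hsub hzt))
  rw [this]

end IDP
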