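import Mathlib
import Pool.Agent.Helper21.IDP.Xi

open Filter Topology Real

namespace IDP

/-- abstract integration-by-parts inequality -/
lemma ibp_ineq (E y y' Φ Φ' g G : ℝ → ℝ) (t1 ε C : ℝ) (ht1 : 0 ≤ t1)
    (hE : Continuous E) (hg : Continuous g) (hyc : Continuous y)
    (hy : ∀ θ ∈ Set.Icc 0 t1, HasDerivAt y (y' θ) θ)
    (hΦ : ∀ θ ∈ Set.Icc 0 t1, HasDerivAt Φ (Φ' θ) θ)
    (hG : ∀ u, HasDerivAt G (g u) u)
    (hprod : ∀ θ ∈ Set.Icc 0 t1, Φ θ * y' θ = E θ)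
    (hΦ' : ∀ θ ∈ Set.Icc 0 t1, Φ' θ ≤ 0)
    (hΦ0 : ∀ θ ∈ Set.Icc 0 t1, 0 ≤ Φ θ)
    (hy0 : y 0 = 0) (hypos : ∀ θ ∈ Set.Icc 0 t1, 0 ≤ y θ)
    (hG0 : G 0 = 0) (hGb : ∀ u, 0 ≤ u → G u ≤ ε * u + C) :
    ∫ θ in (0 : ℝ)..t1, E θ * g (y θ) ≤ C * Φ 0 + ε * ∫ θ in (0 : ℝ)..t1, E θ := by
  set H : ℝ → ℝ := fun θ => C * Φ 0 + ε * (∫ t in (0 : ℝ)..θ, E t)
    - (∫ t in (0 : ℝ)..θ, E t * g (y t)) - Φ θ * (ε * y θ + C - G (y θ)) with hH
  have hEg : Continuous (fun t => E t * g (y t)) := hE.mul (hg.comp hyc)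
  have hder : ∀ θ ∈ Set.Icc 0 t1, HasDerivAt H (-Φ' θ * (ε * y θ + C - G (y θ))) θ := by
    intro θ hθ
    have h1 : HasDerivAt (fun θ => ∫ t in (0 : ℝ)..θ, E t) (E θ) θ :=
      (hE.integral_hasStrictDerivAt 0 θ).hasDerivAt
    have h2 : HasDerivAt (fun θ => ∫ t in (0 : ℝ)..θ, E t * g (y t)) (E θ * g (y θ)) θ :=
      (hEg.integral_hasStrictDerivAt 0 θ).hasDerivAt
    have h3 : HasDerivAt (fun θ => G (y θ)) (g (y θ) * y' θ) θ :=
      (hG (y θ)).comp θ (hy θ hθ)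
    have h4 : HasDerivAt (fun θ => ε * y θ + C - G (y θ)) (ε * y' θ - g (y θ) * y' θ) θ :=
      (((hy θ hθ).const_mul ε).add_const C).sub h3
    have h5 := (((h1.const_mul ε).const_add (C * Φ 0)).sub h2).sub ((hΦ θ hθ).mul h4)
    have hp := hprod θ hθ
    refine h5.congr_deriv ?_
    linear_combination (-(ε) + g (y θ)) * hp
  have hmono : MonotoneOn H (Set.Icc 0 t1) := by
    apply monotoneOn_of_deriv_nonneg (convex_Icc 0 t1)
    · intro θ hθ; exact (hder θ hθ).continuousAt.continuousWithinAt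
    · intro θ hθ
      rw [interior_Icc] at hθ
      exact (hder θ (Set.Ioo_subset_Icc_self hθ)).differentiableAt.differentiableWithinAt
    · intro θ hθ
      rw [interior_Icc] at hθ
      have hθ' := Set.Ioo_subset_Icc_self hθ
      rw [(hder θ hθ').deriv]
      have h1 := hΦ' θ hθ'
      have h2 := hGb (y θ) (hypos θ hθ')
      nlinarith
  have h0 : H 0 = 0 := by
    simp only [hH, intervalIntegral.integral_same, hy0, hG0]
    ring
  have h1 := hmono (Set.left_mem_Icc.mpr ht1) (Set.right_mem_Icc.mpr ht1) ht1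
  rw [h0] at h1
  have h2 := hΦ0 t1 (Set.right_mem_Icc.mpr ht1)
  have h3 := hGb (y t1) (hypos t1 (Set.right_mem_Icc.mpr ht1))
  simp only [hH] at h1
  have h4 : 0 ≤ Φ t1 * (ε * y t1 + C - G (y t1)) := mul_nonneg h2 (by linarith)
  linarith

lemma tendsto_XX : Tendsto XX (𝓝[<] 1) atTop := by
  unfold XX
  apply Tendsto.inv_tendsto_nhdsGT_zero
  rw [tendsto_nhdsWithin_iff]
  constructor
  · have h1 : Tendsto (fun r : ℝ => Real.sqrt (1 - r)) (𝓝 1) (𝓝 (Real.sqrt (1 - 1))) := by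
      apply Continuous.tendsto
      fun_prop
    rw [sub_self, Real.sqrt_zero] at h1
    exact h1.mono_left nhdsWithin_le_nhds
  · filter_upwards [self_mem_nhdsWithin] with r hr
    exact Real.sqrt_pos.mpr (by simpa using hr)

lemma circleMap_lt {r θ : ℝ} (hr0 : 0 ≤ r) (hr1 : r < 1) : ‖circleMap 0 r θ‖ < 1 := by
  rw [norm_circle hr0]; exact hr1

lemma xc_periodic (r : ℝ) : Function.Periodic (xc r) (2 * π) := by
  intro θ
  unfold xc
  rw [periodic_circleMap]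

/-- lower bound of the real part -/
lemma xc_re_lower {r θ : ℝ} (hr0 : 0 ≤ r) (hr1 : r < 1) :
    XX r ^ 2 ≤ ((xc r θ).re ^ 2 - (xc r θ).im ^ 2) * (1 + (θ * XX r ^ 2) ^ 2) := by
  have hz := circleMap_lt (θ := θ) hr0 hr1
  have h1 := xi_sq_re hz
  have hX := XX_sq hr1
  have hXp := XX_pos hr1
  have hpos : 0 < 1 - r := by linarith
  change (xc r θ).re ^ 2 - (xc r θ).im ^ 2 = _ at h1
  rw [h1]
  have h2 := one_sub_circle_normsq r θ
  have h3 : 0 < ‖1 - circleMap 0 r θ‖ ^ 2 := by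
    have := norm_pos_iff.mpr (one_sub_ne hz)
    positivity
  have h4 : 1 - Real.cos θ ≤ θ ^ 2 / 2 := by
    have := Real.one_sub_sq_div_two_le_cos (x := θ)
    linarith
  have h5 : ‖1 - circleMap 0 r θ‖ ^ 2 ≤ (1 - r) ^ 2 + θ ^ 2 := by
    rw [h2]
    nlinarith [sq_nonneg θ]
  have h6 : 1 - r ≤ (1 - circleMap 0 r θ).re := by
    rw [one_sub_circle_re]
    have := Real.cos_le_one θ
    nlinarith
  rw [div_mul_eq_mul_div, le_div_iff₀ h3]
  have h7 : XX r ^ 2 = 1 / (1 - r) := by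
    field_simp; linarith
  calc XX r ^ 2 * ‖1 - circleMap 0 r θ‖ ^ 2 ≤ XX r ^ 2 * ((1 - r) ^ 2 + θ ^ 2) := by gcongr
    _ = (1 - r) * (1 + (θ * XX r ^ 2) ^ 2) := by
        rw [h7]; field_simp
    _ ≤ _ := by gcongr

lemma xc_re_lower' {r θ M : ℝ} (hr0 : 0 ≤ r) (hr1 : r < 1) (h0 : 0 ≤ θ)
    (hθ : θ * XX r ^ 3 ≤ M) : XX r - M ^ 2 / (2 * XX r) ≤ (xc r θ).re := by
  have h1 := xc_re_lower (θ := θ) hr0 hr1
  have hXp := XX_pos hr1
  have hx := xc_re_pos hr0 hr1 θ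
  set X := XX r
  set x := (xc r θ).re
  by_cases hneg : X - M ^ 2 / (2 * X) ≤ 0
  · linarith
  push Not at hneg
  -- X^2 ≤ x^2 (1+s^2), s = θ X^2 ≤ M / X
  have hs : θ * X ^ 2 ≤ M / X := by
    rw [le_div_iff₀ hXp]; linarith [hθ, show θ * X ^ 2 * X = θ * X ^ 3 by ring]
  have hs0 : 0 ≤ θ * X ^ 2 := by positivity
  have hs2 : (θ * X ^ 2) ^ 2 ≤ (M / X) ^ 2 := by gcongr
  have h2 : X ^ 2 ≤ x ^ 2 * (1 + (M / X) ^ 2) := by
    have e1 : (x ^ 2 - (xc r θ).im ^ 2) * (1 + (θ * X ^ 2) ^ 2) ≤ x ^ 2 * (1 + (M / X) ^ 2) := by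
      have : 0 ≤ (xc r θ).im ^ 2 := sq_nonneg _
      apply mul_le_mul _ _ (by positivity) (by positivity)
      · linarith
      · linarith
    linarith
  -- (X - M^2/(2X))^2 (1 + M^2/X^2) ≤ X^2
  have h3 : (X - M ^ 2 / (2 * X)) ^ 2 * (1 + (M / X) ^ 2) ≤ X ^ 2 := by
    have e0 : M ^ 2 / (2 * X) ≤ X := by linarith
    have e1 : M ^ 2 ≤ 2 * X ^ 2 := by
      rw [div_le_iff₀ (by positivity)] at e0
      nlinarith
    have e2 : (X - M ^ 2 / (2 * X)) ^ 2 * (1 + (M / X) ^ 2)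
        = X ^ 2 - (M ^ 2) ^ 2 / (4 * X ^ 4) * (3 * X ^ 2 - M ^ 2) := by
      field_simp
      ring
    rw [e2]
    have e3 : 0 ≤ (M ^ 2) ^ 2 / (4 * X ^ 4) * (3 * X ^ 2 - M ^ 2) := by
      apply mul_nonneg (by positivity)
      nlinarith [sq_nonneg X]
    linarith
  have h4 : (X - M ^ 2 / (2 * X)) ^ 2 ≤ x ^ 2 := by
    have e1 : 0 < 1 + (M / X) ^ 2 := by positivity
    have e2 : (X - M ^ 2 / (2 * X)) ^ 2 * (1 + (M / X) ^ 2) ≤ x ^ 2 * (1 + (M / X) ^ 2) :=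
      h3.trans h2
    exact le_of_mul_le_mul_right e2 e1
  exact le_of_sq_le_sq h4 hx.le

/-- slope bound near the real axis -/
lemma xc_im_le {r θ : ℝ} (hr0 : 0 ≤ r) (hr1 : r < 1) (h0 : 0 ≤ θ) (h1 : θ ≤ (1 - r) / 10) :
    20 * (xc r θ).im ≤ (xc r θ).re := by
  have hz := circleMap_lt (θ := θ) hr0 hr1
  have e1 := xi_sq_re hz
  have e2 := xi_sq_im hz
  change (xc r θ).re ^ 2 - (xc r θ).im ^ 2 = _ at e1
  change 2 * (xc r θ).re * (xc r θ).im = _ at e2
  have hx := xc_re_pos hr0 hr1 θ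
  have hN : 0 < ‖1 - circleMap 0 r θ‖ ^ 2 := by
    have := norm_pos_iff.mpr (one_sub_ne hz)
    positivity
  have hsin : Real.sin θ ≤ θ := Real.sin_le h0
  have h6 : 1 - r ≤ (1 - circleMap 0 r θ).re := by
    rw [one_sub_circle_re]
    have := Real.cos_le_one θ
    nlinarith
  have h7 : 10 * (2 * (xc r θ).re * (xc r θ).im) ≤ (xc r θ).re ^ 2 - (xc r θ).im ^ 2 := by
    rw [e1, e2, one_sub_circle_im, neg_neg, ← mul_div_assoc]
    apply div_le_div_of_nonneg_right _ hN.le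
    have : r * Real.sin θ ≤ (1 - r) / 10 := by
      calc r * Real.sin θ ≤ r * θ := by gcongr
        _ ≤ 1 * θ := by gcongr
        _ ≤ _ := by linarith
    linarith
  nlinarith [sq_nonneg (xc r θ).im]

/-- the outer bound -/
lemma xc_norm_outer {r θ : ℝ} (hr0 : 1 / 2 ≤ r) (hr1 : r < 1) (h1 : (1 - r) / 10 ≤ θ) (h2 : θ ≤ π) :
    ‖xc r θ‖ ≤ 9996 / 10000 * XX r := by
  have hr0' : 0 ≤ r := by linarith
  have hz := circleMap_lt (θ := θ) hr0' hr1
  have e1 := xi_norm_sq hz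
  have hX := XX_sq hr1
  have hXp := XX_pos hr1
  have hpos : 0 < 1 - r := by linarith
  have hθ0 : 0 ≤ θ := by linarith
  have e2 := one_sub_circle_normsq r θ
  have hcos := Real.cos_le_one_sub_mul_cos_sq (x := θ) (by rw [abs_of_nonneg hθ0]; exact h2)
  have hpi : π ^ 2 ≤ 10 := by
    have := Real.pi_lt_d2
    have := Real.pi_pos
    nlinarith
  have hpi0 : 0 < π ^ 2 := by positivity
  have e3 : (1 / 5 : ℝ) * θ ^ 2 ≤ 1 - Real.cos θ := by
    have : (1 / 5 : ℝ) ≤ 2 / π ^ 2 := by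
      rw [div_le_div_iff₀ (by norm_num) hpi0]; linarith
    have h3 : (1 / 5 : ℝ) * θ ^ 2 ≤ 2 / π ^ 2 * θ ^ 2 := by gcongr
    linarith
  have e4 : (1 - r) ^ 2 / 500 ≤ 1 - Real.cos θ := by
    have : ((1 - r) / 10) ^ 2 ≤ θ ^ 2 := by gcongr
    linarith [show ((1 - r) / 10) ^ 2 = (1 - r) ^ 2 / 100 by ring]
  have e5 : (1 - r) ^ 2 * (501 / 500) ≤ ‖1 - circleMap 0 r θ‖ ^ 2 := by
    rw [e2]
    have : 0 ≤ 1 - Real.cos θ := by linarith [Real.cos_le_one θ]
    nlinarith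
  -- ‖ξ‖^4 ‖1-z‖^2 = 1
  have e6 : ‖xc r θ‖ ^ 4 * ‖1 - circleMap 0 r θ‖ ^ 2 = 1 := by
    have : (‖xc r θ‖ ^ 2 * ‖1 - circleMap 0 r θ‖) ^ 2 = 1 := by
      rw [show ‖xc r θ‖ ^ 2 * ‖1 - circleMap 0 r θ‖ = 1 from e1]; norm_num
    calc _ = (‖xc r θ‖ ^ 2 * ‖1 - circleMap 0 r θ‖) ^ 2 := by ring
      _ = 1 := this
  have e7 : ‖xc r θ‖ ^ 4 * ((1 - r) ^ 2 * (501 / 500)) ≤ 1 := by
    calc _ ≤ ‖xc r θ‖ ^ 4 * ‖1 - circleMap 0 r θ‖ ^ 2 := by gcongr
      _ = 1 := e6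
  have e8 : (XX r ^ 4) * (1 - r) ^ 2 = 1 := by
    calc _ = (XX r ^ 2 * (1 - r)) ^ 2 := by ring
      _ = 1 := by rw [hX]; norm_num
  have e9 : ‖xc r θ‖ ^ 4 ≤ (9996 / 10000 * XX r) ^ 4 := by
    have h3 : 0 < (1 - r) ^ 2 := by positivity
    apply le_of_mul_le_mul_right _ h3
    have : (9996 / 10000 * XX r) ^ 4 * (1 - r) ^ 2 = (9996 / 10000) ^ 4 := by
      rw [mul_pow, mul_assoc, e8, mul_one]
    rw [this]
    have h4 : ‖xc r θ‖ ^ 4 * (1 - r) ^ 2 ≤ 500 / 501 := by linarith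
    refine h4.trans ?_
    norm_num
  exact le_of_pow_le_pow_left₀ (by norm_num) (by positivity) e9

lemma xc_zero {r : ℝ} (hr0 : 0 ≤ r) (hr1 : r < 1) : (xc r 0).re = XX r ∧ (xc r 0).im = 0 := by
  have hz := circleMap_lt (θ := 0) hr0 hr1
  have e1 := xi_sq_re hz
  have e2 := xi_sq_im hz
  change (xc r 0).re ^ 2 - (xc r 0).im ^ 2 = _ at e1
  change 2 * (xc r 0).re * (xc r 0).im = _ at e2
  have hx := xc_re_pos hr0 hr1 0
  rw [one_sub_circle_im, Real.sin_zero] at e2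
  have hy : (xc r 0).im = 0 := by
    have : 2 * (xc r 0).re * (xc r 0).im = 0 := by rw [e2]; simp
    rcases mul_eq_zero.mp this with h | h
    · linarith
    · exact h
  refine ⟨?_, hy⟩
  rw [hy, one_sub_circle_re, one_sub_circle_normsq, Real.cos_zero] at e1
  have hX := XX_sq hr1
  have hpos : 0 < 1 - r := by linarith
  have h1 : (xc r 0).re ^ 2 = XX r ^ 2 := by
    have h2 : XX r ^ 2 = 1 / (1 - r) := by
      field_simp; linarith
    have h3 : (xc r 0).re ^ 2 = 1 / (1 - r) := by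
      have : (1 - r * 1) / ((1 - r) ^ 2 + 2 * r * (1 - 1)) = 1 / (1 - r) := by
        field_simp; ring
      rw [← this, ← e1]; ring
    rw [h2, h3]
  have h2 := abs_eq_abs.mpr (sq_eq_sq_iff_eq_or_eq_neg.mp h1)
  rwa [abs_of_pos hx, abs_of_pos (XX_pos hr1)] at h2

/-- twice the derivative of the imaginary part -/
noncomputable def AA (x y : ℝ) : ℝ := x ^ 3 - 3 * x * y ^ 2 - x

/-- minus twice the derivative of the real part -/
noncomputable def BB (x y : ℝ) : ℝ := 3 * x ^ 2 * y - y ^ 3 - y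

lemma cube_sub_re (z : ℂ) : (z ^ 3 - z).re = AA z.re z.im := by
  simp only [AA, pow_succ, pow_zero, one_mul, Complex.sub_re, Complex.mul_re, Complex.mul_im]
  ring

lemma cube_sub_im (z : ℂ) : (z ^ 3 - z).im = BB z.re z.im := by
  simp only [BB, pow_succ, pow_zero, one_mul, Complex.sub_im, Complex.mul_re, Complex.mul_im]
  ring

lemma xc_re_hasDerivAt {r : ℝ} (hr0 : 0 ≤ r) (hr1 : r < 1) (θ : ℝ) :
    HasDerivAt (fun t => (xc r t).re) (-(BB (xc r θ).re (xc r θ).im) / 2) θ := by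
  have h := xc_hasDerivAt hr0 hr1 θ
  have h2 : HasDerivAt (fun t => (xc r t).re) (Complex.I / 2 * (xc r θ ^ 3 - xc r θ)).re θ :=
    Complex.reCLM.hasFDerivAt.comp_hasDerivAt θ h
  refine h2.congr_deriv ?_
  rw [← cube_sub_im]
  simp only [Complex.mul_re, Complex.div_re, Complex.div_im, Complex.I_re, Complex.I_im]
  norm_num
  ring

lemma xc_im_hasDerivAt {r : ℝ} (hr0 : 0 ≤ r) (hr1 : r < 1) (θ : ℝ) :
    HasDerivAt (fun t => (xc r t).im) (AA (xc r θ).re (xc r θ).im / 2) θ := by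
  have h := xc_hasDerivAt hr0 hr1 θ
  have h2 : HasDerivAt (fun t => (xc r t).im) (Complex.I / 2 * (xc r θ ^ 3 - xc r θ)).im θ :=
    Complex.imCLM.hasFDerivAt.comp_hasDerivAt θ h
  refine h2.congr_deriv ?_
  rw [← cube_sub_re]
  simp only [Complex.mul_im, Complex.div_re, Complex.div_im, Complex.I_re, Complex.I_im]
  norm_num
  ring

lemma AA_lower {x y : ℝ} (hx : 10 ≤ x) (hy0 : 0 ≤ y) (hy : 20 * y ≤ x) :
    98 / 100 * x ^ 3 ≤ AA x y := by
  unfold AA
  have h1 : y ^ 2 ≤ x ^ 2 / 400 := by nlinarith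
  have h2 : 3 * x * y ^ 2 ≤ 3 * x * (x ^ 2 / 400) := by gcongr
  have h3 : x ≤ x ^ 3 / 100 := by nlinarith [mul_nonneg (show (0:ℝ) ≤ x by linarith) (show 0 ≤ x ^ 2 - 100 by nlinarith)]
  nlinarith [pow_pos (show (0:ℝ) < x by linarith) 3]

lemma phi_deriv_sign {x y : ℝ} (hx : 10 ≤ x) (hy0 : 0 ≤ y) (hy : 20 * y ≤ x) :
    -(BB x y) / 2 * AA x y - (3 * x ^ 2 * (-(BB x y) / 2) - 3 * (-(BB x y) / 2) * y ^ 2
      - 3 * x * (2 * y * (AA x y / 2)) - (-(BB x y) / 2)) ≤ 0 := by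
  have hA := AA_lower hx hy0 hy
  have hB : BB x y = y * (3 * x ^ 2 - y ^ 2 - 1) := by unfold BB; ring
  have hx0 : 0 < x := by linarith
  have h1 : y ^ 2 ≤ x ^ 2 / 400 := by nlinarith
  have h2 : 298 / 100 * x ^ 2 ≤ 3 * x ^ 2 - y ^ 2 - 1 := by nlinarith
  have h3 : 3 * x ^ 2 - y ^ 2 - 1 ≤ 3 * x ^ 2 := by nlinarith [sq_nonneg y]
  have h4 : 3 * x ^ 2 - 3 * y ^ 2 - 1 ≤ 3 * x ^ 2 := by nlinarith [sq_nonneg y]
  set A := AA x y with hAdef
  set Q := 3 * x ^ 2 - y ^ 2 - 1 with hQ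
  have hQ0 : 0 < Q := by nlinarith
  have hA0 : 0 < A := by
    have := pow_pos hx0 3
    linarith
  have hAle : A ≤ x ^ 3 := by
    rw [hAdef]; unfold AA
    nlinarith [mul_nonneg hx0.le (sq_nonneg y)]
  rw [hB]
  have key : -(y * Q) / 2 * A - (3 * x ^ 2 * (-(y * Q) / 2) - 3 * (-(y * Q) / 2) * y ^ 2
      - 3 * x * (2 * y * (A / 2)) - (-(y * Q) / 2))
      = - y * (Q * A / 2 - Q * (3 * x ^ 2 - 3 * y ^ 2 - 1) / 2 - 3 * x * A) := by
    rw [show (3 : ℝ) * x ^ 2 - 3 * y ^ 2 - 1 = 3 * x ^ 2 - 3 * y ^ 2 - 1 from rfl]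
    ring
  rw [key]
  have h5 : 0 ≤ Q * A / 2 - Q * (3 * x ^ 2 - 3 * y ^ 2 - 1) / 2 - 3 * x * A := by
    have e1 : (298 / 100 * x ^ 2) * (98 / 100 * x ^ 3) ≤ Q * A := by
      apply mul_le_mul h2 hA (by positivity) hQ0.le
    have e2 : Q * (3 * x ^ 2 - 3 * y ^ 2 - 1) ≤ (3 * x ^ 2) * (3 * x ^ 2) := by
      have : 0 ≤ 3 * x ^ 2 - 3 * y ^ 2 - 1 := by nlinarith
      exact mul_le_mul h3 h4 this (by positivity)
    have e3 : 3 * x * A ≤ 3 * x * x ^ 3 := by gcongr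
    have e4 : 0 < x ^ 4 := by positivity
    have e5 : 10 * x ^ 4 ≤ x ^ 5 := by
      have : x ^ 5 = x * x ^ 4 := by ring
      rw [this]; gcongr
    nlinarith
  nlinarith

/-- The inner part of the circle. -/
lemma near_part {r : ℝ} (hr0 : 0 ≤ r) (hr1 : r < 1) (hX : 12 ≤ XX r) (g G : ℝ → ℝ) (ε C : ℝ)
    (hC : 0 ≤ C) (hg : Continuous g) (hG : ∀ u, HasDerivAt G (g u) u)
    (hG0 : G 0 = 0) (hGb : ∀ u, 0 ≤ u → G u ≤ ε * u + C) :
    ∫ θ in (0 : ℝ)..((1 - r) / 10), Real.exp (xc r θ).re * g (xc r θ).im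
      ≤ C * (3 * Real.exp (XX r) / XX r ^ 3)
        + ε * ∫ θ in (0 : ℝ)..((1 - r) / 10), Real.exp (xc r θ).re := by
  have hpos : 0 < 1 - r := by linarith
  have hpi : (1 - r) / 10 ≤ π := by
    have := Real.pi_gt_three
    linarith
  have hXp := XX_pos hr1
  have hXsq := XX_sq hr1
  have hc := continuous_xc hr0 hr1
  have hre : Continuous (fun θ => (xc r θ).re) := Complex.continuous_re.comp hc
  have him : Continuous (fun θ => (xc r θ).im) := Complex.continuous_im.comp hc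
  -- pointwise bounds
  have hb : ∀ θ ∈ Set.Icc 0 ((1 - r) / 10), 10 ≤ (xc r θ).re ∧ 0 ≤ (xc r θ).im ∧
      20 * (xc r θ).im ≤ (xc r θ).re := by
    intro θ hθ
    refine ⟨?_, xc_im_nonneg hr0 hr1 hθ.1 (hθ.2.trans hpi), xc_im_le hr0 hr1 hθ.1 hθ.2⟩
    have h1 := xc_re_lower (θ := θ) hr0 hr1
    have hx := xc_re_pos hr0 hr1 θ
    have h2 : θ * XX r ^ 2 ≤ 1 / 10 := by
      have : θ * XX r ^ 2 ≤ (1 - r) / 10 * XX r ^ 2 := by gcongr; exact hθ.2
      linarith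
    have h20 : 0 ≤ θ * XX r ^ 2 := mul_nonneg hθ.1 (by positivity)
    have h3 : (θ * XX r ^ 2) ^ 2 ≤ 1 / 100 := by nlinarith
    have h4 : XX r ^ 2 ≤ (xc r θ).re ^ 2 * (101 / 100) := by
      have e1 : ((xc r θ).re ^ 2 - (xc r θ).im ^ 2) * (1 + (θ * XX r ^ 2) ^ 2)
          ≤ (xc r θ).re ^ 2 * (101 / 100) := by
        apply mul_le_mul _ _ (by positivity) (by positivity)
        · linarith [sq_nonneg (xc r θ).im]
        · linarith
      linarith
    by_contra hcon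
    push Not at hcon
    nlinarith
  have hder : ∀ θ ∈ Set.Icc 0 ((1 - r) / 10),
      HasDerivAt (fun t => 2 * Real.exp (xc r t).re / AA (xc r t).re (xc r t).im)
      (2 * Real.exp (xc r θ).re / AA (xc r θ).re (xc r θ).im ^ 2 *
        (-(BB (xc r θ).re (xc r θ).im) / 2 * AA (xc r θ).re (xc r θ).im
          - (3 * (xc r θ).re ^ 2 * (-(BB (xc r θ).re (xc r θ).im) / 2)
            - 3 * (-(BB (xc r θ).re (xc r θ).im) / 2) * (xc r θ).im ^ 2
            - 3 * (xc r θ).re * (2 * (xc r θ).im * (AA (xc r θ).re (xc r θ).im / 2))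
            - (-(BB (xc r θ).re (xc r θ).im) / 2)))) θ := by
    intro θ hθ
    obtain ⟨hb1, hb2, hb3⟩ := hb θ hθ
    have hA := AA_lower hb1 hb2 hb3
    have hA0 : 0 < AA (xc r θ).re (xc r θ).im := by
      have := pow_pos (show 0 < (xc r θ).re by linarith) 3
      linarith
    have h1 := xc_re_hasDerivAt hr0 hr1 θ
    have h2 := xc_im_hasDerivAt hr0 hr1 θ
    have h3 : HasDerivAt (fun t => AA (xc r t).re (xc r t).im)
        (3 * (xc r θ).re ^ 2 * (-(BB (xc r θ).re (xc r θ).im) / 2)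
            - 3 * (-(BB (xc r θ).re (xc r θ).im) / 2) * (xc r θ).im ^ 2
            - 3 * (xc r θ).re * (2 * (xc r θ).im * (AA (xc r θ).re (xc r θ).im / 2))
            - (-(BB (xc r θ).re (xc r θ).im) / 2)) θ := by
      have := ((h1.pow 3).sub ((h1.const_mul 3).mul (h2.pow 2))).sub h1
      refine this.congr_deriv ?_
      norm_num
      ring
    have h4 := (h1.exp.const_mul 2).div h3 hA0.ne'
    refine h4.congr_deriv ?_
    field_simp
  have key := ibp_ineq (fun θ => Real.exp (xc r θ).re) (fun θ => (xc r θ).im)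
    (fun θ => AA (xc r θ).re (xc r θ).im / 2)
    (fun t => 2 * Real.exp (xc r t).re / AA (xc r t).re (xc r t).im) _ g G
    ((1 - r) / 10) ε C (by linarith) (Real.continuous_exp.comp hre) hg him
    (fun θ _ => xc_im_hasDerivAt hr0 hr1 θ) hder hG ?_ ?_ ?_ (xc_zero hr0 hr1).2
    (fun θ hθ => (hb θ hθ).2.1) hG0 hGb
  · refine key.trans ?_
    rw [(xc_zero hr0 hr1).1, (xc_zero hr0 hr1).2]
    have h1 : 2 * Real.exp (XX r) / AA (XX r) 0 ≤ 3 * Real.exp (XX r) / XX r ^ 3 := by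
      have hA := AA_lower (x := XX r) (y := 0) (by linarith) le_rfl (by linarith)
      have hA0 : 0 < AA (XX r) 0 := by
        have := pow_pos hXp 3
        linarith
      rw [div_le_div_iff₀ hA0 (by positivity)]
      have := Real.exp_pos (XX r)
      nlinarith [pow_pos hXp 3]
    gcongr
  · intro θ hθ
    obtain ⟨hb1, hb2, hb3⟩ := hb θ hθ
    have hA := AA_lower hb1 hb2 hb3
    have hA0 : 0 < AA (xc r θ).re (xc r θ).im := by
      have := pow_pos (show 0 < (xc r θ).re by linarith) 3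
      linarith
    field_simp
  · intro θ hθ
    obtain ⟨hb1, hb2, hb3⟩ := hb θ hθ
    have hA := AA_lower hb1 hb2 hb3
    have hA0 : 0 < AA (xc r θ).re (xc r θ).im := by
      have := pow_pos (show 0 < (xc r θ).re by linarith) 3
      linarith
    apply mul_nonpos_of_nonneg_of_nonpos
    · positivity
    · exact phi_deriv_sign hb1 hb2 hb3
  · intro θ hθ
    obtain ⟨hb1, hb2, hb3⟩ := hb θ hθ
    have hA := AA_lower hb1 hb2 hb3
    have hA0 : 0 < AA (xc r θ).re (xc r θ).im := by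
      have := pow_pos (show 0 < (xc r θ).re by linarith) 3
      linarith
    positivity

lemma J_lower {r M T : ℝ} (hr0 : 0 ≤ r) (hr1 : r < 1) (hM : 0 ≤ M) (hT : M / XX r ^ 3 ≤ T) :
    M / XX r ^ 3 * Real.exp (XX r - M ^ 2 / (2 * XX r)) ≤ ∫ θ in (0 : ℝ)..T, Real.exp (xc r θ).re := by
  have hXp := XX_pos hr1
  have hc := continuous_xc hr0 hr1
  have hre : Continuous (fun θ => Real.exp (xc r θ).re) :=
    Real.continuous_exp.comp (Complex.continuous_re.comp hc)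
  have h0 : 0 ≤ M / XX r ^ 3 := by positivity
  calc M / XX r ^ 3 * Real.exp (XX r - M ^ 2 / (2 * XX r))
      = ∫ θ in (0 : ℝ)..(M / XX r ^ 3), Real.exp (XX r - M ^ 2 / (2 * XX r)) := by
        rw [intervalIntegral.integral_const, smul_eq_mul, sub_zero]
    _ ≤ ∫ θ in (0 : ℝ)..(M / XX r ^ 3), Real.exp (xc r θ).re := by
        apply intervalIntegral.integral_mono_on h0 (by simp) (hre.intervalIntegrable _ _)
        intro θ hθ
        apply Real.exp_le_exp.mpr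
        apply xc_re_lower' hr0 hr1 hθ.1
        have := hθ.2
        rwa [le_div_iff₀ (by positivity)] at this
    _ ≤ ∫ θ in (0 : ℝ)..T, Real.exp (xc r θ).re := by
        rw [← intervalIntegral.integral_add_adjacent_intervals (hre.intervalIntegrable 0 (M / XX r ^ 3))
          (hre.intervalIntegrable (M / XX r ^ 3) T)]
        have : 0 ≤ ∫ θ in (M / XX r ^ 3)..T, Real.exp (xc r θ).re :=
          intervalIntegral.integral_nonneg hT (fun _ _ => (Real.exp_pos _).le)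
        linarith

lemma half_circle (f : ℝ → ℝ) (hf : Continuous f) (hper : Function.Periodic f (2 * π))
    (heven : ∀ θ, f (-θ) = f θ) :
    ∫ θ in (0 : ℝ)..(2 * π), f θ = 2 * ∫ θ in (0 : ℝ)..π, f θ := by
  have h1 : ∫ θ in (0 : ℝ)..(0 + 2 * π), f θ = ∫ θ in (-π)..(-π + 2 * π), f θ :=
    hper.intervalIntegral_add_eq 0 (-π)
  rw [zero_add, show -π + 2 * π = π by ring] at h1
  rw [h1, ← intervalIntegral.integral_add_adjacent_intervals (hf.intervalIntegrable (-π) 0)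
    (hf.intervalIntegrable 0 π)]
  have h2 : ∫ θ in (-π)..0, f θ = ∫ θ in (0 : ℝ)..π, f θ := by
    have := intervalIntegral.integral_comp_neg (a := 0) (b := π) f
    rw [neg_zero] at this
    rw [← this]
    congr 1
    ext θ
    exact heven θ
  rw [h2]; ring

lemma lin_bound (q : ℝ → ℝ) (hq : Continuous q) (hq0 : ∀ y, 0 ≤ q y) (hq1 : ∀ y, q y ≤ 1) (ρ : ℝ)
    (hρ : Tendsto (fun y : ℝ => (∫ t in (0 : ℝ)..y, q t) / y) atTop (𝓝 ρ)) (ε : ℝ) (hε : 0 < ε) :
    ∃ C : ℝ, 0 ≤ C ∧ ∀ y, 0 ≤ y → |(∫ t in (0 : ℝ)..y, q t) - ρ * y| ≤ ε * y + C := by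
  have h1 := (Metric.tendsto_nhds.mp hρ) ε hε
  obtain ⟨Y, hY⟩ := Filter.eventually_atTop.mp h1
  set Y0 := max Y 1
  refine ⟨(1 + |ρ|) * Y0, by positivity, ?_⟩
  intro y hy
  rcases le_total Y0 y with h | h
  · have h2 := hY y ((le_max_left _ _).trans h)
    have hy0 : 0 < y := lt_of_lt_of_le (by positivity) h
    rw [Real.dist_eq] at h2
    have h3 : |(∫ t in (0 : ℝ)..y, q t) - ρ * y| = |(∫ t in (0 : ℝ)..y, q t) / y - ρ| * y := by
      rw [← abs_of_pos hy0, ← abs_mul, abs_of_pos hy0]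
      congr 1
      field_simp
    rw [h3]
    have h4 : 0 ≤ (1 + |ρ|) * Y0 := by positivity
    nlinarith
  · have h2 : 0 ≤ ∫ t in (0 : ℝ)..y, q t := intervalIntegral.integral_nonneg hy (fun t _ => hq0 t)
    have h3 : ∫ t in (0 : ℝ)..y, q t ≤ y := by
      calc ∫ t in (0 : ℝ)..y, q t ≤ ∫ t in (0 : ℝ)..y, (1 : ℝ) :=
            intervalIntegral.integral_mono_on hy (hq.intervalIntegrable _ _) (by simp)
              (fun t _ => hq1 t)
        _ = y := by simp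
    have h4 : |(∫ t in (0 : ℝ)..y, q t) - ρ * y| ≤ (1 + |ρ|) * y := by
      calc |(∫ t in (0 : ℝ)..y, q t) - ρ * y| ≤ |∫ t in (0 : ℝ)..y, q t| + |ρ * y| := abs_sub _ _
        _ ≤ y + |ρ| * y := by
            rw [abs_of_nonneg h2, abs_mul, abs_of_nonneg hy]; gcongr
        _ = _ := by ring
    have h5 : (1 + |ρ|) * y ≤ (1 + |ρ|) * Y0 := by gcongr
    have h6 : 0 ≤ ε * y := by positivity
    linarith

lemma outer_small (K ε : ℝ) (hε : 0 < ε) :
    ∀ᶠ X : ℝ in atTop, K * Real.exp (9996 / 10000 * X) ≤ ε * (1 / X ^ 3 * Real.exp (X - 1)) := by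
  have h1 : Tendsto (fun X : ℝ => (4 / 10000 * X) ^ 3 * Real.exp (-(4 / 10000 * X))) atTop (𝓝 0) :=
    (Real.tendsto_pow_mul_exp_neg_atTop_nhds_zero 3).comp
      (tendsto_id.const_mul_atTop (by norm_num))
  have h2 : Tendsto (fun X : ℝ => K * Real.exp 1 / (4 / 10000) ^ 3 *
      ((4 / 10000 * X) ^ 3 * Real.exp (-(4 / 10000 * X)))) atTop (𝓝 0) := by
    simpa using h1.const_mul (K * Real.exp 1 / (4 / 10000) ^ 3)
  have h3 : ∀ᶠ X : ℝ in atTop, K * Real.exp 1 / (4 / 10000) ^ 3 *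
      ((4 / 10000 * X) ^ 3 * Real.exp (-(4 / 10000 * X))) < ε :=
    h2.eventually (gt_mem_nhds hε)
  filter_upwards [h3, eventually_gt_atTop 0] with X hX hX0
  have h4 : K * Real.exp (9996 / 10000 * X) * X ^ 3 / Real.exp (X - 1) =
      K * Real.exp 1 / (4 / 10000) ^ 3 *
      ((4 / 10000 * X) ^ 3 * Real.exp (-(4 / 10000 * X))) := by
    rw [div_eq_iff (Real.exp_pos _).ne']
    have : Real.exp (9996 / 10000 * X) = Real.exp 1 * Real.exp (-(4 / 10000 * X)) * Real.exp (X - 1) := by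
      rw [← Real.exp_add, ← Real.exp_add]; congr 1; ring
    rw [this]; ring
  rw [← h4] at hX
  rw [div_lt_iff₀ (Real.exp_pos _)] at hX
  rw [show ε * (1 / X ^ 3 * Real.exp (X - 1)) = ε * Real.exp (X - 1) / X ^ 3 by ring,
    le_div_iff₀ (by positivity)]
  exact hX.le

theorem circle_ratio (q : ℝ → ℝ) (hq : Continuous q) (heven : ∀ y, q (-y) = q y)
    (hq0 : ∀ y, 0 ≤ q y) (hq1 : ∀ y, q y ≤ 1) (ρ : ℝ)
    (hρ : Tendsto (fun y : ℝ => (∫ t in (0 : ℝ)..y, q t) / y) atTop (𝓝 ρ)) :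
    Tendsto (fun r : ℝ => (∫ θ in (0 : ℝ)..(2 * π), Real.exp (xc r θ).re * q (xc r θ).im) /
      (∫ θ in (0 : ℝ)..(2 * π), Real.exp (xc r θ).re)) (𝓝[<] 1) (𝓝 ρ) := by
  rw [Metric.tendsto_nhds]
  intro ε' hε'
  set ε := ε' / 4 with hεdef
  have hε : 0 < ε := by positivity
  obtain ⟨C, hC0, hC⟩ := lin_bound q hq hq0 hq1 ρ hρ ε hε
  set M := 9 * C / ε + 1 with hMdef
  have hM1 : 1 ≤ M := by
    have : 0 ≤ 9 * C / ε := by positivity
    linarith
  have hout := tendsto_XX.eventually (outer_small ((1 + |ρ|) * π) ε hε)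
  have hbig : ∀ᶠ r : ℝ in 𝓝[<] 1, max 12 (10 * M ^ 2) ≤ XX r :=
    tendsto_XX.eventually_ge_atTop _
  have hr12 : ∀ᶠ r : ℝ in 𝓝[<] 1, 1 / 2 < r :=
    (lt_mem_nhds (by norm_num : (1 / 2 : ℝ) < 1)).filter_mono nhdsWithin_le_nhds
  filter_upwards [hout, hbig, hr12, self_mem_nhdsWithin] with r hout hbig hr12 hr1
  simp only [Set.mem_Iio] at hr1
  have hr0 : 0 ≤ r := by linarith
  have hXp := XX_pos hr1
  have hXsq := XX_sq hr1
  have hX12 : 12 ≤ XX r := (le_max_left _ _).trans hbig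
  have hXM : 10 * M ^ 2 ≤ XX r := (le_max_right _ _).trans hbig
  have hpos : 0 < 1 - r := by linarith
  have hpi : (1 - r) / 10 ≤ π := by
    have := Real.pi_gt_three
    linarith
  have hc := continuous_xc hr0 hr1
  have hre : Continuous (fun θ => Real.exp (xc r θ).re) :=
    Real.continuous_exp.comp (Complex.continuous_re.comp hc)
  have him : Continuous (fun θ => (xc r θ).im) := Complex.continuous_im.comp hc
  have hreq : Continuous (fun θ => Real.exp (xc r θ).re * q (xc r θ).im) := hre.mul (hq.comp him)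
  -- symmetrise
  have hs1 := half_circle (fun θ => Real.exp (xc r θ).re) hre
    (fun θ => by simp only [xc_periodic r θ]) (fun θ => by simp only [xc_neg r θ hr0 hr1]; simp)
  have hs2 := half_circle (fun θ => Real.exp (xc r θ).re * q (xc r θ).im) hreq
    (fun θ => by simp only [xc_periodic r θ])
    (fun θ => by simp only [xc_neg r θ hr0 hr1]; simp [heven])
  rw [hs1, hs2]
  set J := ∫ θ in (0 : ℝ)..π, Real.exp (xc r θ).re with hJ
  -- lower bound for J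
  have hJ1 : M / XX r ^ 3 * Real.exp (XX r - M ^ 2 / (2 * XX r)) ≤
      ∫ θ in (0 : ℝ)..((1 - r) / 10), Real.exp (xc r θ).re := by
    apply J_lower hr0 hr1 (by linarith)
    rw [div_le_iff₀ (by positivity)]
    have : (1 - r) / 10 * XX r ^ 3 = XX r / 10 := by
      rw [show (1 - r) / 10 * XX r ^ 3 = (XX r ^ 2 * (1 - r)) * XX r / 10 by ring, hXsq, one_mul]
    rw [this]
    nlinarith
  have hsplit : (∫ θ in (0 : ℝ)..((1 - r) / 10), Real.exp (xc r θ).re)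
      + (∫ θ in ((1 - r) / 10)..π, Real.exp (xc r θ).re) = J :=
    intervalIntegral.integral_add_adjacent_intervals (hre.intervalIntegrable _ _)
      (hre.intervalIntegrable _ _)
  have hout0 : 0 ≤ ∫ θ in ((1 - r) / 10)..π, Real.exp (xc r θ).re :=
    intervalIntegral.integral_nonneg hpi (fun _ _ => (Real.exp_pos _).le)
  have hexp1 : Real.exp (XX r - 1) ≤ Real.exp (XX r - M ^ 2 / (2 * XX r)) := by
    apply Real.exp_le_exp.mpr
    have : M ^ 2 / (2 * XX r) ≤ 1 := by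
      rw [div_le_iff₀ (by positivity)]; nlinarith
    linarith
  have hexp2 : Real.exp (XX r) ≤ 3 * Real.exp (XX r - M ^ 2 / (2 * XX r)) := by
    have h1 : Real.exp (XX r) = Real.exp 1 * Real.exp (XX r - 1) := by
      rw [← Real.exp_add]; congr 1; ring
    have h2 : Real.exp 1 ≤ 3 := by linarith [Real.exp_one_lt_d9]
    rw [h1]
    have := Real.exp_pos (XX r - 1)
    nlinarith
  have hX3 : 0 < XX r ^ 3 := by positivity
  have hJpos : 0 < J := by
    have : 0 < M / XX r ^ 3 * Real.exp (XX r - M ^ 2 / (2 * XX r)) := by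
      have : 0 < M := by linarith
      positivity
    linarith
  have hJa : (1 / XX r ^ 3) * Real.exp (XX r - 1) ≤ J := by
    have : (1 / XX r ^ 3) * Real.exp (XX r - 1) ≤ M / XX r ^ 3 * Real.exp (XX r - M ^ 2 / (2 * XX r)) := by
      gcongr
    linarith
  have hJb : C * (3 * Real.exp (XX r) / XX r ^ 3) ≤ ε * J := by
    have h1 : C * (3 * Real.exp (XX r) / XX r ^ 3) ≤
        (9 * C) / XX r ^ 3 * Real.exp (XX r - M ^ 2 / (2 * XX r)) := by
      rw [show C * (3 * Real.exp (XX r) / XX r ^ 3) = (3 * C / XX r ^ 3) * Real.exp (XX r) by ring,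
        show (9 * C) / XX r ^ 3 * Real.exp (XX r - M ^ 2 / (2 * XX r)) =
          (3 * C / XX r ^ 3) * (3 * Real.exp (XX r - M ^ 2 / (2 * XX r))) by ring]
      gcongr
    have h2 : 9 * C ≤ ε * M := by
      rw [hMdef]
      have : ε * (9 * C / ε + 1) = 9 * C + ε := by field_simp
      linarith
    have h3 : (9 * C) / XX r ^ 3 * Real.exp (XX r - M ^ 2 / (2 * XX r)) ≤
        (ε * M) / XX r ^ 3 * Real.exp (XX r - M ^ 2 / (2 * XX r)) := by gcongr
    have h4 : (ε * M) / XX r ^ 3 * Real.exp (XX r - M ^ 2 / (2 * XX r))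
        = ε * (M / XX r ^ 3 * Real.exp (XX r - M ^ 2 / (2 * XX r))) := by ring
    have h5 : ε * (M / XX r ^ 3 * Real.exp (XX r - M ^ 2 / (2 * XX r))) ≤ ε * J := by
      gcongr; linarith
    linarith
  have hJc : (1 + |ρ|) * π * Real.exp (9996 / 10000 * XX r) ≤ ε * J := by
    refine hout.trans ?_
    gcongr
  -- near part, both signs
  have hGder : ∀ u, HasDerivAt (fun y => (∫ t in (0 : ℝ)..y, q t) - ρ * y) (q u - ρ) u := by
    intro u
    have h1 := (hq.integral_hasStrictDerivAt 0 u).hasDerivAt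
    have h2 := (hasDerivAt_id u).const_mul ρ
    refine (h1.sub h2).congr_deriv ?_
    ring
  have hn1 := near_part hr0 hr1 hX12 (fun u => q u - ρ) (fun y => (∫ t in (0 : ℝ)..y, q t) - ρ * y)
    ε C hC0 (hq.sub continuous_const) hGder (by simp) (fun u hu => (abs_le.mp (hC u hu)).2)
  have hn2 := near_part hr0 hr1 hX12 (fun u => -(q u - ρ))
    (fun y => -((∫ t in (0 : ℝ)..y, q t) - ρ * y))
    ε C hC0 (hq.sub continuous_const).neg (fun u => (hGder u).neg) (by simp)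
    (fun u hu => by linarith [(abs_le.mp (hC u hu)).1])
  have hn2' : ∫ θ in (0 : ℝ)..((1 - r) / 10), Real.exp (xc r θ).re * -(q (xc r θ).im - ρ)
      = - ∫ θ in (0 : ℝ)..((1 - r) / 10), Real.exp (xc r θ).re * (q (xc r θ).im - ρ) := by
    rw [← intervalIntegral.integral_neg]
    congr 1; ext θ; ring
  rw [hn2'] at hn2
  have hcont3 : Continuous (fun θ => Real.exp (xc r θ).re * (q (xc r θ).im - ρ)) :=
    hre.mul ((hq.comp him).sub continuous_const)
  -- outer part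
  have ho : |∫ θ in ((1 - r) / 10)..π, Real.exp (xc r θ).re * (q (xc r θ).im - ρ)|
      ≤ (1 + |ρ|) * π * Real.exp (9996 / 10000 * XX r) := by
    have h1 : ‖∫ θ in ((1 - r) / 10)..π, Real.exp (xc r θ).re * (q (xc r θ).im - ρ)‖
        ≤ (Real.exp (9996 / 10000 * XX r) * (1 + |ρ|)) * |π - (1 - r) / 10| := by
      apply intervalIntegral.norm_integral_le_of_norm_le_const
      intro θ hθ
      rw [Set.uIoc_of_le hpi] at hθ
      rw [norm_mul, Real.norm_eq_abs, Real.norm_eq_abs, abs_of_pos (Real.exp_pos _)]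
      apply mul_le_mul
      · apply Real.exp_le_exp.mpr
        refine (Complex.re_le_norm _).trans ?_
        exact xc_norm_outer hr12.le hr1 hθ.1.le hθ.2
      · calc |q (xc r θ).im - ρ| ≤ |q (xc r θ).im| + |ρ| := abs_sub _ _
          _ ≤ 1 + |ρ| := by
            rw [abs_of_nonneg (hq0 _)]
            linarith [hq1 (xc r θ).im]
      · positivity
      · positivity
    rw [Real.norm_eq_abs] at h1
    refine h1.trans ?_
    have habs : |π - (1 - r) / 10| = π - (1 - r) / 10 := abs_of_nonneg (sub_nonneg.mpr hpi)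
    rw [habs]
    have : Real.exp (9996 / 10000 * XX r) * (1 + |ρ|) * (π - (1 - r) / 10)
        ≤ Real.exp (9996 / 10000 * XX r) * (1 + |ρ|) * π := by
      gcongr; linarith
    refine this.trans (le_of_eq ?_)
    ring
  have hsplit2 : (∫ θ in (0 : ℝ)..((1 - r) / 10), Real.exp (xc r θ).re * (q (xc r θ).im - ρ))
      + (∫ θ in ((1 - r) / 10)..π, Real.exp (xc r θ).re * (q (xc r θ).im - ρ))
      = ∫ θ in (0 : ℝ)..π, Real.exp (xc r θ).re * (q (xc r θ).im - ρ) :=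
    intervalIntegral.integral_add_adjacent_intervals (hcont3.intervalIntegrable _ _)
      (hcont3.intervalIntegrable _ _)
  have hfin : |∫ θ in (0 : ℝ)..π, Real.exp (xc r θ).re * (q (xc r θ).im - ρ)| ≤ 3 * ε * J := by
    rw [← hsplit2]
    have hin : ε * ∫ θ in (0 : ℝ)..((1 - r) / 10), Real.exp (xc r θ).re ≤ ε * J := by
      gcongr; linarith
    have h1 := abs_le.mp ho
    rw [abs_le]
    constructor <;> linarith
  have hlin : ∫ θ in (0 : ℝ)..π, Real.exp (xc r θ).re * (q (xc r θ).im - ρ)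
      = (∫ θ in (0 : ℝ)..π, Real.exp (xc r θ).re * q (xc r θ).im) - ρ * J := by
    rw [hJ, ← intervalIntegral.integral_const_mul, ← intervalIntegral.integral_sub
      (hreq.intervalIntegrable _ _) ((hre.const_mul ρ).intervalIntegrable _ _)]
    congr 1; ext θ; ring
  rw [hlin] at hfin
  rw [Real.dist_eq]
  have hfrac : 2 * (∫ θ in (0 : ℝ)..π, Real.exp (xc r θ).re * q (xc r θ).im) / (2 * J) - ρ
      = ((∫ θ in (0 : ℝ)..π, Real.exp (xc r θ).re * q (xc r θ).im) - ρ * J) / J := by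
    field_simp
  rw [hfrac, abs_div, abs_of_pos hJpos, div_lt_iff₀ hJpos]
  calc _ ≤ 3 * ε * J := hfin
    _ < ε' * J := by
      apply mul_lt_mul_of_pos_right _ hJpos
      rw [hεdef]; linarith

theorem circle_growth :
    ∀ᶠ r : ℝ in 𝓝[<] 1, Real.exp (XX r / 2) ≤ ∫ θ in (0 : ℝ)..(2 * π), Real.exp (xc r θ).re := by
  have hout := tendsto_XX.eventually (outer_small 1 1 one_pos)
  have hbig : ∀ᶠ r : ℝ in 𝓝[<] 1, 1 ≤ XX r :=
    tendsto_XX.eventually_ge_atTop _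
  have hr12 : ∀ᶠ r : ℝ in 𝓝[<] 1, 1 / 2 < r :=
    (lt_mem_nhds (by norm_num : (1 / 2 : ℝ) < 1)).filter_mono nhdsWithin_le_nhds
  filter_upwards [hout, hbig, hr12, self_mem_nhdsWithin] with r hout hbig hr12 hr1
  simp only [Set.mem_Iio] at hr1
  have hr0 : 0 ≤ r := by linarith
  have hXp := XX_pos hr1
  have h1 : 1 / XX r ^ 3 * Real.exp (XX r - 1 ^ 2 / (2 * XX r)) ≤
      ∫ θ in (0 : ℝ)..(2 * π), Real.exp (xc r θ).re := by
    apply J_lower hr0 hr1 zero_le_one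
    rw [div_le_iff₀ (by positivity)]
    have h2 : 1 ≤ XX r ^ 3 := one_le_pow₀ hbig
    have := Real.pi_gt_three
    nlinarith
  have h2 : Real.exp (XX r - 1) ≤ Real.exp (XX r - 1 ^ 2 / (2 * XX r)) := by
    apply Real.exp_le_exp.mpr
    have : 1 ^ 2 / (2 * XX r) ≤ 1 := by
      rw [div_le_iff₀ (by positivity)]; nlinarith
    linarith
  have h3 : 1 / XX r ^ 3 * Real.exp (XX r - 1) ≤ 1 / XX r ^ 3 * Real.exp (XX r - 1 ^ 2 / (2 * XX r)) := by
    gcongr
  have h4 : Real.exp (XX r / 2) ≤ Real.exp (9996 / 10000 * XX r) := by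
    apply Real.exp_le_exp.mpr
    linarith
  linarith

end IDP
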