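import Mathlib

/-!
# Dominant polynomial maps

A polynomial map over an algebraically closed field of characteristic zero whose differential is
surjective at one point has an image that contains the non-vanishing locus of a nonzero polynomial.
-/

namespace Pool.Agent.Helper37

open MvPolynomial

section Chevalley

variable {K : Type*} [Field K]

theorem exists_ne_zero_forall_mem_range [IsAlgClosed K] {S T : Type*} [Finite S] [Finite T]
    (Φ : T → MvPolynomial S K)
    (hinj : Function.Injective (aeval Φ : MvPolynomial T K →ₐ[K] MvPolynomial S K))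
    (h : MvPolynomial S K) (hh : h ≠ 0) :
    ∃ F : MvPolynomial T K, F ≠ 0 ∧ ∀ y : T → K, eval y F ≠ 0 →
      ∃ x : S → K, eval x h ≠ 0 ∧ ∀ t, eval x (Φ t) = y t := by
  classical
  set φ : MvPolynomial T K →+* MvPolynomial S K :=
    (aeval Φ : MvPolynomial T K →ₐ[K] MvPolynomial S K).toRingHom with hφ
  have hφinj : Function.Injective φ := hinj
  have hfp : φ.FinitePresentation := by
    rw [← RingHom.FinitePresentation.of_finiteType]
    have : (φ.comp (C : K →+* MvPolynomial T K)).FiniteType := by
      have : φ.comp (C : K →+* MvPolynomial T K) = algebraMap K (MvPolynomial S K) := by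
        ext a
        simp [hφ]
      rw [this, RingHom.finiteType_algebraMap]
      infer_instance
    exact RingHom.FiniteType.of_comp_finiteType this
  have hc := PrimeSpectrum.isConstructible_comap_image hfp
    (PrimeSpectrum.isConstructible_basicOpen (f := h))
  obtain ⟨D, hD⟩ := PrimeSpectrum.exists_constructibleSetData_iff.mpr hc
  have hbot : (⟨⊥, Ideal.isPrime_bot⟩ : PrimeSpectrum (MvPolynomial T K)) ∈
      PrimeSpectrum.comap φ '' (PrimeSpectrum.basicOpen h : Set (PrimeSpectrum _)) := by
    refine ⟨⟨⊥, Ideal.isPrime_bot⟩, ?_, ?_⟩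
    · simpa using hh
    · ext1
      simp only [PrimeSpectrum.comap_asIdeal]
      rw [← RingHom.ker_eq_comap_bot]
      exact (RingHom.injective_iff_ker_eq_bot _).mp hφinj
  rw [← hD] at hbot
  simp only [PrimeSpectrum.ConstructibleSetData.toSet, Set.mem_iUnion,
    PrimeSpectrum.BasicConstructibleSetData.toSet, Set.mem_sdiff, PrimeSpectrum.mem_zeroLocus] at hbot
  obtain ⟨B, hB, hB1, hB2⟩ := hbot
  have hF : B.f ≠ 0 := by
    intro h0
    apply hB2
    simp [h0]
  refine ⟨B.f, hF, fun y hy => ?_⟩
  -- the maximal ideal of y
  have hmax : (RingHom.ker (eval y)).IsMaximal :=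
    RingHom.ker_isMaximal_of_surjective _ (fun a => ⟨C a, by simp⟩)
  have hmem : (⟨RingHom.ker (eval y), hmax.isPrime⟩ : PrimeSpectrum (MvPolynomial T K)) ∈ D.toSet := by
    simp only [PrimeSpectrum.ConstructibleSetData.toSet, Set.mem_iUnion]
    refine ⟨B, hB, ?_⟩
    simp only [PrimeSpectrum.BasicConstructibleSetData.toSet, Set.mem_sdiff,
      PrimeSpectrum.mem_zeroLocus]
    constructor
    · intro g hg
      have := hB1 hg
      simp at this
      simp [this]
    · intro hcon
      apply hy
      have := hcon (Set.mem_singleton _)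
      simpa using this
  rw [hD] at hmem
  obtain ⟨q, hq, hqy⟩ := hmem
  have hrad : vanishingIdeal K (zeroLocus K q.asIdeal) = q.asIdeal := by
    rw [vanishingIdeal_zeroLocus_eq_radical]
    exact q.isPrime.radical
  have hhq : h ∉ q.asIdeal := hq
  rw [← hrad, mem_vanishingIdeal_iff] at hhq
  push Not at hhq
  obtain ⟨x, hx, hxh⟩ := hhq
  refine ⟨x, by simpa only [aeval_eq_eval] using hxh, fun t => ?_⟩
  have h1 : (X t - C (y t) : MvPolynomial T K) ∈
      (PrimeSpectrum.comap φ q).asIdeal := by
    rw [hqy]
    simp
  simp only [PrimeSpectrum.comap_asIdeal, Ideal.mem_comap] at h1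
  have h2 := hx _ h1
  have h3 : φ (X t - C (y t)) = Φ t - C (y t) := by simp [hφ]
  rw [h3] at h2
  have h4 : eval x (Φ t - C (y t)) = 0 := by simpa only [aeval_eq_eval] using h2
  simpa [sub_eq_zero] using h4

end Chevalley

section Jacobian

open TrivSqZeroExt

variable {K : Type*} [Field K]

/-- The first-order point `x + ε v` over the dual numbers. -/
noncomputable def dpt {S : Type*} (x v : S → K) : S → TrivSqZeroExt K K :=
  fun s => inl (x s) + inr (v s)

@[simp] lemma fst_dpt {S : Type*} (x v : S → K) (s : S) : (dpt x v s).fst = x s := by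
  simp [dpt]

@[simp] lemma snd_dpt {S : Type*} (x v : S → K) (s : S) : (dpt x v s).snd = v s := by
  simp [dpt]

lemma fst_aeval_dpt {S : Type*} (x v : S → K) (P : MvPolynomial S K) :
    (aeval (dpt x v) P).fst = eval x P := by
  induction P using MvPolynomial.induction_on with
  | C a => simp [algebraMap_eq_inl]
  | add p q hp hq => simp [hp, hq]
  | mul_X p n hp => simp [hp]

lemma snd_aeval_dpt {S : Type*} [Fintype S] (x v : S → K) (P : MvPolynomial S K) :
    (aeval (dpt x v) P).snd = ∑ s, eval x (pderiv s P) * v s := by
  classical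
  induction P using MvPolynomial.induction_on with
  | C a => simp [algebraMap_eq_inl]
  | add p q hp hq => simp [hp, hq, add_mul, Finset.sum_add_distrib]
  | mul_X p n hp =>
    simp only [map_mul, aeval_X, snd_mul, fst_aeval_dpt, snd_dpt, fst_dpt, hp, Derivation.leibniz,
      smul_eq_mul, map_add, eval_X, op_smul_eq_smul, pderiv_X, Pi.single_apply, add_mul,
      Finset.sum_add_distrib, Finset.mul_sum]
    congr 1
    · rw [Finset.sum_eq_single n]
      · simp
      · intro b _ hb
        simp [Ne.symm hb]
      · simp
    · refine Finset.sum_congr rfl fun s _ => by ring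

lemma totalDegree_pderiv_lt {T : Type*} {n : ℕ} (t : T) (P : MvPolynomial T K)
    (h : P.totalDegree ≤ n + 1) : (pderiv t P).totalDegree ≤ n := by
  classical
  refine Finset.sup_le fun s hs => ?_
  rw [mem_support_iff, coeff_pderiv] at hs
  have hs' : s + Finsupp.single t 1 ∈ P.support := by
    rw [mem_support_iff]
    exact left_ne_zero_of_mul hs
  have h1 : ((s + Finsupp.single t 1).sum fun _ e => e) ≤ P.totalDegree :=
    Finset.le_sup (f := fun s : T →₀ ℕ => s.sum fun _ e => e) hs'
  have h2 : ((s + Finsupp.single t 1).sum fun _ e => e) = (s.sum fun _ e => e) + 1 := by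
    rw [Finsupp.sum_add_index' (by simp) (by simp)]
    simp
  omega

lemma eq_C_of_pderiv_eq_zero [CharZero K] {T : Type*} (P : MvPolynomial T K)
    (h : ∀ t, pderiv t P = 0) : P = C (coeff 0 P) := by
  classical
  rw [← totalDegree_eq_zero_iff_eq_C]
  refine Nat.le_zero.mp (Finset.sup_le fun s hs => ?_)
  by_contra hne
  have hs0 : s ≠ 0 := by
    rintro rfl
    simp at hne
  obtain ⟨t, ht⟩ := Finsupp.ne_iff.mp hs0
  simp only [Finsupp.coe_zero, Pi.zero_apply] at ht
  have hst : (s - Finsupp.single t 1) + Finsupp.single t 1 = s := by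
    ext u
    by_cases hu : u = t
    · subst hu
      simp
      omega
    · simp [Ne.symm hu]
  have := congrArg (coeff (s - Finsupp.single t 1)) (h t)
  rw [coeff_pderiv, hst, coeff_zero, mul_eq_zero] at this
  rcases this with h1 | h1
  · exact (mem_support_iff.mp hs) h1
  · have h2 : ((((s - Finsupp.single t 1 : T →₀ ℕ) t) + 1 : ℕ) : K) ≠ 0 :=
      Nat.cast_ne_zero.mpr (Nat.succ_ne_zero _)
    apply h2
    exact_mod_cast h1

/-- The chain rule for polynomial substitution. -/
lemma pderiv_aeval {S T : Type*} [Fintype T] (Φ : T → MvPolynomial S K) (s : S)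
    (P : MvPolynomial T K) :
    pderiv s (aeval Φ P) = ∑ t, aeval Φ (pderiv t P) * pderiv s (Φ t) := by
  classical
  induction P using MvPolynomial.induction_on with
  | C a => simp
  | add p q hp hq => simp only [map_add, hp, hq, add_mul, Finset.sum_add_distrib]
  | mul_X p n hp =>
    simp only [map_mul, aeval_X, Derivation.leibniz, hp, smul_eq_mul, map_add, pderiv_X,
      Pi.single_apply, add_mul, Finset.sum_add_distrib, Finset.mul_sum]
    congr 1
    · rw [Finset.sum_eq_single n]
      · simp
      · intro b _ hb
        simp [hb.symm]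
      · simp
    · refine Finset.sum_congr rfl fun s _ => by ring

/-- Jacobian criterion: if the differential is surjective at one point, the polynomials are
algebraically independent. -/
theorem injective_aeval_of_surjective_differential [CharZero K] {S T : Type*} [Finite S] [Finite T]
    (Φ : T → MvPolynomial S K) (x : S → K)
    (hsurj : ∀ z : T → K, ∃ v : S → K, ∀ t, (aeval (dpt x v) (Φ t)).snd = z t) :
    Function.Injective (aeval Φ : MvPolynomial T K →ₐ[K] MvPolynomial S K) := by
  classical
  cases nonempty_fintype S
  cases nonempty_fintype T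
  -- right inverse of the Jacobian
  have hR : ∀ t : T, ∃ v : S → K, ∀ t', (aeval (dpt x v) (Φ t')).snd = (Pi.single t (1 : K) : T → K) t' :=
    fun t => hsurj _
  choose R hR using hR
  -- the matrix J R
  let M : Matrix T T (MvPolynomial S K) :=
    Matrix.of fun t' t => ∑ s, pderiv s (Φ t') * C (R t s)
  have hM1 : (M.map (eval x)) = 1 := by
    ext t' t
    have := hR t t'
    rw [snd_aeval_dpt] at this
    simp only [M, Matrix.map_apply, Matrix.of_apply, map_sum, map_mul, eval_C, this,
      Matrix.one_apply, Pi.single_apply]
  have hdet : M.det ≠ 0 := by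
    intro h0
    have h1 : (eval x) M.det = 1 := by
      rw [RingHom.map_det]
      have : (RingHom.mapMatrix (eval x)) M = M.map (eval x) := rfl
      rw [this, hM1, Matrix.det_one]
    rw [h0, map_zero] at h1
    exact zero_ne_one h1
  -- key induction
  have key : ∀ n : ℕ, ∀ P : MvPolynomial T K, P.totalDegree ≤ n → aeval Φ P = 0 → P = 0 := by
    intro n
    induction n with
    | zero =>
      intro P hP h0
      have hc := totalDegree_eq_zero_iff_eq_C.mp (Nat.le_zero.mp hP)
      rw [hc, aeval_C, algebraMap_eq, C_eq_zero] at h0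
      rw [hc, h0, C_0]
    | succ n ih =>
      intro P hP h0
      have hchain : ∀ s : S, ∑ t, aeval Φ (pderiv t P) * pderiv s (Φ t) = 0 := by
        intro s
        have : pderiv s (aeval Φ P) = ∑ t, aeval Φ (pderiv t P) * pderiv s (Φ t) := by
          exact pderiv_aeval Φ s P
        rw [← this, h0, map_zero]
      have hvec : Matrix.vecMul (fun t => aeval Φ (pderiv t P)) M = 0 := by
        ext1 t
        simp only [Matrix.vecMul, dotProduct, M, Matrix.of_apply, Finset.mul_sum, Pi.zero_apply]
        rw [Finset.sum_comm]
        refine Finset.sum_eq_zero fun s _ => ?_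
        have := congrArg (fun q => q * C (R t s)) (hchain s)
        simp only [Finset.sum_mul, zero_mul] at this
        rw [← this]
        refine Finset.sum_congr rfl fun t' _ => by ring
      have hzero := Matrix.eq_zero_of_vecMul_eq_zero hdet hvec
      have hder : ∀ t, pderiv t P = 0 := by
        intro t
        apply ih _ (totalDegree_pderiv_lt t P hP)
        exact congrFun hzero t
      have hc := eq_C_of_pderiv_eq_zero P hder
      rw [hc, aeval_C, algebraMap_eq, C_eq_zero] at h0
      rw [hc, h0, C_0]
  rw [injective_iff_map_eq_zero]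
  intro P hP
  exact key _ P le_rfl hP

end Jacobian

/-- **Dominance criterion.** A polynomial map over an algebraically closed field of characteristic
zero whose differential is surjective at a point hits, even with the source restricted to the
nonvanishing locus of a nonzero polynomial `h`, every point off some hypersurface `F = 0`. -/
theorem exists_general_mem_range {K : Type*} [Field K] [IsAlgClosed K] [CharZero K]
    {S T : Type*} [Finite S] [Finite T] (Φ : T → MvPolynomial S K) (x : S → K)
    (hsurj : ∀ z : T → K, ∃ v : S → K, ∀ t, (aeval (dpt x v) (Φ t)).snd = z t)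
    (h : MvPolynomial S K) (hh : h ≠ 0) :
    ∃ F : MvPolynomial T K, F ≠ 0 ∧ ∀ y : T → K, eval y F ≠ 0 →
      ∃ x : S → K, eval x h ≠ 0 ∧ ∀ t, eval x (Φ t) = y t :=
  exists_ne_zero_forall_mem_range Φ (injective_aeval_of_surjective_differential Φ x hsurj) h hh

end Pool.Agent.Helper37
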