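import Mathlib
import Pool.Agent.Helper37.Dominant

/-!
# General linear spaces are met by some member of a family of parametrized varieties

The family is `x ↦ g • f(b, x)`, with `g` an `n × n` matrix and `b` four further parameters.
-/

namespace Pool.Agent.Helper37

open MvPolynomial TrivSqZeroExt

/-- Index type for all the unknowns. -/
abbrev Unk (n m : ℕ) (r : Fin m → ℕ) : Type :=
  (Fin n × Fin n) ⊕ (Fin 4 ⊕ ((Fin m × Fin 3) ⊕ ((Σ i : Fin m, Fin (r i)) ⊕
    (Σ i : Fin m, Fin (r i) × Fin n))))

/-- Index type for the coordinates of the spanning vectors of the linear spaces. -/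
abbrev Coord (n m : ℕ) (r : Fin m → ℕ) : Type := Σ i : Fin m, Fin (r i + 1) × Fin n

section

variable {n m : ℕ} {r : Fin m → ℕ}

/-- variable `g j k` -/
abbrev gI (j k : Fin n) : Unk n m r := Sum.inl (j, k)
/-- variable `b l` -/
abbrev bI (l : Fin 4) : Unk n m r := Sum.inr (Sum.inl l)
/-- variable `x i l` -/
abbrev xI (i : Fin m) (l : Fin 3) : Unk n m r := Sum.inr (Sum.inr (Sum.inl (i, l)))
/-- variable `a i l` -/
abbrev aI (i : Fin m) (l : Fin (r i)) : Unk n m r := Sum.inr (Sum.inr (Sum.inr (Sum.inl ⟨i, l⟩)))
/-- variable `w i l j` -/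
abbrev wI (i : Fin m) (l : Fin (r i)) (j : Fin n) : Unk n m r :=
  Sum.inr (Sum.inr (Sum.inr (Sum.inr ⟨i, (l, j)⟩)))

/-- the embedding of the variables `(b, x i)`. -/
def eI (i : Fin m) : Fin 4 ⊕ Fin 3 → Unk n m r := Sum.elim bI (xI i)

lemma eI_injective (i : Fin m) : Function.Injective (eI i : _ → Unk n m r) := by
  rintro (a | a) (b | b) h <;> simp_all [eI]

end

variable {K : Type*} [Field K]

/-- The incidence map. -/
noncomputable def incMap {n m : ℕ} (r : Fin m → ℕ) (f : Fin n → MvPolynomial (Fin 4 ⊕ Fin 3) K) :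
    Coord n m r → MvPolynomial (Unk n m r) K := fun p =>
  Fin.cases (motive := fun _ => MvPolynomial (Unk n m r) K)
    ((∑ k, X (gI p.2.2 k) * rename (eI p.1) (f k)) -
      ∑ l, X (aI p.1 l) * X (wI p.1 l p.2.2))
    (fun l => X (wI p.1 l p.2.2)) p.2.1

lemma incMap_zero {n m : ℕ} (r : Fin m → ℕ) (f : Fin n → MvPolynomial (Fin 4 ⊕ Fin 3) K)
    (i : Fin m) (j : Fin n) : incMap r f ⟨i, (0, j)⟩ =
      (∑ k, X (gI j k) * rename (eI i) (f k)) - ∑ l, X (aI i l) * X (wI i l j) := rfl

lemma incMap_succ {n m : ℕ} (r : Fin m → ℕ) (f : Fin n → MvPolynomial (Fin 4 ⊕ Fin 3) K)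
    (i : Fin m) (l : Fin (r i)) (j : Fin n) : incMap r f ⟨i, (l.succ, j)⟩ = X (wI i l j) := rfl

/-- The infinitesimal condition, in dual form. -/
def InfCond {n m : ℕ} (r : Fin m → ℕ) (f : Fin n → MvPolynomial (Fin 4 ⊕ Fin 3) K)
    (b : Fin 4 → K) (z : Fin m → Fin 3 → K) (u : (i : Fin m) → Fin (r i) → Fin n → K) : Prop :=
  ∀ ψ : Fin m → Fin n → K,
    (∀ j k, ∑ i, ψ i j * eval (Sum.elim b (z i)) (f k) = 0) →
    (∀ l, ∑ i, ∑ j, ψ i j * eval (Sum.elim b (z i)) (pderiv (Sum.inl l) (f j)) = 0) →
    (∀ i l, ∑ j, ψ i j * eval (Sum.elim b (z i)) (pderiv (Sum.inr l) (f j)) = 0) →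
    (∀ i l, ∑ j, ψ i j * u i l j = 0) → ψ = 0

/-- Dualisation: the infinitesimal condition gives solvability of the linearised problem. -/
lemma InfCond.solve {n m : ℕ} {r : Fin m → ℕ} {f : Fin n → MvPolynomial (Fin 4 ⊕ Fin 3) K}
    {b : Fin 4 → K} {z : Fin m → Fin 3 → K} {u : (i : Fin m) → Fin (r i) → Fin n → K}
    (H : InfCond r f b z u) (t : Fin m → Fin n → K) :
    ∃ (dg : Fin n → Fin n → K) (db : Fin 4 → K) (dx : Fin m → Fin 3 → K)
      (da : (i : Fin m) → Fin (r i) → K), ∀ i j,
      (∑ k, dg j k * eval (Sum.elim b (z i)) (f k)) +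
      (∑ l, eval (Sum.elim b (z i)) (pderiv (Sum.inl l) (f j)) * db l +
        ∑ l, eval (Sum.elim b (z i)) (pderiv (Sum.inr l) (f j)) * dx i l) -
      (∑ l, da i l * u i l j) = t i j := by
  classical
  let L : ((Fin n → Fin n → K) × (Fin 4 → K) × (Fin m → Fin 3 → K) × ((i : Fin m) → Fin (r i) → K))
      →ₗ[K] (Fin m → Fin n → K) :=
    { toFun := fun d i j =>
        (∑ k, d.1 j k * eval (Sum.elim b (z i)) (f k)) +
        (∑ l, eval (Sum.elim b (z i)) (pderiv (Sum.inl l) (f j)) * d.2.1 l +
          ∑ l, eval (Sum.elim b (z i)) (pderiv (Sum.inr l) (f j)) * d.2.2.1 i l) -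
        (∑ l, d.2.2.2 i l * u i l j)
      map_add' := by
        intro d e
        ext i j
        simp only [Prod.fst_add, Prod.snd_add, Pi.add_apply, add_mul, mul_add,
          Finset.sum_add_distrib]
        ring
      map_smul' := by
        intro a d
        ext i j
        simp only [Prod.smul_fst, Prod.smul_snd, Pi.smul_apply, smul_eq_mul, RingHom.id_apply,
          mul_add, mul_sub, Finset.mul_sum]
        congr 1
        · congr 1
          · exact Finset.sum_congr rfl fun _ _ => by ring
          · congr 1 <;> exact Finset.sum_congr rfl fun _ _ => by ring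
        · exact Finset.sum_congr rfl fun _ _ => by ring }
  have hL : LinearMap.range L = ⊤ := by
    by_contra hne
    obtain ⟨φ, hφ, hker⟩ := Submodule.exists_le_ker_of_lt_top _ (lt_top_iff_ne_top.mpr hne)
    apply hφ
    let ψ : Fin m → Fin n → K := fun i j => φ (Pi.single i (Pi.single j 1))
    have hsum : ∀ y : Fin m → Fin n → K, φ y = ∑ i, ∑ j, ψ i j * y i j := by
      intro y
      have hy : y = ∑ i, ∑ j, y i j • (Pi.single i (Pi.single j (1 : K)) : Fin m → Fin n → K) := by
        ext i j
        simp only [Finset.sum_apply, Pi.smul_apply, smul_eq_mul]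
        rw [Finset.sum_eq_single i]
        · rw [Finset.sum_eq_single j]
          · simp
          · intro j' _ hj'
            simp [Ne.symm hj']
          · simp
        · intro i' _ hi'
          refine Finset.sum_eq_zero fun j' _ => ?_
          simp [Ne.symm hi']
        · simp
      conv_lhs => rw [hy]
      simp only [map_sum, map_smul, smul_eq_mul]
      exact Finset.sum_congr rfl fun i _ => Finset.sum_congr rfl fun j _ => by
        simp only [ψ]; ring
    have hz : ∀ d, φ (L d) = 0 := fun d => hker (LinearMap.mem_range_self L d)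
    have hψ : ψ = 0 := by
      apply H
      · intro j k
        have := hz (Pi.single j (Pi.single k 1), 0, 0, 0)
        rw [hsum] at this
        rw [← this]
        refine Finset.sum_congr rfl fun i _ => ?_
        rw [Finset.sum_eq_single j]
        · congr 1
          simp only [L, LinearMap.coe_mk, AddHom.coe_mk, Pi.zero_apply, mul_zero, zero_mul,
            Finset.sum_const_zero, add_zero, sub_zero, Pi.single_eq_same]
          rw [Finset.sum_eq_single k]
          · simp
          · intro k' _ hk'
            simp [hk']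
          · simp
        · intro j' _ hj'
          simp [L, hj']
        · simp
      · intro l
        have := hz (0, Pi.single l 1, 0, 0)
        rw [hsum] at this
        rw [← this]
        refine Finset.sum_congr rfl fun i _ => Finset.sum_congr rfl fun j _ => ?_
        congr 1
        simp only [L, LinearMap.coe_mk, AddHom.coe_mk, Pi.zero_apply, mul_zero, zero_mul,
          Finset.sum_const_zero, add_zero, sub_zero, zero_add]
        rw [Finset.sum_eq_single l]
        · simp
        · intro l' _ hl'
          simp [hl']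
        · simp
      · intro i l
        have := hz (0, 0, Pi.single i (Pi.single l 1), 0)
        rw [hsum] at this
        rw [← this, Finset.sum_eq_single i]
        · refine Finset.sum_congr rfl fun j _ => ?_
          congr 1
          simp only [L, LinearMap.coe_mk, AddHom.coe_mk, Pi.zero_apply, mul_zero, zero_mul,
            Finset.sum_const_zero, add_zero, sub_zero, zero_add, Pi.single_eq_same]
          rw [Finset.sum_eq_single l]
          · simp
          · intro l' _ hl'
            simp [hl']
          · simp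
        · intro i' _ hi'
          refine Finset.sum_eq_zero fun j _ => ?_
          simp [L, hi']
        · simp
      · intro i l
        have := hz (0, 0, 0, Pi.single i (Pi.single l (-1)))
        rw [hsum] at this
        rw [← this, Finset.sum_eq_single i]
        · refine Finset.sum_congr rfl fun j _ => ?_
          congr 1
          simp only [L, LinearMap.coe_mk, AddHom.coe_mk, Pi.zero_apply, mul_zero, zero_mul,
            Finset.sum_const_zero, add_zero, zero_add, Pi.single_eq_same]
          rw [Finset.sum_eq_single l]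
          · simp
          · intro l' _ hl'
            simp [hl']
          · simp
        · intro i' _ hi'
          refine Finset.sum_eq_zero fun j _ => ?_
          simp [L, hi']
        · simp
    ext i j
    have := congrFun (congrFun hψ i) j
    simp only [ψ] at this
    simpa using this
  have ht : t ∈ LinearMap.range L := hL ▸ Submodule.mem_top
  obtain ⟨d, hd⟩ := ht
  refine ⟨d.1, d.2.1, d.2.2.1, d.2.2.2, fun i j => ?_⟩
  rw [← hd]
  rfl

lemma snd_aeval_dpt_rename {S' S : Type*} [Fintype S'] (e : S' → S) (x v : S → K)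
    (P : MvPolynomial S' K) :
    (aeval (dpt x v) (rename e P)).snd = ∑ s, eval (x ∘ e) (pderiv s P) * v (e s) := by
  rw [aeval_rename]
  exact snd_aeval_dpt (x ∘ e) (v ∘ e) P

lemma fst_aeval_dpt_rename {S' S : Type*} (e : S' → S) (x v : S → K)
    (P : MvPolynomial S' K) :
    (aeval (dpt x v) (rename e P)).fst = eval (x ∘ e) P := by
  rw [aeval_rename]
  exact fst_aeval_dpt (x ∘ e) (v ∘ e) P

/-- **General members.** If the infinitesimal condition holds at one point, then for general
spanning vectors `w` there is a member of the family, off any prescribed degeneracy loci,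
meeting all the linear spaces spanned by the `w i`. -/
theorem exists_general_member [IsAlgClosed K] [CharZero K] {n m : ℕ} {r : Fin m → ℕ}
    {f : Fin n → MvPolynomial (Fin 4 ⊕ Fin 3) K}
    {b : Fin 4 → K} {z : Fin m → Fin 3 → K} {u : (i : Fin m) → Fin (r i) → Fin n → K}
    (H : InfCond r f b z u) (hB : MvPolynomial (Fin 4) K) (hB0 : hB ≠ 0)
    (hX : MvPolynomial (Fin 4 ⊕ Fin 3) K) (hX0 : hX ≠ 0) :
    ∃ F : MvPolynomial (Coord n m r) K, F ≠ 0 ∧
      ∀ w : (i : Fin m) → Fin (r i + 1) → Fin n → K,
        eval (fun p => w p.1 p.2.1 p.2.2) F ≠ 0 →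
        ∃ (g : Matrix (Fin n) (Fin n) K) (b : Fin 4 → K) (x : Fin m → Fin 3 → K)
          (a : (i : Fin m) → Fin (r i) → K),
          g.det ≠ 0 ∧ eval b hB ≠ 0 ∧ (∀ i, eval (Sum.elim b (x i)) hX ≠ 0) ∧
          ∀ i j, ∑ k, g j k * eval (Sum.elim b (x i)) (f k) =
            w i 0 j + ∑ l, a i l * w i l.succ j := by
  classical
  let x0 : Unk n m r → K := Sum.elim (fun p => (1 : Matrix (Fin n) (Fin n) K) p.1 p.2)
    (Sum.elim b (Sum.elim (fun p => z p.1 p.2) (Sum.elim (fun _ => 0) (fun p => u p.1 p.2.1 p.2.2))))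
  have hx0e : ∀ i, x0 ∘ eI i = Sum.elim b (z i) := by
    intro i
    ext s
    rcases s with s | s <;> rfl
  have hsurj : ∀ t : Coord n m r → K, ∃ v : Unk n m r → K,
      ∀ p, (aeval (dpt x0 v) (incMap r f p)).snd = t p := by
    intro t
    obtain ⟨dg, db, dx, da, hd⟩ := H.solve (fun i j => t ⟨i, (0, j)⟩)
    let v : Unk n m r → K := Sum.elim (fun p => dg p.1 p.2)
      (Sum.elim db (Sum.elim (fun p => dx p.1 p.2) (Sum.elim (fun p => da p.1 p.2)
        (fun p => t ⟨p.1, (p.2.1.succ, p.2.2)⟩))))
    refine ⟨v, ?_⟩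
    rintro ⟨i, k, j⟩
    refine Fin.cases ?_ (fun l => ?_) k
    · rw [incMap_zero]
      simp only [map_sub, map_sum, map_mul, aeval_X, snd_sub, snd_sum, snd_mul, fst_dpt, snd_dpt,
        fst_aeval_dpt_rename, snd_aeval_dpt_rename, hx0e, op_smul_eq_smul, smul_eq_mul]
      rw [← hd i j]
      congr 1
      · rw [Finset.sum_add_distrib, add_comm]
        congr 1
        · refine Finset.sum_congr rfl fun k _ => ?_
          simp only [v, Sum.elim_inl]
          ring
        · rw [Finset.sum_eq_single j]
          · simp only [x0, Sum.elim_inl, Matrix.one_apply_eq, one_mul, Fintype.sum_sum_type]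
            rfl
          · intro k _ hk
            simp [x0, Matrix.one_apply_ne hk.symm]
          · simp
      · refine Finset.sum_congr rfl fun l _ => ?_
        simp only [x0, v, Sum.elim_inl, Sum.elim_inr]
        ring
    · rw [incMap_succ]
      simp [v]
  let G : Matrix (Fin n) (Fin n) (MvPolynomial (Unk n m r) K) := Matrix.of fun j k => X (gI j k)
  have hG : G.det ≠ 0 := by
    intro h0
    have h1 : eval x0 G.det = 1 := by
      rw [RingHom.map_det]
      have : (RingHom.mapMatrix (eval x0)) G = 1 := by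
        ext j k
        simp [G, x0]
      rw [this, Matrix.det_one]
    rw [h0, map_zero] at h1
    exact zero_ne_one h1
  have hbI : Function.Injective (bI : Fin 4 → Unk n m r) := by
    intro a b h
    simpa [bI] using h
  have hBne : rename (bI : Fin 4 → Unk n m r) hB ≠ 0 := by
    intro h0
    exact hB0 (rename_injective _ hbI (h0.trans (map_zero _).symm))
  have hXne : ∀ i : Fin m, rename (eI i : _ → Unk n m r) hX ≠ 0 := by
    intro i h0
    exact hX0 (rename_injective _ (eI_injective i) (h0.trans (map_zero _).symm))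
  have hh : G.det * rename (bI : Fin 4 → Unk n m r) hB *
      ∏ i, rename (eI i : _ → Unk n m r) hX ≠ 0 :=
    mul_ne_zero (mul_ne_zero hG hBne) (Finset.prod_ne_zero_iff.mpr fun i _ => hXne i)
  obtain ⟨F, hF0, hF⟩ := exists_general_mem_range (incMap r f) x0 hsurj _ hh
  refine ⟨F, hF0, fun w hw => ?_⟩
  obtain ⟨y, hy, hyt⟩ := hF _ hw
  rw [map_mul, map_mul, map_prod] at hy
  have hy1 : eval y G.det ≠ 0 := left_ne_zero_of_mul (left_ne_zero_of_mul hy)
  have hy2 : eval y (rename (bI : Fin 4 → Unk n m r) hB) ≠ 0 :=
    right_ne_zero_of_mul (left_ne_zero_of_mul hy)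
  have hy3 : ∀ i, eval y (rename (eI i : _ → Unk n m r) hX) ≠ 0 := fun i =>
    Finset.prod_ne_zero_iff.mp (right_ne_zero_of_mul hy) i (Finset.mem_univ i)
  have hye : ∀ i, y ∘ eI i = Sum.elim (fun l => y (bI l)) (fun l => y (xI i l)) := by
    intro i
    ext s
    rcases s with s | s <;> rfl
  refine ⟨Matrix.of fun j k => y (gI j k), fun l => y (bI l), fun i l => y (xI i l),
    fun i l => y (aI i l), ?_, ?_, ?_, ?_⟩
  · rw [RingHom.map_det] at hy1
    convert! hy1 using 2
    ext j k
    simp [G]
  · rw [eval_rename] at hy2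
    exact hy2
  · intro i
    have := hy3 i
    rwa [eval_rename, hye] at this
  · intro i j
    have h0 := hyt ⟨i, (0, j)⟩
    have hs : ∀ l : Fin (r i), y (wI i l j) = w i l.succ j := by
      intro l
      have := hyt ⟨i, (l.succ, j)⟩
      rw [incMap_succ] at this
      simpa using this
    rw [incMap_zero] at h0
    simp only [map_sub, map_sum, map_mul, eval_X, eval_rename, hye, hs] at h0
    rw [sub_eq_iff_eq_add] at h0
    exact h0

end Pool.Agent.Helper37
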