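import Mathlib

/-!
# Rado's theorem for vector configurations
-/

namespace Pool.Agent.Helper37

open Module

/-- **Rado's theorem** (linear case): finite sets of vectors `A i` have a linearly independent
system of representatives as soon as the union of any `k` of them spans a space of dimension
at least `k`. -/
theorem rado {K V ι : Type*} [Field K] [AddCommGroup V] [Module K V] [FiniteDimensional K V]
    [Fintype ι] (A : ι → Finset V)
    (h : ∀ I : Finset ι, I.card ≤ finrank K (Submodule.span K (⋃ i ∈ I, (A i : Set V)))) :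
    ∃ v : ι → V, (∀ i, v i ∈ A i) ∧ LinearIndependent K v := by
  classical
  induction hN : ∑ i, (A i).card using Nat.strong_induction_on generalizing A with
  | _ N ih =>
  by_cases hcase : ∀ i, (A i).card ≤ 1
  · -- all sets are singletons
    have hne : ∀ i, (A i).Nonempty := by
      intro i
      by_contra hcon
      rw [Finset.not_nonempty_iff_eq_empty] at hcon
      have := h {i}
      simp [hcon] at this
    have hsing : ∀ i, ∃ v, A i = {v} := by
      intro i
      exact Finset.card_eq_one.mp (le_antisymm (hcase i) (hne i).card_pos)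
    choose v hv using hsing
    refine ⟨v, fun i => by simp [hv i], ?_⟩
    rw [linearIndependent_iff_card_le_finrank_span]
    have := h Finset.univ
    rw [Finset.card_univ] at this
    refine this.trans_eq ?_
    have hU : (⋃ i ∈ (Finset.univ : Finset ι), (A i : Set V)) = Set.range v := by
      ext w
      simp only [Finset.mem_univ, Set.iUnion_true, Set.mem_iUnion, hv, Finset.coe_singleton,
        Set.mem_singleton_iff, Set.mem_range, eq_comm]
    rw [hU, Set.finrank]
  · push Not at hcase
    obtain ⟨i, hi⟩ := hcase
    obtain ⟨a, ha, b, hb, hab⟩ := Finset.one_lt_card.mp hi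
    let Aa : ι → Finset V := Function.update A i ((A i).erase a)
    let Ab : ι → Finset V := Function.update A i ((A i).erase b)
    have hsuba : ∀ j, Aa j ⊆ A j := by
      intro j
      by_cases hj : j = i
      · subst hj; simp [Aa, Finset.erase_subset]
      · simp [Aa, hj]
    have hsubb : ∀ j, Ab j ⊆ A j := by
      intro j
      by_cases hj : j = i
      · subst hj; simp [Ab, Finset.erase_subset]
      · simp [Ab, hj]
    have hsuma : ∑ j, (Aa j).card < N := by
      rw [← hN]
      refine Finset.sum_lt_sum (fun j _ => Finset.card_le_card (hsuba j)) ⟨i, Finset.mem_univ _, ?_⟩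
      simp only [Aa, Function.update_self]
      exact Finset.card_erase_lt_of_mem ha
    have hsumb : ∑ j, (Ab j).card < N := by
      rw [← hN]
      refine Finset.sum_lt_sum (fun j _ => Finset.card_le_card (hsubb j)) ⟨i, Finset.mem_univ _, ?_⟩
      simp only [Ab, Function.update_self]
      exact Finset.card_erase_lt_of_mem hb
    by_cases h1 : ∀ I : Finset ι,
        I.card ≤ finrank K (Submodule.span K (⋃ i ∈ I, (Aa i : Set V)))
    · obtain ⟨v, hv, hv2⟩ := ih _ hsuma Aa h1 rfl
      exact ⟨v, fun j => hsuba j (hv j), hv2⟩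
    by_cases h2 : ∀ I : Finset ι,
        I.card ≤ finrank K (Submodule.span K (⋃ i ∈ I, (Ab i : Set V)))
    · obtain ⟨v, hv, hv2⟩ := ih _ hsumb Ab h2 rfl
      exact ⟨v, fun j => hsubb j (hv j), hv2⟩
    exfalso
    push Not at h1 h2
    obtain ⟨I, hI⟩ := h1
    obtain ⟨J, hJ⟩ := h2
    have hiI : i ∈ I := by
      by_contra hcon
      have : (⋃ j ∈ I, (Aa j : Set V)) = ⋃ j ∈ I, (A j : Set V) := by
        refine Set.iUnion₂_congr fun j hj => ?_
        have : j ≠ i := fun h => hcon (h ▸ hj)
        simp [Aa, this]
      rw [this] at hI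
      exact absurd (h I) (not_le.mpr hI)
    have hiJ : i ∈ J := by
      by_contra hcon
      have : (⋃ j ∈ J, (Ab j : Set V)) = ⋃ j ∈ J, (A j : Set V) := by
        refine Set.iUnion₂_congr fun j hj => ?_
        have : j ≠ i := fun h => hcon (h ▸ hj)
        simp [Ab, this]
      rw [this] at hJ
      exact absurd (h J) (not_le.mpr hJ)
    set X := Submodule.span K (⋃ j ∈ I, (Aa j : Set V)) with hX
    set Y := Submodule.span K (⋃ j ∈ J, (Ab j : Set V)) with hY
    have hXa : ∀ j ∈ I, ∀ w ∈ Aa j, w ∈ X := fun j hj w hw =>
      Submodule.subset_span (Set.mem_biUnion hj hw)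
    have hYb : ∀ j ∈ J, ∀ w ∈ Ab j, w ∈ Y := fun j hj w hw =>
      Submodule.subset_span (Set.mem_biUnion hj hw)
    have hsup : Submodule.span K (⋃ j ∈ I ∪ J, (A j : Set V)) ≤ X ⊔ Y := by
      rw [Submodule.span_le]
      intro w hw
      simp only [Set.mem_iUnion] at hw
      obtain ⟨j, hj, hw⟩ := hw
      by_cases hji : j = i
      · subst hji
        by_cases hwa : w = a
        · refine Submodule.mem_sup_right (hYb j hiJ w ?_)
          simp only [Ab, Function.update_self, Finset.mem_erase]
          exact ⟨fun h => hab (hwa.symm.trans h), hw⟩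
        · refine Submodule.mem_sup_left (hXa j hiI w ?_)
          simp only [Aa, Function.update_self, Finset.mem_erase]
          exact ⟨hwa, hw⟩
      · rcases Finset.mem_union.mp hj with hj | hj
        · refine Submodule.mem_sup_left (hXa j hj w ?_)
          simpa [Aa, hji] using hw
        · refine Submodule.mem_sup_right (hYb j hj w ?_)
          simpa [Ab, hji] using hw
    have hinf : Submodule.span K (⋃ j ∈ (I ∩ J).erase i, (A j : Set V)) ≤ X ⊓ Y := by
      rw [Submodule.span_le]
      intro w hw
      simp only [Set.mem_iUnion] at hw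
      obtain ⟨j, hj, hw⟩ := hw
      rw [Finset.mem_erase, Finset.mem_inter] at hj
      obtain ⟨hji, hjI, hjJ⟩ := hj
      exact ⟨hXa j hjI w (by simpa [Aa, hji] using hw), hYb j hjJ w (by simpa [Ab, hji] using hw)⟩
    have e1 := (h (I ∪ J)).trans (Submodule.finrank_mono hsup)
    have e2 := (h ((I ∩ J).erase i)).trans (Submodule.finrank_mono hinf)
    have e3 := Submodule.finrank_sup_add_finrank_inf_eq X Y
    have e4 := Finset.card_union_add_card_inter I J
    have e5 : ((I ∩ J).erase i).card = (I ∩ J).card - 1 :=
      Finset.card_erase_of_mem (Finset.mem_inter.mpr ⟨hiI, hiJ⟩)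
    have e6 : 0 < (I ∩ J).card := Finset.card_pos.mpr ⟨i, Finset.mem_inter.mpr ⟨hiI, hiJ⟩⟩
    omega

end Pool.Agent.Helper37
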