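import Mathlib
import Pool.Agent.Helper37.General
import Pool.Agent.Helper37.Rado

/-!
# From one independent configuration to all `lambda`
-/

namespace Pool.Agent.Helper37

open MvPolynomial Module

/-! ### Semicontinuity of linear independence -/

section SC

variable {K : Type*} [Field K]

lemma exists_right_inverse_of_linearIndependent {J σ : Type*} [Fintype J] [Fintype σ]
    [DecidableEq J] (A : J → σ → K) (hA : LinearIndependent K A) :
    ∃ C : σ → J → K, ∀ j j', ∑ s, A j s * C s j' = (1 : Matrix J J K) j j' := by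
  classical
  -- the linear map `γ ↦ ∑ γ_j A_j` is injective, hence has a left inverse
  let L : (J → K) →ₗ[K] (σ → K) := Fintype.linearCombination K A
  have hL : LinearMap.ker L = ⊥ := by
    rw [LinearMap.ker_eq_bot]
    exact linearIndependent_iff_injective_fintypeLinearCombination.mp hA
  obtain ⟨g, hg⟩ := L.exists_leftInverse_of_injective hL
  refine ⟨fun s j => g (Pi.single s 1) j, fun j j' => ?_⟩
  have h1 : g (L (Pi.single j 1)) = Pi.single j 1 := by
    have := LinearMap.congr_fun hg (Pi.single j 1)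
    simpa using this
  have h2 : L (Pi.single j 1) = A j := by
    simp [L, Fintype.linearCombination_apply_single]
  rw [h2] at h1
  have h3 : A j = ∑ s, A j s • (Pi.single s (1 : K) : σ → K) := by
    ext s
    simp [Finset.sum_apply, Pi.single_apply]
  rw [h3] at h1
  simp only [map_sum, map_smul] at h1
  have h4 := congrFun h1 j'
  simp only [Finset.sum_apply, Pi.smul_apply, smul_eq_mul] at h4
  rw [h4, Matrix.one_apply, Pi.single_apply]
  simp [eq_comm]

lemma linearIndependent_of_right_inverse_det {J σ : Type*} [Fintype J] [Fintype σ]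
    [DecidableEq J] (A : J → σ → K) (C : σ → J → K)
    (h : (Matrix.of fun j j' => ∑ s, A j s * C s j' : Matrix J J K).det ≠ 0) :
    LinearIndependent K A := by
  rw [Fintype.linearIndependent_iff]
  intro γ hγ
  have hv : Matrix.vecMul γ (Matrix.of fun j j' => ∑ s, A j s * C s j' : Matrix J J K) = 0 := by
    ext j'
    simp only [Matrix.vecMul, dotProduct, Matrix.of_apply, Finset.mul_sum, Pi.zero_apply]
    rw [Finset.sum_comm]
    refine Finset.sum_eq_zero fun s _ => ?_
    have := congrFun hγ s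
    simp only [Finset.sum_apply, Pi.smul_apply, smul_eq_mul, Pi.zero_apply] at this
    have h2 := congrArg (fun q => q * C s j') this
    simp only [Finset.sum_mul, zero_mul] at h2
    rw [← h2]
    exact Finset.sum_congr rfl fun j _ => by ring
  have := Matrix.eq_zero_of_vecMul_eq_zero h hv
  exact fun i => congrFun this i

/-- Linear independence of polynomial vectors is an open condition. -/
lemma exists_poly_linearIndependent {J σ τ : Type*} [Fintype J] [Fintype σ]
    (v : J → σ → MvPolynomial τ K) (x0 : τ → K)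
    (h : LinearIndependent K (fun j s => eval x0 (v j s))) :
    ∃ G : MvPolynomial τ K, G ≠ 0 ∧ ∀ x : τ → K, eval x G ≠ 0 →
      LinearIndependent K (fun j s => eval x (v j s)) := by
  classical
  obtain ⟨Cm, hC⟩ := exists_right_inverse_of_linearIndependent _ h
  let M : Matrix J J (MvPolynomial τ K) := Matrix.of fun j j' => ∑ s, v j s * C (Cm s j')
  have hM : ∀ x : τ → K, eval x M.det =
      (Matrix.of fun j j' => ∑ s, eval x (v j s) * Cm s j' : Matrix J J K).det := by
    intro x
    rw [RingHom.map_det]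
    congr 1
    ext j j'
    simp [M]
  refine ⟨M.det, ?_, fun x hx => ?_⟩
  · intro h0
    have h1 := hM x0
    rw [h0, map_zero] at h1
    have h2 : (Matrix.of fun j j' => ∑ s, eval x0 (v j s) * Cm s j' : Matrix J J K) = 1 := by
      ext j j'
      rw [Matrix.of_apply]
      exact hC j j'
    rw [h2, Matrix.det_one] at h1
    exact zero_ne_one h1
  · rw [hM] at hx
    exact linearIndependent_of_right_inverse_det _ Cm hx

end SC

/-! ### The conormal vectors -/

section Beta

/-- 3 by 3 determinant of three row vectors. -/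
def det3 {R : Type*} [CommRing R] (a b c : Fin 3 → R) : R :=
  a 0 * (b 1 * c 2 - b 2 * c 1) - a 1 * (b 0 * c 2 - b 2 * c 0) + a 2 * (b 0 * c 1 - b 1 * c 0)

lemma map_det3 {R R' : Type*} [CommRing R] [CommRing R'] (ψ : R →+* R') (a b c : Fin 3 → R) :
    ψ (det3 a b c) = det3 (fun i => ψ (a i)) (fun i => ψ (b i)) (fun i => ψ (c i)) := by
  simp [det3]

/-- The functional, given by gradient vectors `τ`, that kills the tangent space. -/
def phiVec {R : Type*} [CommRing R] {c : ℕ} (τ : Fin (c + 3) → Fin 3 → R) (κ : Fin c) :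
    Fin (c + 3) → R :=
  Fin.cons (-det3 (τ κ.succ.succ.succ) (τ 1) (τ 2))
    (Fin.cons (-det3 (τ 0) (τ κ.succ.succ.succ) (τ 2))
      (Fin.cons (-det3 (τ 0) (τ 1) (τ κ.succ.succ.succ))
        (fun κ' => if κ' = κ then det3 (τ 0) (τ 1) (τ 2) else 0)))

lemma map_phiVec {R R' : Type*} [CommRing R] [CommRing R'] (ψ : R →+* R') {c : ℕ}
    (τ : Fin (c + 3) → Fin 3 → R) (κ : Fin c) (j : Fin (c + 3)) :
    ψ (phiVec τ κ j) = phiVec (fun j l => ψ (τ j l)) κ j := by
  unfold phiVec
  refine Fin.cases ?_ (fun j => ?_) j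
  · simp only [Fin.cons_zero, map_neg, map_det3]
  refine Fin.cases ?_ (fun j => ?_) j
  · simp only [Fin.cons_zero, Fin.cons_succ, map_neg, map_det3]
  refine Fin.cases ?_ (fun j => ?_) j
  · simp only [Fin.cons_zero, Fin.cons_succ, map_neg, map_det3]
  · simp only [Fin.cons_succ]
    split_ifs
    · rw [map_det3]
    · rw [map_zero]

/-- Cramer's rule: a functional killing the tangent vectors is a combination of the `phiVec`. -/
lemma cramer {K : Type*} [Field K] {c : ℕ} (τ : Fin (c + 3) → Fin 3 → K)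
    (ψ : Fin (c + 3) → K) (h : ∀ l, ∑ j, ψ j * τ j l = 0) (j : Fin (c + 3)) :
    det3 (τ 0) (τ 1) (τ 2) * ψ j = ∑ κ : Fin c, ψ κ.succ.succ.succ * phiVec τ κ j := by
  have h' : ∀ l, ψ 0 * τ 0 l + ψ 1 * τ 1 l + ψ 2 * τ 2 l =
      - ∑ κ : Fin c, ψ κ.succ.succ.succ * τ κ.succ.succ.succ l := by
    intro l
    have := h l
    rw [Fin.sum_univ_succ, Fin.sum_univ_succ, Fin.sum_univ_succ] at this
    have e1 : (Fin.succ 0 : Fin (c + 3)) = 1 := rfl
    have e2 : (Fin.succ (Fin.succ 0) : Fin (c + 3)) = 2 := rfl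
    rw [e1, e2] at this
    linear_combination this
  have h0 := h' 0
  have h1 := h' 1
  have h2 := h' 2
  unfold phiVec
  refine Fin.cases ?_ (fun j => ?_) j
  · simp only [Fin.cons_zero]
    have key : ∑ κ : Fin c, ψ κ.succ.succ.succ * -det3 (τ κ.succ.succ.succ) (τ 1) (τ 2) =
        (-∑ κ : Fin c, ψ κ.succ.succ.succ * τ κ.succ.succ.succ 0) * (τ 1 1 * τ 2 2 - τ 1 2 * τ 2 1)
        - (-∑ κ : Fin c, ψ κ.succ.succ.succ * τ κ.succ.succ.succ 1) *
          (τ 1 0 * τ 2 2 - τ 1 2 * τ 2 0)
        + (-∑ κ : Fin c, ψ κ.succ.succ.succ * τ κ.succ.succ.succ 2) *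
          (τ 1 0 * τ 2 1 - τ 1 1 * τ 2 0) := by
      simp only [← Finset.sum_neg_distrib, Finset.sum_mul, ← Finset.sum_sub_distrib,
        ← Finset.sum_add_distrib, det3]
      exact Finset.sum_congr rfl fun κ _ => by ring
    rw [key, ← h0, ← h1, ← h2, det3]
    ring
  refine Fin.cases ?_ (fun j => ?_) j
  · simp only [Fin.cons_zero, Fin.cons_succ]
    have key : ∑ κ : Fin c, ψ κ.succ.succ.succ * -det3 (τ 0) (τ κ.succ.succ.succ) (τ 2) =
        -(-∑ κ : Fin c, ψ κ.succ.succ.succ * τ κ.succ.succ.succ 0) *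
          (τ 0 1 * τ 2 2 - τ 0 2 * τ 2 1)
        + (-∑ κ : Fin c, ψ κ.succ.succ.succ * τ κ.succ.succ.succ 1) *
          (τ 0 0 * τ 2 2 - τ 0 2 * τ 2 0)
        - (-∑ κ : Fin c, ψ κ.succ.succ.succ * τ κ.succ.succ.succ 2) *
          (τ 0 0 * τ 2 1 - τ 0 1 * τ 2 0) := by
      simp only [← Finset.sum_neg_distrib, Finset.sum_mul, ← Finset.sum_sub_distrib,
        ← Finset.sum_add_distrib, det3]
      exact Finset.sum_congr rfl fun κ _ => by ring
    rw [key, ← h0, ← h1, ← h2, det3]
    have e1 : (Fin.succ 0 : Fin (c + 3)) = 1 := rfl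
    rw [e1]
    ring
  refine Fin.cases ?_ (fun j => ?_) j
  · simp only [Fin.cons_zero, Fin.cons_succ]
    have key : ∑ κ : Fin c, ψ κ.succ.succ.succ * -det3 (τ 0) (τ 1) (τ κ.succ.succ.succ) =
        (-∑ κ : Fin c, ψ κ.succ.succ.succ * τ κ.succ.succ.succ 0) * (τ 0 1 * τ 1 2 - τ 0 2 * τ 1 1)
        - (-∑ κ : Fin c, ψ κ.succ.succ.succ * τ κ.succ.succ.succ 1) *
          (τ 0 0 * τ 1 2 - τ 0 2 * τ 1 0)
        + (-∑ κ : Fin c, ψ κ.succ.succ.succ * τ κ.succ.succ.succ 2) *
          (τ 0 0 * τ 1 1 - τ 0 1 * τ 1 0) := by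
      simp only [← Finset.sum_neg_distrib, Finset.sum_mul, ← Finset.sum_sub_distrib,
        ← Finset.sum_add_distrib, det3]
      exact Finset.sum_congr rfl fun κ _ => by ring
    rw [key, ← h0, ← h1, ← h2, det3]
    have e2 : (Fin.succ (Fin.succ 0) : Fin (c + 3)) = 2 := rfl
    rw [e2]
    ring
  · simp only [Fin.cons_succ]
    rw [Finset.sum_eq_single j]
    · simp [mul_comm]
    · intro b _ hb
      simp [hb.symm]
    · simp

variable {K : Type*} [Field K]

/-- Evaluation at the point `(b, z)` with `z` in a `K`-algebra. -/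
noncomputable def evR {R : Type*} [CommRing R] [Algebra K R] (b : Fin 4 → K) (z : Fin 3 → R) :
    MvPolynomial (Fin 4 ⊕ Fin 3) K →ₐ[K] R :=
  aeval (Sum.elim (fun l => algebraMap K R (b l)) z)

lemma map_evR {R R' : Type*} [CommRing R] [Algebra K R] [CommRing R'] [Algebra K R']
    (ψ : R →ₐ[K] R') (b : Fin 4 → K) (z : Fin 3 → R) (P : MvPolynomial (Fin 4 ⊕ Fin 3) K) :
    ψ (evR b z P) = evR b (fun l => ψ (z l)) P := by
  unfold evR
  rw [← AlgHom.comp_apply, comp_aeval]
  congr 2
  ext s
  rcases s with s | s <;> simp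

lemma evR_self (b : Fin 4 → K) (z : Fin 3 → K) (P : MvPolynomial (Fin 4 ⊕ Fin 3) K) :
    evR b z P = eval (Sum.elim b z) P := rfl

/-- gradient of `f j` in the `x` directions -/
noncomputable def grad {R : Type*} [CommRing R] [Algebra K R] {n : ℕ}
    (f : Fin n → MvPolynomial (Fin 4 ⊕ Fin 3) K) (b : Fin 4 → K) (z : Fin 3 → R)
    (j : Fin n) (l : Fin 3) : R := evR b z (pderiv (Sum.inr l) (f j))

/-- The conormal vectors. -/
noncomputable def beta {R : Type*} [CommRing R] [Algebra K R] {c : ℕ}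
    (f : Fin (c + 3) → MvPolynomial (Fin 4 ⊕ Fin 3) K) (b : Fin 4 → K) (z : Fin 3 → R)
    (κ : Fin c) : (Fin (c + 3) × Fin (c + 3)) ⊕ Fin 4 → R :=
  Sum.elim (fun p => phiVec (grad f b z) κ p.1 * evR b z (f p.2))
    (fun l => ∑ j, phiVec (grad f b z) κ j * evR b z (pderiv (Sum.inl l) (f j)))

lemma map_beta {R R' : Type*} [CommRing R] [Algebra K R] [CommRing R'] [Algebra K R']
    (ψ : R →ₐ[K] R') {c : ℕ}
    (f : Fin (c + 3) → MvPolynomial (Fin 4 ⊕ Fin 3) K) (b : Fin 4 → K) (z : Fin 3 → R)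
    (κ : Fin c) (s : (Fin (c + 3) × Fin (c + 3)) ⊕ Fin 4) :
    ψ (beta f b z κ s) = beta f b (fun l => ψ (z l)) κ s := by
  have hg : (fun (j : Fin (c + 3)) (l : Fin 3) => ψ (grad f b z j l)) =
      grad f b (fun l => ψ (z l)) := by
    ext j l
    simp only [grad, map_evR]
  have hp : ∀ j, ψ (phiVec (grad f b z) κ j) = phiVec (grad f b (fun l => ψ (z l))) κ j := by
    intro j
    rw [← hg]
    exact map_phiVec (ψ : R →+* R') (grad f b z) κ j
  rcases s with s | s
  · simp only [beta, Sum.elim_inl, map_mul, map_evR, hp]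
  · simp only [beta, Sum.elim_inr, map_sum, map_mul, map_evR, hp]

end Beta

/-! ### Points in general position, and all `lambda` -/

section Main

variable {K : Type*} [Field K]

/-- The Jacobian determinant of the first three coordinates. -/
noncomputable def jac3 {R : Type*} [CommRing R] [Algebra K R] {c : ℕ}
    (f : Fin (c + 3) → MvPolynomial (Fin 4 ⊕ Fin 3) K) (b : Fin 4 → K) (z : Fin 3 → R) : R :=
  det3 (grad f b z 0) (grad f b z 1) (grad f b z 2)

lemma map_jac3 {R R' : Type*} [CommRing R] [Algebra K R] [CommRing R'] [Algebra K R']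
    (ψ : R →ₐ[K] R') {c : ℕ}
    (f : Fin (c + 3) → MvPolynomial (Fin 4 ⊕ Fin 3) K) (b : Fin 4 → K) (z : Fin 3 → R) :
    ψ (jac3 f b z) = jac3 f b (fun l => ψ (z l)) := by
  have hg : ∀ j, (fun (l : Fin 3) => ψ (grad f b z j l)) = grad f b (fun l => ψ (z l)) j := by
    intro j
    ext l
    simp only [grad, map_evR]
  unfold jac3
  rw [← hg, ← hg, ← hg]
  exact map_det3 (ψ : R →+* R') _ _ _

/-- The certificate: an explicit independent configuration. -/
structure Cert {c : ℕ} (f : Fin (c + 3) → MvPolynomial (Fin 4 ⊕ Fin 3) K) (D : ℕ)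
    (b : Fin 4 → K) (z0 : ℕ → Fin 3 → K) : Prop where
  hc : 0 < c
  indep : LinearIndependent K
    (fun i : Fin D => beta f b (z0 (i / c)) (⟨i % c, Nat.mod_lt _ hc⟩ : Fin c))
  jac : jac3 f b (z0 0) ≠ 0

lemma exists_eval_ne_zero [Infinite K] {τ : Type*} (G : MvPolynomial τ K) (hG : G ≠ 0) :
    ∃ x : τ → K, eval x G ≠ 0 := by
  by_contra hcon
  push Not at hcon
  exact hG (MvPolynomial.funext fun x => by rw [hcon x, map_zero])

lemma Cert.exists_general_points [Infinite K] {c : ℕ}
    {f : Fin (c + 3) → MvPolynomial (Fin 4 ⊕ Fin 3) K} {D : ℕ}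
    {b : Fin 4 → K} {z0 : ℕ → Fin 3 → K} (h : Cert f D b z0) (m : ℕ) :
    ∃ z : Fin m → Fin 3 → K, (∀ i, jac3 f b (z i) ≠ 0) ∧
      ∀ I : Finset (Fin m), min (c * I.card) D ≤
        finrank K (Submodule.span K (⋃ i ∈ I, Set.range (beta f b (z i)))) := by
  classical
  have hc := h.hc
  -- polynomial vectors for each subset
  have hdiv : ∀ (I : Finset (Fin m)) (i' : Fin (min (c * I.card) D)), (i' : ℕ) / c < I.card := by
    intro I i'
    rw [Nat.div_lt_iff_lt_mul hc]
    exact (lt_of_lt_of_le i'.2 (min_le_left _ _)).trans_eq (mul_comm _ _)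
  let pos : (I : Finset (Fin m)) → Fin (min (c * I.card) D) → Fin m := fun I i' =>
    I.orderEmbOfFin rfl ⟨(i' : ℕ) / c, hdiv I i'⟩
  have hposmem : ∀ I i', pos I i' ∈ I := fun I i' => I.orderEmbOfFin_mem rfl _
  let kap : (I : Finset (Fin m)) → Fin (min (c * I.card) D) → Fin c := fun I i' =>
    ⟨(i' : ℕ) % c, Nat.mod_lt _ hc⟩
  let v : (I : Finset (Fin m)) → Fin (min (c * I.card) D) →
      ((Fin (c + 3) × Fin (c + 3)) ⊕ Fin 4) → MvPolynomial (Fin m × Fin 3) K := fun I i' =>
    beta f b (fun l => X (pos I i', l)) (kap I i')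
  have heval : ∀ (x : Fin m × Fin 3 → K) I i' s, eval x (v I i' s) =
      beta f b (fun l => x (pos I i', l)) (kap I i') s := by
    intro x I i' s
    have := map_beta (aeval x) f b (fun l => (X (pos I i', l) : MvPolynomial (Fin m × Fin 3) K))
      (kap I i') s
    simp only [aeval_X] at this
    exact this
  have hG : ∀ I : Finset (Fin m), ∃ G : MvPolynomial (Fin m × Fin 3) K, G ≠ 0 ∧
      ∀ x : Fin m × Fin 3 → K, eval x G ≠ 0 →
        LinearIndependent K (fun i' s => eval x (v I i' s)) := by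
    intro I
    let idx : Fin m → ℕ := fun i =>
      if hi : i ∈ I then ((I.orderIsoOfFin rfl).symm ⟨i, hi⟩ : Fin I.card) else 0
    have hidx : ∀ i', idx (pos I i') = (i' : ℕ) / c := by
      intro i'
      have hm := hposmem I i'
      simp only [idx, hm, dif_pos]
      have : (⟨pos I i', hm⟩ : I) = I.orderIsoOfFin rfl ⟨(i' : ℕ) / c, hdiv I i'⟩ := rfl
      rw [this, OrderIso.symm_apply_apply]
    refine exists_poly_linearIndependent (v I) (fun p => z0 (idx p.1) p.2) ?_
    have h1 := h.indep.comp (Fin.castLE (min_le_right (c * I.card) D))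
      (Fin.castLE_injective _)
    convert! h1 using 1
    ext i' s
    rw [heval]
    simp only [hidx, Function.comp_apply, kap, Fin.val_castLE]
  choose G hG0 hGx using hG
  let δ : Fin m → MvPolynomial (Fin m × Fin 3) K := fun i => jac3 f b (fun l => X (i, l))
  have hδeval : ∀ (x : Fin m × Fin 3 → K) i, eval x (δ i) = jac3 f b (fun l => x (i, l)) := by
    intro x i
    have := map_jac3 (aeval x) f b (fun l => (X (i, l) : MvPolynomial (Fin m × Fin 3) K))
    simp only [aeval_X] at this
    exact this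
  have hδ : ∀ i, δ i ≠ 0 := by
    intro i h0
    have := hδeval (fun p => z0 0 p.2) i
    rw [h0, map_zero] at this
    exact h.jac this.symm
  have hprod : (∏ I, G I) * ∏ i, δ i ≠ 0 :=
    mul_ne_zero (Finset.prod_ne_zero_iff.mpr fun I _ => hG0 I)
      (Finset.prod_ne_zero_iff.mpr fun i _ => hδ i)
  obtain ⟨x, hx⟩ := exists_eval_ne_zero _ hprod
  rw [map_mul, map_prod, map_prod] at hx
  have hx1 := Finset.prod_ne_zero_iff.mp (left_ne_zero_of_mul hx)
  have hx2 := Finset.prod_ne_zero_iff.mp (right_ne_zero_of_mul hx)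
  refine ⟨fun i l => x (i, l), fun i => ?_, fun I => ?_⟩
  · have := hx2 i (Finset.mem_univ i)
    rwa [hδeval] at this
  · have hli := hGx I x (hx1 I (Finset.mem_univ I))
    have hcard := finrank_span_eq_card hli
    rw [Fintype.card_fin] at hcard
    rw [← hcard]
    apply Submodule.finrank_mono
    apply Submodule.span_mono
    rintro _ ⟨i', rfl⟩
    simp only [Set.mem_iUnion]
    refine ⟨pos I i', hposmem I i', kap I i', ?_⟩
    ext s
    rw [heval]

/-- **All `lambda` at once**: from the certificate, for every `lambda` with `lambda i ≤ c` and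
`∑ lambda i = D` there is a point where the infinitesimal condition holds. -/
theorem Cert.exists_infCond [Infinite K] {c : ℕ}
    {f : Fin (c + 3) → MvPolynomial (Fin 4 ⊕ Fin 3) K} {D : ℕ}
    {b : Fin 4 → K} {z0 : ℕ → Fin 3 → K} (h : Cert f D b z0) {m : ℕ} (lam : Fin m → ℕ)
    (hlam : ∀ i, lam i ≤ c) (hsum : ∑ i, lam i = D) :
    ∃ (z : Fin m → Fin 3 → K) (u : (i : Fin m) → Fin (c - lam i) → Fin (c + 3) → K),
      InfCond (fun i => c - lam i) f b z u := by
  classical
  obtain ⟨z, hz1, hz2⟩ := h.exists_general_points m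
  -- Rado
  let A : (Σ i : Fin m, Fin (lam i)) → Finset (((Fin (c + 3) × Fin (c + 3)) ⊕ Fin 4) → K) :=
    fun p => Finset.univ.image (beta f b (z p.1))
  have hA : ∀ J : Finset (Σ i : Fin m, Fin (lam i)), J.card ≤
      finrank K (Submodule.span K (⋃ p ∈ J,
        (A p : Set (((Fin (c + 3) × Fin (c + 3)) ⊕ Fin 4) → K)))) := by
    intro J
    let I := J.image Sigma.fst
    have hcard : J.card ≤ ∑ i ∈ I, lam i := by
      have : J ⊆ I.sigma (fun i => (Finset.univ : Finset (Fin (lam i)))) := by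
        intro p hp
        rw [Finset.mem_sigma]
        exact ⟨Finset.mem_image_of_mem _ hp, Finset.mem_univ _⟩
      refine (Finset.card_le_card this).trans_eq ?_
      rw [Finset.card_sigma]
      simp
    have h1 : ∑ i ∈ I, lam i ≤ c * I.card := by
      refine (Finset.sum_le_sum fun i _ => hlam i).trans_eq ?_
      rw [Finset.sum_const, smul_eq_mul, mul_comm]
    have h2 : ∑ i ∈ I, lam i ≤ D := by
      rw [← hsum]
      exact Finset.sum_le_sum_of_subset (Finset.subset_univ _)
    have hU : (⋃ i ∈ I, Set.range (beta f b (z i))) =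
        ⋃ p ∈ J, (A p : Set (((Fin (c + 3) × Fin (c + 3)) ⊕ Fin 4) → K)) := by
      ext w
      simp only [Set.mem_iUnion, A, Finset.coe_image, Finset.coe_univ, Set.image_univ, I,
        Finset.mem_image, exists_prop]
      constructor
      · rintro ⟨i, ⟨p, hp, rfl⟩, hw⟩
        exact ⟨p, hp, hw⟩
      · rintro ⟨p, hp, hw⟩
        exact ⟨p.1, ⟨p, hp, rfl⟩, hw⟩
    have h3 := hz2 I
    rw [hU] at h3
    exact hcard.trans ((le_min h1 h2).trans h3)
  obtain ⟨v, hvA, hvli⟩ := rado A hA
  have hv' : ∀ p, ∃ κ : Fin c, beta f b (z p.1) κ = v p := by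
    intro p
    have := hvA p
    simp only [A, Finset.mem_image, Finset.mem_univ, true_and] at this
    exact this
  choose κ hκ using hv'
  have hκinj : ∀ i (j j' : Fin (lam i)), κ ⟨i, j⟩ = κ ⟨i, j'⟩ → j = j' := by
    intro i j j' hjj
    have h1 : v ⟨i, j⟩ = v ⟨i, j'⟩ := by
      rw [← hκ, ← hκ, hjj]
    have := hvli.injective h1
    simpa using this
  -- the complementary indices
  let S : (i : Fin m) → Finset (Fin c) := fun i => Finset.univ \ Finset.univ.image (fun j => κ ⟨i, j⟩)
  have hS : ∀ i, (S i).card = c - lam i := by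
    intro i
    rw [Finset.card_univ_sdiff, Fintype.card_fin, Finset.card_image_of_injective, Finset.card_univ,
      Fintype.card_fin]
    exact fun j j' hjj => hκinj i j j' hjj
  let e : (i : Fin m) → Fin (c - lam i) → Fin c := fun i => (S i).orderEmbOfFin (hS i)
  have he : ∀ i (κ' : Fin c), (∀ j, κ ⟨i, j⟩ ≠ κ') → ∃ l, e i l = κ' := by
    intro i κ' hκ'
    have hmem : κ' ∈ S i := by
      simp only [S, Finset.mem_sdiff, Finset.mem_univ, Finset.mem_image, true_and, not_exists]
      exact hκ'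
    have : κ' ∈ Set.range (e i) := by
      rw [Finset.range_orderEmbOfFin]
      exact hmem
    exact this
  refine ⟨z, fun i l => Pi.single (e i l).succ.succ.succ 1, ?_⟩
  intro ψ h1 h2 h3 h4
  -- coordinates of ψ
  have hzero : ∀ i (κ' : Fin c), (∀ j, κ ⟨i, j⟩ ≠ κ') → ψ i κ'.succ.succ.succ = 0 := by
    intro i κ' hκ'
    obtain ⟨l, hl⟩ := he i κ' hκ'
    have := h4 i l
    simpa [Pi.single_apply, hl] using this
  let γ : (Σ i : Fin m, Fin (lam i)) → K := fun p =>
    ψ p.1 (κ p).succ.succ.succ / jac3 f b (z p.1)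
  have hψ : ∀ i j, ψ i j = ∑ j' : Fin (lam i), γ ⟨i, j'⟩ * phiVec (grad f b (z i)) (κ ⟨i, j'⟩) j := by
    intro i j
    have hcr := cramer (grad f b (z i)) (ψ i) (fun l => h3 i l) j
    have hj : jac3 f b (z i) ≠ 0 := hz1 i
    have hsub : ∑ κ' : Fin c, ψ i κ'.succ.succ.succ * phiVec (grad f b (z i)) κ' j =
        ∑ j' : Fin (lam i), ψ i (κ ⟨i, j'⟩).succ.succ.succ *
          phiVec (grad f b (z i)) (κ ⟨i, j'⟩) j := by
      rw [← Finset.sum_image (s := (Finset.univ : Finset (Fin (lam i))))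
        (g := fun j' => κ ⟨i, j'⟩)
        (f := fun κ' => ψ i κ'.succ.succ.succ * phiVec (grad f b (z i)) κ' j)]
      · symm
        refine Finset.sum_subset (Finset.subset_univ _) fun κ' _ hκ' => ?_
        rw [hzero i κ', zero_mul]
        intro j' hj'
        exact hκ' (Finset.mem_image.mpr ⟨j', Finset.mem_univ _, hj'⟩)
      · intro a _ a' _ haa
        exact hκinj i a a' haa
    rw [hsub] at hcr
    have hcr' : jac3 f b (z i) * ψ i j = ∑ j' : Fin (lam i), ψ i (κ ⟨i, j'⟩).succ.succ.succ *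
          phiVec (grad f b (z i)) (κ ⟨i, j'⟩) j := hcr
    simp only [γ, div_mul_eq_mul_div]
    rw [← Finset.sum_div, ← hcr', mul_div_cancel_left₀ _ hj]
  have hγ : ∑ p, γ p • v p = 0 := by
    ext s
    simp only [Finset.sum_apply, Pi.smul_apply, smul_eq_mul, Pi.zero_apply, ← hκ]
    rw [Fintype.sum_sigma]
    rcases s with ⟨j, k⟩ | l
    · rw [← h1 j k]
      refine Finset.sum_congr rfl fun i _ => ?_
      rw [hψ i j, Finset.sum_mul]
      refine Finset.sum_congr rfl fun j' _ => ?_
      simp only [beta, Sum.elim_inl, evR_self]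
      ring
    · rw [← h2 l]
      refine Finset.sum_congr rfl fun i _ => ?_
      simp only [hψ i, Finset.sum_mul]
      rw [Finset.sum_comm]
      refine Finset.sum_congr rfl fun j' _ => ?_
      simp only [beta, Sum.elim_inr, evR_self, Finset.mul_sum]
      exact Finset.sum_congr rfl fun _ _ => by ring
  have hγ0 := Fintype.linearIndependent_iff.mp hvli γ hγ
  ext i j
  rw [hψ i j]
  refine Finset.sum_eq_zero fun j' _ => ?_
  rw [hγ0, zero_mul]

end Main

end Pool.Agent.Helper37
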