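import Mathlib
import Pool.Agent.Helper37.Position

/-!
# Kernel-checkable certificates
-/

namespace Pool.Agent.Helper37

open MvPolynomial

/-- An integer monomial in `b0, b1, b2, b3, x0, x1, x2`. -/
structure Trm where
  c : ℤ
  a0 : ℕ
  a1 : ℕ
  a2 : ℕ
  a3 : ℕ
  e0 : ℕ
  e1 : ℕ
  e2 : ℕ

/-- An integer point. -/
structure Pt where
  b0 : ℤ
  b1 : ℤ
  b2 : ℤ
  b3 : ℤ
  x0 : ℤ
  x1 : ℤ
  x2 : ℤ

/-- evaluation of a monomial -/
def Trm.ev (v : Pt) (t : Trm) : ℤ :=
  t.c * (v.b0 ^ t.a0 * v.b1 ^ t.a1 * v.b2 ^ t.a2 * v.b3 ^ t.a3 *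
    (v.x0 ^ t.e0 * v.x1 ^ t.e1 * v.x2 ^ t.e2))

/-- derivative of a monomial in the `x` directions -/
def Trm.dx (t : Trm) (l : Fin 3) : Trm :=
  match l with
  | 0 => { t with c := t.c * t.e0, e0 := t.e0 - 1 }
  | 1 => { t with c := t.c * t.e1, e1 := t.e1 - 1 }
  | 2 => { t with c := t.c * t.e2, e2 := t.e2 - 1 }

/-- derivative of a monomial in the `b` directions -/
def Trm.db (t : Trm) (l : Fin 4) : Trm :=
  match l with
  | 0 => { t with c := t.c * t.a0, a0 := t.a0 - 1 }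
  | 1 => { t with c := t.c * t.a1, a1 := t.a1 - 1 }
  | 2 => { t with c := t.c * t.a2, a2 := t.a2 - 1 }
  | 3 => { t with c := t.c * t.a3, a3 := t.a3 - 1 }

/-- evaluation of a polynomial -/
def evP (v : Pt) : List Trm → ℤ
  | [] => 0
  | t :: ts => t.ev v + evP v ts

/-- the polynomial of a list of monomials -/
noncomputable def Trm.mv (K : Type*) [Field K] (t : Trm) : MvPolynomial (Fin 4 ⊕ Fin 3) K :=
  C (t.c : K) * (X (Sum.inl 0) ^ t.a0 * X (Sum.inl 1) ^ t.a1 * X (Sum.inl 2) ^ t.a2 *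
    X (Sum.inl 3) ^ t.a3 * (X (Sum.inr 0) ^ t.e0 * X (Sum.inr 1) ^ t.e1 * X (Sum.inr 2) ^ t.e2))

/-- the polynomial of a list of monomials -/
noncomputable def mvP (K : Type*) [Field K] : List Trm → MvPolynomial (Fin 4 ⊕ Fin 3) K
  | [] => 0
  | t :: ts => t.mv K + mvP K ts

/-- the parameter part of a point -/
def Pt.bK (K : Type*) [Field K] (v : Pt) : Fin 4 → K := ![v.b0, v.b1, v.b2, v.b3]

/-- the coordinate part of a point -/
def Pt.xK (K : Type*) [Field K] (v : Pt) : Fin 3 → K := ![v.x0, v.x1, v.x2]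

section sound

variable {K : Type*} [Field K]

lemma eval_mv (v : Pt) (t : Trm) :
    eval (Sum.elim (v.bK K) (v.xK K)) (t.mv K) = (t.ev v : K) := by
  simp [Trm.mv, Trm.ev, Pt.bK, Pt.xK]

lemma eval_mvP (v : Pt) (p : List Trm) :
    eval (Sum.elim (v.bK K) (v.xK K)) (mvP K p) = (evP v p : K) := by
  induction p with
  | nil => simp [mvP, evP]
  | cons t ts ih => simp [mvP, evP, ih, eval_mv]

lemma pderiv_inr_mv (t : Trm) (l : Fin 3) : pderiv (Sum.inr l) (t.mv K) = (t.dx l).mv K := by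
  classical
  fin_cases l
  · simp only [Trm.mv, Trm.dx, pderiv_mul, pderiv_C, pderiv_pow, pderiv_X, Pi.single_apply]
    simp
    ring
  · simp only [Trm.mv, Trm.dx, pderiv_mul, pderiv_C, pderiv_pow, pderiv_X, Pi.single_apply]
    simp
    ring
  · simp only [Trm.mv, Trm.dx, pderiv_mul, pderiv_C, pderiv_pow, pderiv_X, Pi.single_apply]
    simp
    ring

lemma pderiv_inl_mv (t : Trm) (l : Fin 4) : pderiv (Sum.inl l) (t.mv K) = (t.db l).mv K := by
  classical
  fin_cases l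
  · simp only [Trm.mv, Trm.db, pderiv_mul, pderiv_C, pderiv_pow, pderiv_X, Pi.single_apply]
    simp
    ring
  · simp only [Trm.mv, Trm.db, pderiv_mul, pderiv_C, pderiv_pow, pderiv_X, Pi.single_apply]
    simp
    ring
  · simp only [Trm.mv, Trm.db, pderiv_mul, pderiv_C, pderiv_pow, pderiv_X, Pi.single_apply]
    simp
    ring
  · simp only [Trm.mv, Trm.db, pderiv_mul, pderiv_C, pderiv_pow, pderiv_X, Pi.single_apply]
    simp
    ring

lemma pderiv_inr_mvP (p : List Trm) (l : Fin 3) :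
    pderiv (Sum.inr l) (mvP K p) = mvP K (p.map (Trm.dx · l)) := by
  induction p with
  | nil => simp [mvP]
  | cons t ts ih => simp [mvP, ih, pderiv_inr_mv]

lemma pderiv_inl_mvP (p : List Trm) (l : Fin 4) :
    pderiv (Sum.inl l) (mvP K p) = mvP K (p.map (Trm.db · l)) := by
  induction p with
  | nil => simp [mvP]
  | cons t ts ih => simp [mvP, ih, pderiv_inl_mv]

end sound

/-! ### The certificate data -/

/-- Data attached to a point: values, Jacobian, conormal coefficients (all modulo `p`). -/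
structure PtData where
  F : List ℕ
  J : ℕ
  ph : List (ℕ × ℕ × ℕ × List ℕ)

/-- A column of the inverse matrix. -/
abbrev Col := List (List ℕ) × List ℕ

/-- residue -/
def res (p : ℕ) (x : ℤ) : ℕ := (x % p).toNat

/-- dot product of lists -/
def dotN (as : List ℕ) : List ℕ → ℕ :=
  List.rec (fun _ => 0) (fun a _ ih bs => List.rec 0 (fun b bs _ => a * b + ih bs) bs) as

/-- integer gradient -/
def gradZ {n : ℕ} (fs : Fin n → List Trm) (v : Pt) (j : Fin n) (l : Fin 3) : ℤ :=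
  evP v ((fs j).map (Trm.dx · l))

/-- integer parameter derivative -/
def dbZ {n : ℕ} (fs : Fin n → List Trm) (v : Pt) (j : Fin n) (l : Fin 4) : ℤ :=
  evP v ((fs j).map (Trm.db · l))

/-- The data attached to a point is correct. -/
def CheckA (p : ℕ) {c : ℕ} (fs : Fin (c + 3) → List Trm) (v : Pt) (d : PtData) : Prop :=
  d.F.length ≤ c + 3 ∧ (∀ a : Fin (c + 3), d.F.getD a 0 = res p (evP v (fs a))) ∧
  d.J = res p (det3 (gradZ fs v 0) (gradZ fs v 1) (gradZ fs v 2)) ∧
  ∀ κ : Fin c,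
    (d.ph.getD κ default).1 =
      res p (-det3 (gradZ fs v κ.succ.succ.succ) (gradZ fs v 1) (gradZ fs v 2)) ∧
    (d.ph.getD κ default).2.1 =
      res p (-det3 (gradZ fs v 0) (gradZ fs v κ.succ.succ.succ) (gradZ fs v 2)) ∧
    (d.ph.getD κ default).2.2.1 =
      res p (-det3 (gradZ fs v 0) (gradZ fs v 1) (gradZ fs v κ.succ.succ.succ)) ∧
    (d.ph.getD κ default).2.2.2.length ≤ 4 ∧
    ∀ l : Fin 4, (d.ph.getD κ default).2.2.2.getD l 0 = res p
      (-det3 (gradZ fs v κ.succ.succ.succ) (gradZ fs v 1) (gradZ fs v 2) * dbZ fs v 0 l +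
       -det3 (gradZ fs v 0) (gradZ fs v κ.succ.succ.succ) (gradZ fs v 2) * dbZ fs v 1 l +
       -det3 (gradZ fs v 0) (gradZ fs v 1) (gradZ fs v κ.succ.succ.succ) * dbZ fs v 2 l +
       det3 (gradZ fs v 0) (gradZ fs v 1) (gradZ fs v 2) * dbZ fs v κ.succ.succ.succ l)

instance (p : ℕ) {c : ℕ} (fs : Fin (c + 3) → List Trm) (v : Pt) (d : PtData) :
    Decidable (CheckA p fs v d) := by
  unfold CheckA
  infer_instance

/-- an entry of the product matrix -/
def entryN (p c : ℕ) (data : List PtData) (col : Col) (i : ℕ) : ℕ :=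
  (((data.getD (i / c) ⟨[], 0, []⟩).ph.getD (i % c) default).1 *
      dotN (data.getD (i / c) ⟨[], 0, []⟩).F (col.1.getD 0 []) +
    ((data.getD (i / c) ⟨[], 0, []⟩).ph.getD (i % c) default).2.1 *
      dotN (data.getD (i / c) ⟨[], 0, []⟩).F (col.1.getD 1 []) +
    ((data.getD (i / c) ⟨[], 0, []⟩).ph.getD (i % c) default).2.2.1 *
      dotN (data.getD (i / c) ⟨[], 0, []⟩).F (col.1.getD 2 []) +
    (data.getD (i / c) ⟨[], 0, []⟩).J *
      dotN (data.getD (i / c) ⟨[], 0, []⟩).F (col.1.getD (i % c + 3) []) +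
    dotN ((data.getD (i / c) ⟨[], 0, []⟩).ph.getD (i % c) default).2.2.2 col.2) % p

/-- The product matrix is the identity modulo `p`. -/
def CheckB (p c D : ℕ) (data : List PtData) (B : List Col) : Prop :=
  ∀ j : Fin D, ∀ i : Fin D, entryN p c data (B.getD j ([], [])) i = if i = j then 1 else 0

instance (p c D : ℕ) (data : List PtData) (B : List Col) : Decidable (CheckB p c D data B) := by
  unfold CheckB
  infer_instance

/-! ### Soundness -/

lemma dotN_nil (bs : List ℕ) : dotN [] bs = 0 := rfl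
lemma dotN_cons_nil (a : ℕ) (as : List ℕ) : dotN (a :: as) [] = 0 := rfl
lemma dotN_cons_cons (a b : ℕ) (as bs : List ℕ) :
    dotN (a :: as) (b :: bs) = a * b + dotN as bs := rfl

lemma dotN_eq (as bs : List ℕ) (n : ℕ) (h : as.length ≤ n) :
    dotN as bs = ∑ k : Fin n, as.getD k 0 * bs.getD k 0 := by
  induction as generalizing bs n with
  | nil => simp [dotN_nil]
  | cons a as ih =>
    cases bs with
    | nil => simp [dotN_cons_nil]
    | cons b bs =>
      cases n with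
      | zero => simp at h
      | succ n =>
        rw [Fin.sum_univ_succ, dotN_cons_cons, ih bs n (by simpa using h)]
        simp

lemma res_cast (p : ℕ) [NeZero p] (x : ℤ) : ((res p x : ℕ) : ZMod p) = (x : ZMod p) := by
  unfold res
  have hp : (p : ℤ) ≠ 0 := by exact_mod_cast NeZero.ne p
  have h1 : ((x % p).toNat : ℤ) = x % p := Int.toNat_of_nonneg (Int.emod_nonneg _ hp)
  have h2 : (((x % p).toNat : ℤ) : ZMod p) = ((x % p : ℤ) : ZMod p) := by rw [h1]
  rw [Int.cast_natCast] at h2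
  rw [h2, ZMod.intCast_mod]

/-- integer conormal vector -/
def betaZ {c : ℕ} (fs : Fin (c + 3) → List Trm) (v : Pt) (κ : Fin c) :
    (Fin (c + 3) × Fin (c + 3)) ⊕ Fin 4 → ℤ :=
  Sum.elim (fun p => phiVec (gradZ fs v) κ p.1 * evP v (fs p.2))
    (fun l => ∑ j, phiVec (gradZ fs v) κ j * dbZ fs v j l)

section

variable {K : Type*} [Field K]

lemma grad_eq_gradZ {n : ℕ} (fs : Fin n → List Trm) (v : Pt) :
    grad (fun j => mvP K (fs j)) (v.bK K) (v.xK K) = fun j l => ((gradZ fs v j l : ℤ) : K) := by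
  ext j l
  simp only [grad, evR_self, pderiv_inr_mvP, eval_mvP, gradZ]

lemma beta_eq_betaZ {c : ℕ} (fs : Fin (c + 3) → List Trm) (v : Pt) (κ : Fin c)
    (s : (Fin (c + 3) × Fin (c + 3)) ⊕ Fin 4) :
    beta (fun j => mvP K (fs j)) (v.bK K) (v.xK K) κ s = ((betaZ fs v κ s : ℤ) : K) := by
  have hphi : ∀ j, phiVec (grad (fun j => mvP K (fs j)) (v.bK K) (v.xK K)) κ j =
      ((phiVec (gradZ fs v) κ j : ℤ) : K) := by
    intro j
    rw [grad_eq_gradZ]
    exact (map_phiVec (Int.castRingHom K) (gradZ fs v) κ j).symm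
  rcases s with s | l
  · simp only [beta, betaZ, Sum.elim_inl, hphi, evR_self, eval_mvP, Int.cast_mul]
  · simp only [beta, betaZ, Sum.elim_inr, hphi, evR_self, pderiv_inl_mvP, eval_mvP, Int.cast_mul,
      Int.cast_sum, dbZ]

/-- the columns as integer vectors -/
def colZ {n : ℕ} (col : Col) : (Fin n × Fin n) ⊕ Fin 4 → ℤ :=
  Sum.elim (fun p => (((col.1.getD p.1 []).getD p.2 0 : ℕ) : ℤ)) (fun l => ((col.2.getD l 0 : ℕ) : ℤ))

lemma sum_phiVec {R : Type*} [CommRing R] {c : ℕ} (τ : Fin (c + 3) → Fin 3 → R) (κ : Fin c)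
    (Y : Fin (c + 3) → R) :
    ∑ a, phiVec τ κ a * Y a = -det3 (τ κ.succ.succ.succ) (τ 1) (τ 2) * Y 0 +
      -det3 (τ 0) (τ κ.succ.succ.succ) (τ 2) * Y 1 +
      -det3 (τ 0) (τ 1) (τ κ.succ.succ.succ) * Y 2 +
      det3 (τ 0) (τ 1) (τ 2) * Y κ.succ.succ.succ := by
  rw [Fin.sum_univ_succ, Fin.sum_univ_succ, Fin.sum_univ_succ]
  have e1 : (Fin.succ 0 : Fin (c + 3)) = 1 := rfl
  have e2 : (Fin.succ (Fin.succ 0) : Fin (c + 3)) = 2 := rfl
  have hs : ∑ i : Fin c, phiVec τ κ i.succ.succ.succ * Y i.succ.succ.succ =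
      det3 (τ 0) (τ 1) (τ 2) * Y κ.succ.succ.succ := by
    rw [Finset.sum_eq_single κ]
    · simp [phiVec]
    · intro b _ hb
      simp [phiVec, hb]
    · simp
  rw [hs]
  simp only [phiVec, Fin.cons_zero, Fin.cons_succ]
  rw [e1, e2]
  ring

lemma entry_sound (p : ℕ) [NeZero p] {c : ℕ} (fs : Fin (c + 3) → List Trm) (v : Pt) (d : PtData)
    (h : CheckA p fs v d) (col : Col) (κ : Fin c) :
    ((∑ s, betaZ fs v κ s * colZ col s : ℤ) : ZMod p) =
      (((d.ph.getD κ default).1 * dotN d.F (col.1.getD 0 []) +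
        (d.ph.getD κ default).2.1 * dotN d.F (col.1.getD 1 []) +
        (d.ph.getD κ default).2.2.1 * dotN d.F (col.1.getD 2 []) +
        d.J * dotN d.F (col.1.getD (κ + 3) []) +
        dotN (d.ph.getD κ default).2.2.2 col.2 : ℕ) : ZMod p) := by
  obtain ⟨hF, hFv, hJ, hph⟩ := h
  obtain ⟨h0, h1, h2, h3, h4⟩ := hph κ
  have hdot : ∀ a : ℕ, ((dotN d.F (col.1.getD a []) : ℕ) : ZMod p) =
      ∑ k : Fin (c + 3), ((evP v (fs k) : ℤ) : ZMod p) * (((col.1.getD a []).getD k 0 : ℕ) : ZMod p) := by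
    intro a
    rw [dotN_eq _ _ _ hF]
    push_cast
    refine Finset.sum_congr rfl fun k _ => ?_
    rw [hFv k, res_cast]
  rw [Fintype.sum_sum_type, Fintype.sum_prod_type]
  simp only [betaZ, colZ, Sum.elim_inl, Sum.elim_inr]
  have hs1 : ∑ a : Fin (c + 3), ∑ k : Fin (c + 3), phiVec (gradZ fs v) κ a * evP v (fs k) *
      (((col.1.getD a []).getD k 0 : ℕ) : ℤ) =
      ∑ a : Fin (c + 3), phiVec (gradZ fs v) κ a *
        ∑ k : Fin (c + 3), evP v (fs k) * (((col.1.getD a []).getD k 0 : ℕ) : ℤ) := by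
    refine Finset.sum_congr rfl fun a _ => ?_
    rw [Finset.mul_sum]
    exact Finset.sum_congr rfl fun k _ => by ring
  rw [hs1, sum_phiVec]
  have hs2 : ∑ l : Fin 4, (∑ j, phiVec (gradZ fs v) κ j * dbZ fs v j l) *
      ((col.2.getD l 0 : ℕ) : ℤ) = ∑ l : Fin 4,
      (-det3 (gradZ fs v κ.succ.succ.succ) (gradZ fs v 1) (gradZ fs v 2) * dbZ fs v 0 l +
       -det3 (gradZ fs v 0) (gradZ fs v κ.succ.succ.succ) (gradZ fs v 2) * dbZ fs v 1 l +
       -det3 (gradZ fs v 0) (gradZ fs v 1) (gradZ fs v κ.succ.succ.succ) * dbZ fs v 2 l +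
       det3 (gradZ fs v 0) (gradZ fs v 1) (gradZ fs v 2) * dbZ fs v κ.succ.succ.succ l) *
      ((col.2.getD l 0 : ℕ) : ℤ) := by
    refine Finset.sum_congr rfl fun l _ => ?_
    rw [sum_phiVec]
  rw [hs2]
  have hdb : ((dotN (d.ph.getD κ default).2.2.2 col.2 : ℕ) : ZMod p) = ∑ l : Fin 4,
      ((-det3 (gradZ fs v κ.succ.succ.succ) (gradZ fs v 1) (gradZ fs v 2) * dbZ fs v 0 l +
       -det3 (gradZ fs v 0) (gradZ fs v κ.succ.succ.succ) (gradZ fs v 2) * dbZ fs v 1 l +
       -det3 (gradZ fs v 0) (gradZ fs v 1) (gradZ fs v κ.succ.succ.succ) * dbZ fs v 2 l +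
       det3 (gradZ fs v 0) (gradZ fs v 1) (gradZ fs v 2) * dbZ fs v κ.succ.succ.succ l : ℤ)
         : ZMod p) * ((col.2.getD l 0 : ℕ) : ZMod p) := by
    rw [dotN_eq _ _ _ h3]
    push_cast
    refine Finset.sum_congr rfl fun l _ => ?_
    rw [h4 l, res_cast]
    push_cast
    rfl
  rw [Nat.cast_add, hdb, Nat.cast_add, Nat.cast_add, Nat.cast_add, Nat.cast_mul, Nat.cast_mul,
    Nat.cast_mul, Nat.cast_mul, h0, h1, h2, hJ, res_cast, res_cast, res_cast, res_cast,
    hdot, hdot, hdot, hdot]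
  push_cast
  rfl

/-- **Soundness of certificates.** -/
theorem cert_of_check [CharZero K] (p : ℕ) (hp : 1 < p) {c : ℕ} (hc : 0 < c)
    (fs : Fin (c + 3) → List Trm) (D : ℕ) (data : List PtData) (B : List Col)
    (pts : ℕ → Pt) (b : Fin 4 → K) (hb : ∀ k, (pts k).bK K = b)
    (hA : ∀ k, k * c < D → CheckA p fs (pts k) (data.getD k ⟨[], 0, []⟩))
    (hB : CheckB p c D data B)
    (hjac : det3 (gradZ fs (pts 0) 0) (gradZ fs (pts 0) 1) (gradZ fs (pts 0) 2) ≠ 0) :
    Cert (fun j => mvP K (fs j)) D b (fun k => (pts k).xK K) := by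
  haveI : NeZero p := ⟨by omega⟩
  haveI : Fact (1 < p) := ⟨hp⟩
  refine ⟨hc, ?_, ?_⟩
  · have hrow : ∀ (i : Fin D) s, beta (fun j => mvP K (fs j)) b ((pts (i / c)).xK K)
        (⟨i % c, Nat.mod_lt _ hc⟩ : Fin c) s =
        ((betaZ fs (pts (i / c)) (⟨i % c, Nat.mod_lt _ hc⟩ : Fin c) s : ℤ) : K) := by
      intro i s
      rw [← hb (i / c)]
      exact beta_eq_betaZ fs _ _ s
    let N : Matrix (Fin D) (Fin D) ℤ := Matrix.of fun i j =>
      ∑ s, betaZ fs (pts (i / c)) (⟨i % c, Nat.mod_lt _ hc⟩ : Fin c) s *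
        colZ (B.getD j ([], [])) s
    have hN : N.map (Int.castRingHom (ZMod p)) = 1 := by
      ext i j
      have hik : (i : ℕ) / c * c < D := lt_of_le_of_lt (Nat.div_mul_le_self _ _) i.2
      have h1 := entry_sound p fs (pts (i / c)) _ (hA _ hik) (B.getD j ([], []))
        (⟨i % c, Nat.mod_lt _ hc⟩ : Fin c)
      have h2 := hB j i
      simp only [Matrix.map_apply, N, Matrix.of_apply, eq_intCast]
      rw [h1, Matrix.one_apply]
      have h3 : (entryN p c data (B.getD j ([], [])) i : ZMod p) =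
          ((if i = j then 1 else 0 : ℕ) : ZMod p) := by rw [h2]
      unfold entryN at h3
      rw [ZMod.natCast_mod] at h3
      rw [h3]
      split_ifs <;> simp
    have hdet : N.det ≠ 0 := by
      intro h0
      have h1 : (Int.castRingHom (ZMod p)) N.det = (N.map (Int.castRingHom (ZMod p))).det :=
        RingHom.map_det _ _
      rw [h0, hN, map_zero, Matrix.det_one] at h1
      exact zero_ne_one h1
    refine linearIndependent_of_right_inverse_det _
      (fun s j => ((colZ (B.getD (j : Fin D) ([], [])) s : ℤ) : K)) ?_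
    have hK : (Matrix.of fun (i j : Fin D) =>
        ∑ s, beta (fun j => mvP K (fs j)) b ((pts (i / c)).xK K)
          (⟨i % c, Nat.mod_lt _ hc⟩ : Fin c) s *
          ((colZ (B.getD j ([], [])) s : ℤ) : K) : Matrix (Fin D) (Fin D) K) =
        N.map (Int.castRingHom K) := by
      ext i j
      simp only [Matrix.of_apply, Matrix.map_apply, N, hrow, eq_intCast, Int.cast_sum,
        Int.cast_mul]
    rw [hK]
    have h1 : (Int.castRingHom K) N.det = (N.map (Int.castRingHom K)).det :=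
      RingHom.map_det _ _
    rw [← h1]
    simpa using hdet
  · have h1 : jac3 (fun j => mvP K (fs j)) b ((pts 0).xK K) =
        ((det3 (gradZ fs (pts 0) 0) (gradZ fs (pts 0) 1) (gradZ fs (pts 0) 2) : ℤ) : K) := by
      rw [← hb 0]
      unfold jac3
      rw [grad_eq_gradZ]
      exact (map_det3 (Int.castRingHom K) _ _ _).symm
    rw [h1]
    exact_mod_cast hjac

end

end Pool.Agent.Helper37
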