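import Mathlib

/-!
# Anticanonically embedded del Pezzo surfaces and strong interpolation

Everything is over a field `K`, which in the results is algebraically closed of characteristic
zero.  A subvariety of `ℙⁿ` is represented by its set of `K`-points.
-/

namespace Pool.Agent.DelPezzo

open MvPolynomial LinearAlgebra.Projectivization

/-- Projective `n`-space over `K`. -/
abbrev PSpace (K : Type*) [Field K] (n : ℕ) : Type _ := ℙ K (Fin (n + 1) → K)

/-- The Zariski closure of the image of the rational map `[f 0 : ... : f n]`: the set of all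
points of `ℙⁿ` at which every homogeneous polynomial relation `G(f 0, ..., f n) = 0` vanishes. -/
def imageClosure {K : Type*} [Field K] {τ : Type*} {n : ℕ}
    (f : Fin (n + 1) → MvPolynomial τ K) : Set (PSpace K n) :=
  {y | ∀ (e : ℕ) (G : MvPolynomial (Fin (n + 1)) K), G.IsHomogeneous e →
    aeval f G = 0 → eval y.rep G = 0}

/-- The points `P i` of the projective plane (given by homogeneous coordinate vectors) are in
general position: any at most three of them are given by linearly independent vectors (so the
points are well defined, pairwise distinct, and no three of them lie on a line), and no six of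
them lie on a conic. -/
structure InGeneralPosition {K : Type*} [Field K] {k : ℕ} (P : Fin k → Fin 3 → K) : Prop where
  no_three_on_line : ∀ s : Finset (Fin k), s.card ≤ 3 → LinearIndepOn K P (s : Set (Fin k))
  no_six_on_conic : ∀ s : Finset (Fin k), s.card = 6 → ∀ Q : MvPolynomial (Fin 3) K,
    Q.IsHomogeneous 2 → (∀ i ∈ s, eval (P i) Q = 0) → Q = 0

/-- The vector space of ternary cubic forms that vanish at all the points `P i`. -/
noncomputable def cubicsThrough {K : Type*} [Field K] {k : ℕ} (P : Fin k → Fin 3 → K) :
    Submodule K (MvPolynomial (Fin 3) K) where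
  carrier := {F | F.IsHomogeneous 3 ∧ ∀ i, eval (P i) F = 0}
  zero_mem' := ⟨isHomogeneous_zero _ _ _, fun i => by simp⟩
  add_mem' := fun ha hb => ⟨ha.1.add hb.1, fun i => by simp [ha.2 i, hb.2 i]⟩
  smul_mem' := fun a F hF => ⟨by
    rw [smul_eq_C_mul]
    exact hF.1.C_mul a, fun i => by simp [smul_eq_C_mul, hF.2 i]⟩

/-- The anticanonically embedded del Pezzo surfaces of degree `d` (`3 ≤ d ≤ 9`) in `ℙᵈ` that are
blow-ups of the plane: the image of the blow-up of `ℙ²` in `9 - d` points in general position
under (a basis of) the linear system of cubics through these points, which is the complete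
anticanonical linear system. -/
def blowupDelPezzo (K : Type*) [Field K] (d : ℕ) : Set (Set (PSpace K d)) :=
  {Y | ∃ (P : Fin (9 - d) → Fin 3 → K) (f : Fin (d + 1) → MvPolynomial (Fin 3) K),
    InGeneralPosition P ∧ LinearIndependent K f ∧
    Submodule.span K (Set.range f) = cubicsThrough P ∧ Y = imageClosure f}

/-- The vector space of bihomogeneous forms of bidegree `(2, 2)` in the two pairs of variables
`X (inl 0), X (inl 1)` and `X (inr 0), X (inr 1)`. -/
noncomputable def biquadraticForms (K : Type*) [Field K] : Submodule K (MvPolynomial (Fin 2 ⊕ Fin 2) K) :=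
  Submodule.span K (Set.range fun p : Fin 3 × Fin 3 =>
    X (Sum.inl 0) ^ (2 - (p.1 : ℕ)) * X (Sum.inl 1) ^ (p.1 : ℕ) *
      (X (Sum.inr 0) ^ (2 - (p.2 : ℕ)) * X (Sum.inr 1) ^ (p.2 : ℕ)))

/-- The anticanonically embedded del Pezzo surfaces of degree `8` in `ℙ⁸` that are isomorphic to
`ℙ¹ × ℙ¹`: the image of `ℙ¹ × ℙ¹` under (a basis of) the linear system of forms of bidegree
`(2, 2)`. -/
def quadricDelPezzo (K : Type*) [Field K] : Set (Set (PSpace K 8)) :=
  {Y | ∃ f : Fin 9 → MvPolynomial (Fin 2 ⊕ Fin 2) K, LinearIndependent K f ∧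
    Submodule.span K (Set.range f) = biquadraticForms K ∧ Y = imageClosure f}

/-- The linear subspace of `ℙⁿ` spanned by the vectors `w 0, ..., w r`; it has dimension `r` when
they are linearly independent. -/
def linearSpace {K : Type*} [Field K] {n r : ℕ} (w : Fin (r + 1) → Fin (n + 1) → K) :
    Set (PSpace K n) :=
  {y | y.rep ∈ Submodule.span K (Set.range w)}

/-- `lam`-interpolation for a set `U` of surfaces in `ℙⁿ` (so the codimension is `n - 2`): for
general linear spaces `Λ i` of dimension `n - 2 - lam i` some member of `U` meets every `Λ i`.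
*General* means: off the zero locus of some nonzero polynomial `F` in the coordinates of the
vectors `w i 0, ..., w i (n - 2 - lam i)` spanning the `Λ i`. -/
def LambdaInterpolation {K : Type*} [Field K] {n : ℕ} (U : Set (Set (PSpace K n))) {m : ℕ}
    (lam : Fin m → ℕ) : Prop :=
  ∃ F : MvPolynomial (Σ i : Fin m, Fin (n - 2 - lam i + 1) × Fin (n + 1)) K, F ≠ 0 ∧
    ∀ w : (i : Fin m) → Fin (n - 2 - lam i + 1) → Fin (n + 1) → K,
      eval (fun p => w p.1 p.2.1 p.2.2) F ≠ 0 →
        ∃ Y ∈ U, ∀ i, (Y ∩ linearSpace (w i)).Nonempty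

/-- Strong interpolation for a set `U` of surfaces in `ℙⁿ` depending on `D` parameters:
`lam`-interpolation for every `lam` with `1 ≤ lam i ≤ n - 2` and `∑ lam i = D`. -/
def StrongInterpolation {K : Type*} [Field K] {n : ℕ} (U : Set (Set (PSpace K n)))
    (D : ℕ) : Prop :=
  ∀ (m : ℕ) (lam : Fin m → ℕ), (∀ i, 1 ≤ lam i ∧ lam i ≤ n - 2) → ∑ i, lam i = D →
    LambdaInterpolation U lam

end Pool.Agent.DelPezzo
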