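import Mathlib
import Pool.Agent.Helper37.DPDefs

/-!
# Points in general position impose independent conditions on cubics
-/

namespace Pool.Agent.DelPezzo

open MvPolynomial Module

variable {K : Type*} [Field K]

/-- A linear form vanishing at at most two of the points and not at another one. -/
lemma exists_linear_form {k : ℕ} (P : Fin k → Fin 3 → K) (hP : InGeneralPosition P) (i : Fin k)
    (t : Finset (Fin k)) (hit : i ∉ t) (ht : t.card ≤ 2) :
    ∃ L : MvPolynomial (Fin 3) K, L.IsHomogeneous 1 ∧ (∀ j ∈ t, eval (P j) L = 0) ∧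
      eval (P i) L ≠ 0 := by
  classical
  have hli := hP.no_three_on_line (insert i t) (by rw [Finset.card_insert_of_notMem hit]; omega)
  rw [Finset.coe_insert, linearIndepOn_insert (by simpa using hit)] at hli
  obtain ⟨φ, hφ, hker⟩ := Submodule.exists_le_ker_of_notMem hli.2
  have heval : ∀ v : Fin 3 → K, eval v (∑ j, C (φ (Pi.single j 1)) * X j : MvPolynomial (Fin 3) K)
      = φ v := by
    intro v
    have hv : v = ∑ j, v j • (Pi.single j (1 : K) : Fin 3 → K) := by
      ext j
      simp [Finset.sum_apply, Pi.single_apply]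
    conv_rhs => rw [hv]
    simp only [map_sum, map_mul, eval_C, eval_X, map_smul, smul_eq_mul]
    exact Finset.sum_congr rfl fun j _ => mul_comm _ _
  refine ⟨∑ j, C (φ (Pi.single j 1)) * X j, ?_, ?_, ?_⟩
  · exact IsHomogeneous.sum _ _ _ fun j _ => isHomogeneous_C_mul_X _ _
  · intro j hj
    rw [heval]
    exact hker (Submodule.subset_span ⟨j, by simpa using hj, rfl⟩)
  · rw [heval]
    exact hφ

lemma exists_form {k : ℕ} (P : Fin k → Fin 3 → K) (hP : InGeneralPosition P) (i : Fin k)
    (n : ℕ) : ∀ s : Finset (Fin k), i ∉ s → s.card ≤ 2 * n →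
    ∃ F : MvPolynomial (Fin 3) K, F.IsHomogeneous n ∧ (∀ j ∈ s, eval (P j) F = 0) ∧
      eval (P i) F ≠ 0 := by
  classical
  induction n with
  | zero =>
    intro s _ hs
    have : s = ∅ := Finset.card_eq_zero.mp (by omega)
    subst this
    exact ⟨1, isHomogeneous_one _ _, by simp, by simp⟩
  | succ n ih =>
    intro s his hs
    obtain ⟨t, hts, htc⟩ := Finset.exists_subset_card_eq (min_le_right 2 s.card)
    obtain ⟨L, hL1, hL2, hL3⟩ := exists_linear_form P hP i t (fun h => his (hts h))
      (htc.trans_le (min_le_left _ _))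
    obtain ⟨F, hF1, hF2, hF3⟩ := ih (s \ t) (fun h => his (Finset.mem_sdiff.mp h).1) (by
      rw [Finset.card_sdiff_of_subset hts, htc]
      omega)
    refine ⟨F * L, hF1.mul hL1, fun j hj => ?_, ?_⟩
    · by_cases hjt : j ∈ t
      · rw [map_mul, hL2 j hjt, mul_zero]
      · rw [map_mul, hF2 j (Finset.mem_sdiff.mpr ⟨hj, hjt⟩), zero_mul]
    · rw [map_mul]
      exact mul_ne_zero hF3 hL3

/-- exponents of the ternary cubic monomials -/
def cubExp : Finset (ℕ × ℕ) := (Finset.range 4 ×ˢ Finset.range 4).filter fun p => p.1 + p.2 ≤ 3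

lemma cubExp_card : cubExp.card = 10 := by decide

lemma homogeneous_three_le : homogeneousSubmodule (Fin 3) K 3 ≤
    Submodule.span K ((fun p : ℕ × ℕ => (X 0 ^ p.1 * X 1 ^ p.2 * X 2 ^ (3 - p.1 - p.2) :
      MvPolynomial (Fin 3) K)) '' (cubExp : Set (ℕ × ℕ))) := by
  intro F hF
  rw [mem_homogeneousSubmodule] at hF
  rw [← support_sum_monomial_coeff F]
  refine Submodule.sum_mem _ fun d hd => ?_
  have hdeg : d 0 + d 1 + d 2 = 3 := by
    have h1 := hF (mem_support_iff.mp hd)
    have h2 : d.degree = 3 := by
      have h3 := Finsupp.degree_eq_weight_one (R := ℕ) (σ := Fin 3)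
      exact (DFunLike.congr_fun h3 d).trans h1
    rw [Finsupp.degree_eq_sum, Fin.sum_univ_three] at h2
    exact h2
  have hmono : monomial d (coeff d F) = coeff d F •
      (X 0 ^ (d 0) * X 1 ^ (d 1) * X 2 ^ (3 - d 0 - d 1) : MvPolynomial (Fin 3) K) := by
    rw [monomial_eq, Finsupp.prod_fintype _ _ (by simp), Fin.prod_univ_three, smul_eq_C_mul]
    have : d 2 = 3 - d 0 - d 1 := by omega
    rw [this]
  rw [hmono]
  refine Submodule.smul_mem _ _ (Submodule.subset_span ⟨(d 0, d 1), ?_, rfl⟩)
  simp only [cubExp, Finset.coe_filter, Finset.mem_product, Finset.mem_range, Set.mem_ofPred_eq]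
  omega

lemma finrank_homogeneous_three_le : finrank K (homogeneousSubmodule (Fin 3) K 3) ≤ 10 := by
  classical
  have h1 := homogeneous_three_le (K := K)
  rw [← Finset.coe_image] at h1
  have := (Submodule.finrank_mono h1).trans (finrank_span_finset_le_card _)
  refine this.trans (Finset.card_image_le.trans_eq cubExp_card)

instance : FiniteDimensional K (homogeneousSubmodule (Fin 3) K 3) :=
  Module.Finite.iff_fg.mpr (homogeneousSubmodule_fg (Fin 3) K 3)

lemma cubicsThrough_le {k : ℕ} (P : Fin k → Fin 3 → K) :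
    cubicsThrough P ≤ homogeneousSubmodule (Fin 3) K 3 := fun _ hF => hF.1

instance {k : ℕ} (P : Fin k → Fin 3 → K) : FiniteDimensional K (cubicsThrough P) :=
  Submodule.finiteDimensional_of_le (cubicsThrough_le P)

/-- At most seven points in general position impose independent conditions on cubics. -/
theorem finrank_cubicsThrough_add_le {k : ℕ} (P : Fin k → Fin 3 → K) (hP : InGeneralPosition P)
    (hk : k ≤ 7) : finrank K (cubicsThrough P) + k ≤ 10 := by
  classical
  let E : homogeneousSubmodule (Fin 3) K 3 →ₗ[K] (Fin k → K) :=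
    LinearMap.pi fun i => ((aeval (P i) : MvPolynomial (Fin 3) K →ₐ[K] K).toLinearMap).comp
      (Submodule.subtype _)
  have hE : ∀ F i, E F i = eval (P i) (F : MvPolynomial (Fin 3) K) := fun F i => rfl
  have hsurj : LinearMap.range E = ⊤ := by
    rw [LinearMap.range_eq_top]
    intro y
    have hex : ∀ i, ∃ F : MvPolynomial (Fin 3) K, F.IsHomogeneous 3 ∧
        (∀ j ∈ Finset.univ.erase i, eval (P j) F = 0) ∧ eval (P i) F ≠ 0 := by
      intro i
      refine exists_form P hP i 3 _ (Finset.notMem_erase _ _) ?_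
      rw [Finset.card_erase_of_mem (Finset.mem_univ _), Finset.card_univ, Fintype.card_fin]
      omega
    choose F hF1 hF2 hF3 using hex
    refine ⟨∑ i, (y i / eval (P i) (F i)) • ⟨F i, (mem_homogeneousSubmodule _ _).mpr (hF1 i)⟩, ?_⟩
    ext j
    rw [map_sum, Finset.sum_apply, Finset.sum_eq_single j]
    · rw [map_smul, Pi.smul_apply, hE, smul_eq_mul]
      exact div_mul_cancel₀ _ (hF3 j)
    · intro i _ hij
      rw [map_smul, Pi.smul_apply, hE, smul_eq_mul]
      have : eval (P j) (F i) = 0 := hF2 i j (Finset.mem_erase.mpr ⟨hij.symm, Finset.mem_univ _⟩)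
      rw [this, mul_zero]
    · simp
  have hrank := LinearMap.finrank_range_add_finrank_ker E
  rw [hsurj, finrank_top, Module.finrank_fin_fun] at hrank
  have hker : finrank K (LinearMap.ker E) = finrank K (cubicsThrough P) := by
    rw [← Submodule.finrank_map_subtype_eq]
    have hmap : Submodule.map (homogeneousSubmodule (Fin 3) K 3).subtype (LinearMap.ker E) =
        cubicsThrough P := by
      ext F
      simp only [Submodule.mem_map, LinearMap.mem_ker, Submodule.subtype_apply, Subtype.exists,
        exists_and_right, exists_eq_right]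
      constructor
      · rintro ⟨h, hF⟩
        exact ⟨h, fun i => by rw [← hE ⟨F, h⟩ i, hF]; rfl⟩
      · rintro ⟨h1, h2⟩
        exact ⟨h1, by ext i; exact h2 i⟩
    rw [hmap]
  have := finrank_homogeneous_three_le (K := K)
  omega

/-- Independent cubics through the points, in the right number, form a basis. -/
lemma span_eq_cubicsThrough {k n : ℕ} (P : Fin k → Fin 3 → K) (hP : InGeneralPosition P)
    (hk : k ≤ 7) (hn : n + k = 10) (f : Fin n → MvPolynomial (Fin 3) K)
    (hf : LinearIndependent K f) (hmem : ∀ j, f j ∈ cubicsThrough P) :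
    Submodule.span K (Set.range f) = cubicsThrough P := by
  apply Submodule.eq_of_le_of_finrank_le
  · rw [Submodule.span_le]
    rintro _ ⟨j, rfl⟩
    exact hmem j
  · have h1 := finrank_span_eq_card hf
    rw [Fintype.card_fin] at h1
    rw [h1]
    have := finrank_cubicsThrough_add_le P hP hk
    omega

end Pool.Agent.DelPezzo
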