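import Mathlib
import Pool.Agent.Helper37.Cert
import Pool.Agent.Helper37.Cubics

/-!
# From certificates to strong interpolation
-/

namespace Pool.Agent.DelPezzo

open MvPolynomial Module Pool.Agent.Helper37

variable {K : Type*} [Field K]

lemma eval_smul_homogeneous {n e : ℕ} (G : MvPolynomial (Fin n) K) (hG : G.IsHomogeneous e)
    (a : K) (v : Fin n → K) : eval (a • v) G = a ^ e * eval v G := by
  rw [eval_eq', eval_eq', Finset.mul_sum]
  refine Finset.sum_congr rfl fun d hd => ?_
  have h1 := hG (mem_support_iff.mp hd)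
  have h2 : d.degree = e :=
    (DFunLike.congr_fun (Finsupp.degree_eq_weight_one (R := ℕ) (σ := Fin n)) d).trans h1
  rw [Finsupp.degree_eq_sum] at h2
  simp only [Pi.smul_apply, smul_eq_mul, mul_pow, Finset.prod_mul_distrib]
  rw [Finset.prod_pow_eq_pow_sum, h2]
  ring

/-- The point `[v]` lies on the closure of the image, if `v` is a value of `f`. -/
lemma mk_mem_imageClosure {τ : Type*} {n : ℕ} (f : Fin (n + 1) → MvPolynomial τ K)
    (x : τ → K) (v : Fin (n + 1) → K) (hv : v ≠ 0) (hx : ∀ j, eval x (f j) = v j) :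
    Projectivization.mk K v hv ∈ imageClosure f := by
  intro e G hG hGf
  obtain ⟨a, ha⟩ := Projectivization.exists_smul_eq_mk_rep K v hv
  rw [← ha]
  have h1 : eval v G = 0 := by
    have h2 : eval x (aeval f G) = 0 := by rw [hGf, map_zero]
    have h3 : eval x (aeval f G) = eval (fun j => eval x (f j)) G := by
      rw [← MvPolynomial.aeval_eq_eval, ← MvPolynomial.aeval_eq_eval,
        ← AlgHom.comp_apply, comp_aeval]
    rw [h3] at h2
    have h4 : (fun j => eval x (f j)) = v := funext hx
    rwa [h4] at h2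
  have h5 : eval (a • v) G = (a : K) ^ e * eval v G := eval_smul_homogeneous G hG (a : K) v
  rw [h5, h1, mul_zero]

/-- `[v]` lies on the linear space spanned by `w` if `v` is a combination of the `w l`. -/
lemma mk_mem_linearSpace {n r : ℕ} (w : Fin (r + 1) → Fin (n + 1) → K)
    (v : Fin (n + 1) → K) (hv : v ≠ 0) (hvw : v ∈ Submodule.span K (Set.range w)) :
    Projectivization.mk K v hv ∈ linearSpace w := by
  obtain ⟨a, ha⟩ := Projectivization.exists_smul_eq_mk_rep K v hv
  show (Projectivization.mk K v hv).rep ∈ Submodule.span K (Set.range w)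
  rw [← ha]
  exact Submodule.smul_mem _ _ hvw

lemma combination_mem_span {n r : ℕ} (w : Fin (r + 1) → Fin (n + 1) → K)
    (v : Fin (n + 1) → K) (a : Fin r → K) (h : ∀ j, v j = w 0 j + ∑ l, a l * w l.succ j) :
    v ∈ Submodule.span K (Set.range w) := by
  have : v = w 0 + ∑ l, a l • w l.succ := by
    ext j
    simp [h j, Finset.sum_apply]
  rw [this]
  refine Submodule.add_mem _ (Submodule.subset_span ⟨0, rfl⟩) (Submodule.sum_mem _ fun l _ => ?_)
  exact Submodule.smul_mem _ _ (Submodule.subset_span ⟨l.succ, rfl⟩)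

/-- invertible matrices preserve linear independence -/
lemma linearIndependent_matrix_comb {V : Type*} [AddCommGroup V] [Module K V] {n : ℕ}
    (g : Matrix (Fin n) (Fin n) K) (hg : g.det ≠ 0) (f : Fin n → V) (hf : LinearIndependent K f) :
    LinearIndependent K (fun j => ∑ k, g j k • f k) := by
  rw [Fintype.linearIndependent_iff] at hf ⊢
  intro γ hγ
  have h1 : ∑ k, (∑ j, γ j * g j k) • f k = 0 := by
    rw [← hγ]
    simp only [Finset.smul_sum, Finset.sum_smul, smul_smul]
    rw [Finset.sum_comm]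
  have h2 := hf _ h1
  have h3 : Matrix.vecMul γ g = 0 := by
    ext k
    exact h2 k
  exact fun i => congrFun (Matrix.eq_zero_of_vecMul_eq_zero hg h3) i

/-- the specialisation of the family at the parameter `b`. -/
noncomputable def spec {n : ℕ} (f : Fin n → MvPolynomial (Fin 4 ⊕ Fin 3) K) (b : Fin 4 → K)
    (j : Fin n) : MvPolynomial (Fin 3) K :=
  aeval (Sum.elim (fun l => C (b l)) X) (f j)

lemma eval_spec {n : ℕ} (f : Fin n → MvPolynomial (Fin 4 ⊕ Fin 3) K) (b : Fin 4 → K)
    (j : Fin n) (x : Fin 3 → K) : eval x (spec f b j) = eval (Sum.elim b x) (f j) := by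
  unfold spec
  have : eval x (aeval (Sum.elim (fun l => C (b l)) X) (f j)) =
      eval (fun s => eval x (Sum.elim (fun l => C (b l)) X s)) (f j) := by
    rw [← MvPolynomial.aeval_eq_eval, ← MvPolynomial.aeval_eq_eval,
      ← AlgHom.comp_apply, comp_aeval]
  rw [this]
  congr 2
  ext s
  rcases s with s | s <;> simp

/-- **From a certificate to strong interpolation for plane blow-ups.** -/
theorem strong_of_cert [IsAlgClosed K] [CharZero K] {c D : ℕ} (hc7 : c ≤ 7)
    (f : Fin (c + 3) → MvPolynomial (Fin 4 ⊕ Fin 3) K)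
    (P : (Fin 4 → K) → Fin (9 - (c + 2)) → Fin 3 → K)
    {b0 : Fin 4 → K} {z0 : ℕ → Fin 3 → K} (cert : Cert f D b0 z0)
    (hhom : ∀ b j, (spec f b j).IsHomogeneous 3)
    (hvan : ∀ b j i, eval (Sum.elim b (P b i)) (f j) = 0)
    (hpos : ∃ G : MvPolynomial (Fin 4) K, G ≠ 0 ∧ ∀ b, eval b G ≠ 0 → InGeneralPosition (P b))
    (hind : ∃ G : MvPolynomial (Fin 4) K, G ≠ 0 ∧ ∀ b, eval b G ≠ 0 →
      LinearIndependent K (spec f b)) :
    StrongInterpolation (n := c + 2) (blowupDelPezzo K (c + 2)) D := by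
  intro m lam hlam hsum
  obtain ⟨z, u, H⟩ := cert.exists_infCond lam (fun i => (hlam i).2) hsum
  obtain ⟨G1, hG1, hG1'⟩ := hpos
  obtain ⟨G2, hG2, hG2'⟩ := hind
  have hf0 : f 0 ≠ 0 := by
    intro h0
    apply cert.jac
    have : ∀ l, grad f b0 (z0 0) 0 l = 0 := by
      intro l
      simp [grad, h0]
    simp only [jac3, det3, this]
    ring
  obtain ⟨F, hF0, hF⟩ := exists_general_member H (G1 * G2) (mul_ne_zero hG1 hG2) (f 0) hf0
  refine ⟨F, hF0, fun w hw => ?_⟩
  obtain ⟨g, b, x, a, hg, hb, hx, hinc⟩ := hF w hw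
  rw [map_mul] at hb
  have hP := hG1' b (left_ne_zero_of_mul hb)
  have hI := hG2' b (right_ne_zero_of_mul hb)
  let h : Fin (c + 2 + 1) → MvPolynomial (Fin 3) K := fun j => ∑ k, g j k • spec f b k
  have hhI : LinearIndependent K h := linearIndependent_matrix_comb g hg _ hI
  have hmem : ∀ j, h j ∈ cubicsThrough (P b) := by
    intro j
    refine Submodule.sum_mem _ fun k _ => Submodule.smul_mem _ _ ⟨hhom b k, fun i => ?_⟩
    rw [eval_spec]
    exact hvan b k i
  have hspan : Submodule.span K (Set.range h) = cubicsThrough (P b) :=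
    span_eq_cubicsThrough (P b) hP (by omega) (by omega) h hhI hmem
  refine ⟨imageClosure h, ⟨P b, h, hP, hhI, hspan, rfl⟩, fun i => ?_⟩
  let v : Fin (c + 2 + 1) → K := fun j => ∑ k, g j k * eval (Sum.elim b (x i)) (f k)
  have hv : v ≠ 0 := by
    intro h0
    have h1 : Matrix.mulVec g (fun k => eval (Sum.elim b (x i)) (f k)) = 0 := h0
    have h2 := Matrix.eq_zero_of_mulVec_eq_zero hg h1
    exact hx i (congrFun h2 0)
  have hev : ∀ j, eval (x i) (h j) = v j := by
    intro j
    simp only [h, v, map_sum, smul_eval, eval_spec]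
  refine ⟨Projectivization.mk K v hv, mk_mem_imageClosure h (x i) v hv hev, ?_⟩
  exact mk_mem_linearSpace _ v hv (combination_mem_span _ v (a i) (fun j => hinc i j))

end Pool.Agent.DelPezzo
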