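import Mathlib
import Pool.Agent.Helper37.Link

/-!
# Verifying the side conditions from integer data
-/

namespace Pool.Agent.DelPezzo

open MvPolynomial Module Pool.Agent.Helper37

variable {K : Type*} [Field K]

/-- a point from parameters and coordinates -/
def mkPt (b : ℤ × ℤ × ℤ × ℤ) (x : ℤ × ℤ × ℤ) : Pt :=
  ⟨b.1, b.2.1, b.2.2.1, b.2.2.2, x.1, x.2.1, x.2.2⟩

/-! ### Homogeneity -/

lemma spec_mv_homogeneous (t : Trm) (e : ℕ) (h : t.e0 + t.e1 + t.e2 = e) (b : Fin 4 → K) :
    (aeval (Sum.elim (fun l => C (b l)) X) (t.mv K) : MvPolynomial (Fin 3) K).IsHomogeneous e := by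
  have : (aeval (Sum.elim (fun l => C (b l)) X) (t.mv K) : MvPolynomial (Fin 3) K) =
      C ((t.c : K) * (b 0 ^ t.a0 * b 1 ^ t.a1 * b 2 ^ t.a2 * b 3 ^ t.a3)) *
        (X 0 ^ t.e0 * X 1 ^ t.e1 * X 2 ^ t.e2) := by
    simp only [Trm.mv, map_mul, map_pow, aeval_X, Sum.elim_inl, Sum.elim_inr, aeval_C,
      algebraMap_eq]
    ring
  rw [this, ← h]
  exact (((isHomogeneous_X_pow 0 t.e0).mul (isHomogeneous_X_pow 1 t.e1)).mul
    (isHomogeneous_X_pow 2 t.e2)).C_mul _

lemma spec_homogeneous {n : ℕ} (fs : Fin n → List Trm)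
    (h : ∀ j, ∀ t ∈ fs j, t.e0 + t.e1 + t.e2 = 3) (b : Fin 4 → K) (j : Fin n) :
    (spec (fun j => mvP K (fs j)) b j).IsHomogeneous 3 := by
  unfold spec
  have key : ∀ L : List Trm, (∀ t ∈ L, t.e0 + t.e1 + t.e2 = 3) →
      (aeval (Sum.elim (fun l => C (b l)) X) (mvP K L) : MvPolynomial (Fin 3) K).IsHomogeneous 3 := by
    intro L
    induction L with
    | nil =>
      intro _
      simp only [mvP, map_zero]
      exact isHomogeneous_zero _ _ _
    | cons t ts ih =>
      intro h'
      simp only [mvP, map_add]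
      exact (spec_mv_homogeneous t 3 (h' t (List.mem_cons_self)) b).add
        (ih fun t' ht' => h' t' (List.mem_cons_of_mem _ ht'))
  exact key (fs j) (h j)

/-! ### Linear independence for general parameters -/

/-- The values of the polynomials at the points form an invertible matrix modulo `p`. -/
def CheckC (p n : ℕ) (fs : Fin n → List Trm) (pts : Fin n → Pt) (Inv : List (List ℕ)) : Prop :=
  ∀ k k' : Fin n, dotN (List.ofFn fun i => res p (evP (pts i) (fs k))) (Inv.getD k' []) % p =
    if k = k' then 1 else 0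

instance (p n : ℕ) (fs : Fin n → List Trm) (pts : Fin n → Pt) (Inv : List (List ℕ)) :
    Decidable (CheckC p n fs pts Inv) := by
  unfold CheckC
  infer_instance

lemma linearIndependent_of_mod [CharZero K] (p : ℕ) (hp : 1 < p) {n : ℕ} (M : Fin n → Fin n → ℤ)
    (Inv : List (List ℕ))
    (h : ∀ k k' : Fin n, dotN (List.ofFn fun i => res p (M k i)) (Inv.getD k' []) % p =
      if k = k' then 1 else 0) :
    LinearIndependent K (fun k i => ((M k i : ℤ) : K)) := by
  have : NeZero p := ⟨by omega⟩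
  have : Fact (1 < p) := ⟨hp⟩
  let N : Matrix (Fin n) (Fin n) ℤ := Matrix.of fun k k' =>
    ∑ i : Fin n, M k i * (((Inv.getD k' []).getD i 0 : ℕ) : ℤ)
  have hN : N.map (Int.castRingHom (ZMod p)) = 1 := by
    ext k k'
    have h1 := congrArg (Nat.cast : ℕ → ZMod p) (h k k')
    rw [ZMod.natCast_mod, dotN_eq _ _ n (by simp)] at h1
    simp only [Matrix.map_apply, N, Matrix.of_apply, eq_intCast, Int.cast_sum, Int.cast_mul,
      Int.cast_natCast, Matrix.one_apply]
    rw [Nat.cast_sum] at h1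
    have h2 : ∑ i : Fin n, ((((List.ofFn fun i => res p (M k i)).getD i 0 *
        (Inv.getD k' []).getD i 0 : ℕ)) : ZMod p) =
        ∑ i : Fin n, ((M k i : ℤ) : ZMod p) * (((Inv.getD k' []).getD i 0 : ℕ) : ZMod p) := by
      refine Finset.sum_congr rfl fun i _ => ?_
      rw [Nat.cast_mul]
      congr 1
      have : (List.ofFn fun i => res p (M k i)).getD i 0 = res p (M k i) := by
        rw [List.getD_eq_getElem _ _ (by simp)]
        simp
      rw [this, res_cast]
    rw [← h2, h1]
    split_ifs <;> simp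
  have hdet : N.det ≠ 0 := by
    intro h0
    have h1 : (Int.castRingHom (ZMod p)) N.det = (N.map (Int.castRingHom (ZMod p))).det :=
      RingHom.map_det _ _
    rw [h0, hN, map_zero, Matrix.det_one] at h1
    exact zero_ne_one h1
  refine linearIndependent_of_right_inverse_det _
    (fun i k' => ((((Inv.getD (k' : Fin n) []).getD i 0 : ℕ) : ℤ) : K)) ?_
  have hK : (Matrix.of fun (k k' : Fin n) =>
      ∑ i, ((M k i : ℤ) : K) * ((((Inv.getD (k' : Fin n) []).getD i 0 : ℕ) : ℤ) : K) :
        Matrix (Fin n) (Fin n) K) = N.map (Int.castRingHom K) := by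
    ext k k'
    simp only [Matrix.of_apply, Matrix.map_apply, N, eq_intCast, Int.cast_sum, Int.cast_mul]
  rw [hK]
  have h1 : (Int.castRingHom K) N.det = (N.map (Int.castRingHom K)).det :=
    RingHom.map_det _ _
  rw [← h1]
  simpa using hdet

lemma hind_of_check [CharZero K] (p : ℕ) (hp : 1 < p) {n : ℕ} (fs : Fin n → List Trm)
    (pts : Fin n → Pt) (b0 : Fin 4 → K) (hb : ∀ i, (pts i).bK K = b0) (Inv : List (List ℕ))
    (h : CheckC p n fs pts Inv) :
    ∃ G : MvPolynomial (Fin 4) K, G ≠ 0 ∧ ∀ b, eval b G ≠ 0 →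
      LinearIndependent K (spec (fun j => mvP K (fs j)) b) := by
  let v : Fin n → Fin n → MvPolynomial (Fin 4) K := fun k i =>
    aeval (Sum.elim X (fun l => C ((pts i).xK K l))) (mvP K (fs k))
  have hv : ∀ (b : Fin 4 → K) k i, eval b (v k i) =
      eval (Sum.elim b ((pts i).xK K)) (mvP K (fs k)) := by
    intro b k i
    have : eval b (aeval (Sum.elim X (fun l => C ((pts i).xK K l))) (mvP K (fs k))) =
        eval (fun s => eval b (Sum.elim X (fun l => C ((pts i).xK K l)) s)) (mvP K (fs k)) := by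
      rw [← MvPolynomial.aeval_eq_eval, ← MvPolynomial.aeval_eq_eval,
        ← AlgHom.comp_apply, comp_aeval]
    simp only [v]
    rw [this]
    congr 2
    ext s
    rcases s with s | s <;> simp
  have h0 : LinearIndependent K (fun k i => eval b0 (v k i)) := by
    have h1 := linearIndependent_of_mod (K := K) p hp (fun k i => evP (pts i) (fs k)) Inv h
    convert! h1 using 3 with k i
    rw [hv, ← hb i, eval_mvP]
  obtain ⟨G, hG, hG'⟩ := exists_poly_linearIndependent v b0 h0
  refine ⟨G, hG, fun b hb' => ?_⟩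
  have h2 := hG' b hb'
  let E : MvPolynomial (Fin 3) K →ₗ[K] (Fin n → K) :=
    LinearMap.pi fun i => (aeval ((pts i).xK K) : MvPolynomial (Fin 3) K →ₐ[K] K).toLinearMap
  refine LinearIndependent.of_comp E ?_
  convert! h2 using 1
  ext k i
  have : E (spec (fun j => mvP K (fs j)) b k) i =
      eval ((pts i).xK K) (spec (fun j => mvP K (fs j)) b k) := rfl
  rw [Function.comp_apply, this, eval_spec, hv]

/-! ### General position -/

lemma det3_eq_det {R : Type*} [CommRing R] (a b c : Fin 3 → R) :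
    (Matrix.of ![a, b, c]).det = det3 a b c := by
  rw [Matrix.det_fin_three]
  simp [det3]
  ring

/-- The standard points of the plane, with `b` giving the fifth and sixth one. -/
def stdP {R : Type*} [CommRing R] (b : Fin 4 → R) : Fin 6 → Fin 3 → R :=
  ![![1, 0, 0], ![0, 1, 0], ![0, 0, 1], ![1, 1, 1], ![b 0, b 1, 1], ![b 2, b 3, 1]]

lemma map_stdP {R R' : Type*} [CommRing R] [CommRing R'] (ψ : R →+* R') (b : Fin 4 → R)
    (i : Fin 6) (l : Fin 3) : ψ (stdP b i l) = stdP (fun j => ψ (b j)) i l := by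
  fin_cases i <;> fin_cases l <;> simp [stdP]

lemma linearIndepOn_of_det3 {k : ℕ} (hk : 3 ≤ k) (P : Fin k → Fin 3 → K)
    (h : ∀ x y z : Fin k, x ≠ y → x ≠ z → y ≠ z → det3 (P x) (P y) (P z) ≠ 0)
    (s : Finset (Fin k)) (hs : s.card ≤ 3) : LinearIndepOn K P (s : Set (Fin k)) := by
  classical
  obtain ⟨t, hst, ht⟩ := Finset.exists_superset_card_eq (s := s) (n := 3) hs (by simpa using hk)
  refine LinearIndepOn.mono ?_ (Finset.coe_subset.mpr hst)
  obtain ⟨x, y, z, hxy, hxz, hyz, rfl⟩ := Finset.card_eq_three.mp ht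
  have h1 : LinearIndependent K ![P x, P y, P z] := by
    have h2 := h x y z hxy hxz hyz
    rw [← det3_eq_det] at h2
    exact Matrix.linearIndependent_rows_of_det_ne_zero h2
  have hinj : Function.Injective ![x, y, z] := by
    intro a b hab
    fin_cases a <;> fin_cases b <;> simp_all
  have h3 : LinearIndependent K (P ∘ ![x, y, z]) := by
    convert! h1 using 1
    ext a
    fin_cases a <;> rfl
  have h4 : (({x, y, z} : Finset (Fin k)) : Set (Fin k)) = Set.range ![x, y, z] := by
    ext w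
    simp [eq_comm]
    tauto
  rw [h4]
  exact (linearIndepOn_range_iff hinj P).mpr h3

/-- Few standard points are always in general position. -/
lemma inGeneralPosition_small {k : ℕ} (hk : k ≤ 3) (b : Fin 4 → K) :
    InGeneralPosition (fun i : Fin k => stdP b (Fin.castLE (by omega : k ≤ 6) i)) := by
  refine ⟨fun s _ => ?_, fun s hs => ?_⟩
  · have h1 : LinearIndependent K (fun i : Fin k => stdP b (Fin.castLE (by omega : k ≤ 6) i)) := by
      have h2 : LinearIndependent K (fun i : Fin 3 => stdP b (Fin.castLE (by omega : 3 ≤ 6) i)) := by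
        have h3 : (Matrix.of fun i : Fin 3 => stdP b (Fin.castLE (by omega : 3 ≤ 6) i)) = 1 := by
          ext i j
          fin_cases i <;> fin_cases j <;> simp [stdP]
        refine Matrix.linearIndependent_rows_of_det_ne_zero
          (A := Matrix.of fun i : Fin 3 => stdP b (Fin.castLE (by omega : 3 ≤ 6) i)) ?_
        rw [h3, Matrix.det_one]
        exact one_ne_zero
      exact h2.comp (Fin.castLE hk) (Fin.castLE_injective hk)
    exact h1.linearIndepOn _
  · have h1 := Finset.card_le_univ s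
    rw [Fintype.card_fin] at h1
    omega

/-- The determinant conditions at one integral parameter give the determinant conditions for
general parameters. -/
lemma no_three_of_check [CharZero K] {k : ℕ} (hk3 : 3 ≤ k) (hk : k ≤ 6) (b0 : Fin 4 → ℤ)
    (h : ∀ x y z : Fin k, x ≠ y → x ≠ z → y ≠ z →
      det3 (stdP b0 (Fin.castLE hk x)) (stdP b0 (Fin.castLE hk y))
        (stdP b0 (Fin.castLE hk z)) ≠ 0) :
    ∃ G : MvPolynomial (Fin 4) K, G ≠ 0 ∧ ∀ b, eval b G ≠ 0 → ∀ s : Finset (Fin k), s.card ≤ 3 →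
      LinearIndepOn K (fun i : Fin k => stdP b (Fin.castLE hk i)) (s : Set (Fin k)) := by
  classical
  let g : Fin k × Fin k × Fin k → MvPolynomial (Fin 4) K := fun q =>
    if q.1 ≠ q.2.1 ∧ q.1 ≠ q.2.2 ∧ q.2.1 ≠ q.2.2 then
      det3 (stdP X (Fin.castLE hk q.1)) (stdP X (Fin.castLE hk q.2.1))
        (stdP X (Fin.castLE hk q.2.2)) else 1
  have hev : ∀ (b : Fin 4 → K) (x y z : Fin k), eval b (det3 (stdP X (Fin.castLE hk x))
      (stdP X (Fin.castLE hk y)) (stdP X (Fin.castLE hk z))) =
      det3 (stdP b (Fin.castLE hk x)) (stdP b (Fin.castLE hk y)) (stdP b (Fin.castLE hk z)) := by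
    intro b x y z
    rw [map_det3]
    simp only [map_stdP, eval_X]
  refine ⟨∏ q, g q, Finset.prod_ne_zero_iff.mpr fun q _ => ?_, fun b hb s hs => ?_⟩
  · simp only [g]
    split_ifs with hq
    · intro h0
      have h1 := hev (fun l => (b0 l : K)) q.1 q.2.1 q.2.2
      rw [h0, map_zero] at h1
      have h2 := h q.1 q.2.1 q.2.2 hq.1 hq.2.1 hq.2.2
      apply h2
      have h3 : ((det3 (stdP b0 (Fin.castLE hk q.1)) (stdP b0 (Fin.castLE hk q.2.1))
        (stdP b0 (Fin.castLE hk q.2.2)) : ℤ) : K) = 0 := by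
        rw [h1]
        have h4 := map_det3 (Int.castRingHom K) (stdP b0 (Fin.castLE hk q.1))
          (stdP b0 (Fin.castLE hk q.2.1)) (stdP b0 (Fin.castLE hk q.2.2))
        simp only [map_stdP] at h4
        simpa using h4
      exact_mod_cast h3
    · exact one_ne_zero
  · rw [map_prod] at hb
    refine linearIndepOn_of_det3 hk3 _ (fun x y z hxy hxz hyz => ?_) s hs
    have h1 := Finset.prod_ne_zero_iff.mp hb (x, y, z) (Finset.mem_univ _)
    simp only [g] at h1
    rw [if_pos ⟨hxy, hxz, hyz⟩, hev] at h1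
    exact h1

/-- the quadratic monomials -/
def qmon {R : Type*} [CommRing R] (v : Fin 3 → R) : Fin 6 → R :=
  ![v 0 ^ 2, v 0 * v 1, v 0 * v 2, v 1 ^ 2, v 1 * v 2, v 2 ^ 2]

lemma map_qmon {R R' : Type*} [CommRing R] [CommRing R'] (ψ : R →+* R') (v : Fin 3 → R)
    (i : Fin 6) : ψ (qmon v i) = qmon (fun j => ψ (v j)) i := by
  fin_cases i <;> simp [qmon]

lemma homogeneous_two_mem_span (Q : MvPolynomial (Fin 3) K) (hQ : Q.IsHomogeneous 2) :
    Q ∈ Submodule.span K (Set.range (qmon (X : Fin 3 → MvPolynomial (Fin 3) K))) := by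
  rw [← support_sum_monomial_coeff Q]
  refine Submodule.sum_mem _ fun d hd => ?_
  have hdeg : d 0 + d 1 + d 2 = 2 := by
    have h1 := hQ (mem_support_iff.mp hd)
    have h2 : d.degree = 2 := by
      have h3 := Finsupp.degree_eq_weight_one (R := ℕ) (σ := Fin 3)
      exact (DFunLike.congr_fun h3 d).trans h1
    rw [Finsupp.degree_eq_sum, Fin.sum_univ_three] at h2
    exact h2
  have hmono : monomial d (coeff d Q) = coeff d Q •
      (X 0 ^ (d 0) * X 1 ^ (d 1) * X 2 ^ (d 2) : MvPolynomial (Fin 3) K) := by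
    rw [monomial_eq, Finsupp.prod_fintype _ _ (by simp), Fin.prod_univ_three, smul_eq_C_mul]
  rw [hmono]
  refine Submodule.smul_mem _ _ (Submodule.subset_span ?_)
  have h0 : d 0 ≤ 2 := by omega
  have h1 : d 1 ≤ 2 := by omega
  have h2 : d 2 = 2 - d 0 - d 1 := by omega
  rw [h2]
  generalize d 0 = a at *
  generalize d 1 = a' at *
  interval_cases a <;> interval_cases a' <;> first
    | omega
    | (refine ⟨0, ?_⟩; simp [qmon]; done)
    | (refine ⟨1, ?_⟩; simp [qmon]; done)
    | (refine ⟨2, ?_⟩; simp [qmon]; done)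
    | (refine ⟨3, ?_⟩; simp [qmon]; done)
    | (refine ⟨4, ?_⟩; simp [qmon]; done)
    | (refine ⟨5, ?_⟩; simp [qmon]; done)

/-- The conic condition at one integral parameter gives it for general parameters. -/
lemma no_six_of_check [CharZero K] (p : ℕ) (hp : 1 < p) (b0 : Fin 4 → ℤ) (Inv : List (List ℕ))
    (h : ∀ k k' : Fin 6, dotN (List.ofFn fun i => res p (qmon (stdP b0 k) i)) (Inv.getD k' []) % p =
      if k = k' then 1 else 0) :
    ∃ G : MvPolynomial (Fin 4) K, G ≠ 0 ∧ ∀ b, eval b G ≠ 0 → ∀ s : Finset (Fin 6), s.card = 6 →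
      ∀ Q : MvPolynomial (Fin 3) K, Q.IsHomogeneous 2 → (∀ i ∈ s, eval (stdP b i) Q = 0) →
        Q = 0 := by
  classical
  have h0 := linearIndependent_of_mod (K := K) p hp (fun k i => qmon (stdP b0 k) i) Inv h
  let v : Fin 6 → Fin 6 → MvPolynomial (Fin 4) K := fun k i => qmon (stdP X k) i
  have hv : ∀ (b : Fin 4 → K) k i, eval b (v k i) = qmon (stdP b k) i := by
    intro b k i
    simp only [v, map_qmon, map_stdP, eval_X]
  have h1 : LinearIndependent K (fun k i => eval (fun l => (b0 l : K)) (v k i)) := by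
    convert! h0 using 3 with k i
    rw [hv]
    have h2 := map_qmon (Int.castRingHom K) (stdP b0 k) i
    simp only [map_stdP] at h2
    simpa using h2.symm
  obtain ⟨G, hG, hG'⟩ := exists_poly_linearIndependent v _ h1
  refine ⟨G, hG, fun b hb s hs Q hQ hQs => ?_⟩
  have hs' : s = Finset.univ := by
    rw [← Finset.card_eq_iff_eq_univ, hs, Fintype.card_fin]
  subst hs'
  have h2 := hG' b hb
  obtain ⟨cf, hcf⟩ := (Submodule.mem_span_range_iff_exists_fun K).mp (homogeneous_two_mem_span Q hQ)
  have h3 : IsUnit (Matrix.of fun k i => qmon (stdP b k) i) := by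
    rw [← Matrix.linearIndependent_rows_iff_isUnit]
    convert! h2 using 1
    ext k i
    rw [hv]
    rfl
  have h4 : (Matrix.of fun k i => qmon (stdP b k) i).det ≠ 0 :=
    ((Matrix.isUnit_iff_isUnit_det _).mp h3).ne_zero
  have h5 : Matrix.mulVec (Matrix.of fun k i => qmon (stdP b k) i) cf = 0 := by
    ext k
    have h6 := hQs k (Finset.mem_univ _)
    rw [← hcf] at h6
    simp only [map_sum, smul_eval, map_qmon, eval_X] at h6
    simp only [Matrix.mulVec, dotProduct, Matrix.of_apply, Pi.zero_apply]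
    rw [← h6]
    exact Finset.sum_congr rfl fun i _ => mul_comm _ _
  have h7 := Matrix.eq_zero_of_mulVec_eq_zero h4 h5
  rw [← hcf, h7]
  simp

end Pool.Agent.DelPezzo
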