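import Mathlib
import Pool.Agent.Helper37.Types

/-!
# Certificate for the del Pezzo surfaces of type 3
-/

namespace Pool.Agent.DelPezzo.T3

open Pool.Agent.Helper37

/-- the polynomials of the family -/
def fs : Fin 4 → List Trm := ![
  [⟨1, 0, 2, 0, 1, 2, 1, 0⟩, ⟨-1, 0, 1, 0, 2, 2, 1, 0⟩, ⟨-1, 1, 0, 0, 1, 2, 1, 0⟩, ⟨1, 0, 1, 1, 0, 2, 1, 0⟩, ⟨1, 1, 0, 0, 2, 2, 1, 0⟩, ⟨-1, 0, 2, 1, 0, 2, 1, 0⟩, ⟨-1, 0, 2, 0, 1, 1, 0, 2⟩, ⟨1, 0, 1, 0, 2, 1, 0, 2⟩, ⟨1, 2, 1, 0, 1, 1, 0, 2⟩, ⟨-1, 0, 1, 2, 1, 1, 0, 2⟩, ⟨-1, 2, 1, 0, 2, 1, 0, 2⟩, ⟨1, 0, 2, 2, 1, 1, 0, 2⟩, ⟨1, 1, 0, 0, 1, 0, 2, 1⟩, ⟨-1, 0, 1, 1, 0, 0, 2, 1⟩, ⟨-1, 2, 1, 0, 1, 0, 2, 1⟩, ⟨1, 0, 1, 2, 1, 0, 2, 1⟩, ⟨1, 2, 1, 1, 0, 0, 2, 1⟩, ⟨-1, 1, 0, 2, 1, 0, 2, 1⟩, ⟨-1, 1,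 0, 0, 2, 0, 1, 2⟩, ⟨1, 0, 2, 1, 0, 0, 1, 2⟩, ⟨1, 2, 1, 0, 2, 0, 1, 2⟩, ⟨-1, 0, 2, 2, 1, 0, 1, 2⟩, ⟨-1, 2, 1, 1, 0, 0, 1, 2⟩, ⟨1, 1, 0, 2, 1, 0, 1, 2⟩],
  [⟨1, 0, 2, 0, 1, 2, 0, 1⟩, ⟨-1, 0, 1, 0, 2, 2, 0, 1⟩, ⟨-1, 1, 0, 0, 1, 2, 0, 1⟩, ⟨1, 0, 1, 1, 0, 2, 0, 1⟩, ⟨1, 1, 0, 0, 2, 2, 0, 1⟩, ⟨-1, 0, 2, 1, 0, 2, 0, 1⟩, ⟨-1, 0, 2, 0, 1, 1, 0, 2⟩, ⟨1, 0, 1, 0, 2, 1, 0, 2⟩, ⟨1, 2, 0, 0, 1, 1, 0, 2⟩, ⟨-1, 0, 1, 2, 0, 1, 0, 2⟩, ⟨-1, 2, 0, 0, 2, 1, 0, 2⟩, ⟨1, 0, 2, 2, 0, 1, 0, 2⟩, ⟨1, 1, 0, 0, 1, 0, 2, 1⟩, ⟨-1, 0, 1, 1, 0, 0, 2, 1⟩, ⟨-1, 2, 0, 0, 1, 0, 2, 1⟩, ⟨1, 0, 1, 2, 0, 0, 2, 1⟩, ⟨1, 2, 0, 1, 0, 0, 2, 1⟩, ⟨-1, 1, 0, 2, 0, 0, 2, 1⟩, ⟨-1, 1, 0, 0, 2, 0, 1, 2⟩, ⟨1, 0, 2, 1, 0, 0, 1, 2⟩, ⟨1, 2, 0, 0, 2, 0, 1, 2⟩, ⟨-1, 0, 2,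 2, 0, 0, 1, 2⟩, ⟨-1, 2, 0, 1, 0, 0, 1, 2⟩, ⟨1, 1, 0, 2, 0, 0, 1, 2⟩],
  [⟨1, 0, 2, 0, 1, 1, 2, 0⟩, ⟨-1, 0, 1, 0, 2, 1, 2, 0⟩, ⟨-1, 1, 0, 0, 1, 1, 2, 0⟩, ⟨1, 0, 1, 1, 0, 1, 2, 0⟩, ⟨1, 1, 0, 0, 2, 1, 2, 0⟩, ⟨-1, 0, 2, 1, 0, 1, 2, 0⟩, ⟨-1, 0, 2, 0, 1, 1, 0, 2⟩, ⟨1, 0, 1, 0, 2, 1, 0, 2⟩, ⟨1, 1, 2, 0, 1, 1, 0, 2⟩, ⟨-1, 0, 1, 1, 2, 1, 0, 2⟩, ⟨-1, 1, 2, 0, 2, 1, 0, 2⟩, ⟨1, 0, 2, 1, 2, 1, 0, 2⟩, ⟨1, 1, 0, 0, 1, 0, 2, 1⟩, ⟨-1, 0, 1, 1, 0, 0, 2, 1⟩, ⟨-1, 1, 2, 0, 1, 0, 2, 1⟩, ⟨1, 0, 1, 1, 2, 0, 2, 1⟩, ⟨1, 1, 2, 1, 0, 0, 2, 1⟩, ⟨-1, 1, 0, 1, 2, 0, 2, 1⟩, ⟨-1, 1, 0, 0, 2, 0, 1, 2⟩, ⟨1, 0, 2, 1, 0, 0, 1, 2⟩, ⟨1, 1, 2, 0, 2, 0, 1, 2⟩, ⟨-1, 0, 2, 1, 2, 0, 1, 2⟩, ⟨-1, 1, 2, 1, 0, 0, 1, 2⟩, ⟨1, 1, 0, 1, 2, 0, 1, 2⟩],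
  [⟨1, 0, 2, 0, 1, 1, 1, 1⟩, ⟨-1, 0, 1, 0, 2, 1, 1, 1⟩, ⟨-1, 1, 0, 0, 1, 1, 1, 1⟩, ⟨1, 0, 1, 1, 0, 1, 1, 1⟩, ⟨1, 1, 0, 0, 2, 1, 1, 1⟩, ⟨-1, 0, 2, 1, 0, 1, 1, 1⟩, ⟨-1, 0, 2, 0, 1, 1, 0, 2⟩, ⟨1, 0, 1, 0, 2, 1, 0, 2⟩, ⟨1, 1, 1, 0, 1, 1, 0, 2⟩, ⟨-1, 0, 1, 1, 1, 1, 0, 2⟩, ⟨-1, 1, 1, 0, 2, 1, 0, 2⟩, ⟨1, 0, 2, 1, 1, 1, 0, 2⟩, ⟨1, 1, 0, 0, 1, 0, 2, 1⟩, ⟨-1, 0, 1, 1, 0, 0, 2, 1⟩, ⟨-1, 1, 1, 0, 1, 0, 2, 1⟩, ⟨1, 0, 1, 1, 1, 0, 2, 1⟩, ⟨1, 1, 1, 1, 0, 0, 2, 1⟩, ⟨-1, 1, 0, 1, 1, 0, 2, 1⟩, ⟨-1, 1, 0, 0, 2, 0, 1, 2⟩, ⟨1, 0, 2, 1, 0, 0, 1, 2⟩, ⟨1, 1, 1, 0, 2, 0, 1, 2⟩, ⟨-1, 0, 2, 1, 1, 0, 1, 2⟩, ⟨-1, 1, 1, 1, 0, 0, 1, 2⟩, ⟨1, 1, 0, 1, 1, 0, 1, 2⟩]]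

/-- base parameter -/
def b0 : ℤ × ℤ × ℤ × ℤ := (2, 3, -4, -1)

/-- certificate points -/
def xs : List (ℤ × ℤ × ℤ) := [(-1, -1, 1), (-3, -1, 1), (1, 0, 1), (2, 2, 1), (-2, 2, 1), (-2, -1, 1), (0, 2, 1), (-3, 1, 1), (0, 4, 1), (-3, 2, 1), (-4, 2, 1), (0, -3, 1), (-1, 4, 1), (2, 1, 1), (0, -2, 1), (2, 4, 1), (-1, 0, 1), (-1, 3, 1), (-4, -3, 1)]

/-- points for independence -/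
def ys : List (ℤ × ℤ × ℤ) := [(-3, -2, 1), (-4, 3, 1), (2, -3, 1), (4, -1, 1)]

/-- data of the points -/
def data : List PtData := [
  ⟨[43, 60, 31, 24], 52, [(25, 25, 102, [92, 0, 0, 11])]⟩,
  ⟨[4, 115, 95, 8], 108, [(96, 96, 3, [80, 60, 0, 15])]⟩,
  ⟨[19, 116, 79, 24], 95, [(21, 0, 32, [1, 62, 122, 71])]⟩,
  ⟨[12, 60, 0, 24], 26, [(76, 76, 51, [46, 0, 0, 69])]⟩,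
  ⟨[63, 41, 63, 54], 47, [(70, 76, 62, [31, 72, 37, 67])]⟩,
  ⟨[103, 8, 63, 16], 24, [(0, 0, 6, [59, 65, 0, 96])]⟩,
  ⟨[100, 50, 95, 39], 95, [(48, 67, 49, [45, 92, 125, 74])]⟩,
  ⟨[52, 109, 1, 94], 12, [(94, 33, 39, [68, 33, 40, 43])]⟩,
  ⟨[118, 85, 60, 46], 110, [(96, 39, 114, [103, 29, 58, 34])]⟩,
  ⟨[77, 21, 47, 125], 84, [(119, 17, 28, [46, 38, 108, 122])]⟩,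
  ⟨[28, 33, 31, 69], 80, [(102, 56, 43, [78, 125, 53, 0])]⟩,
  ⟨[109, 8, 90, 72], 83, [(60, 79, 43, [88, 11, 6, 77])]⟩,
  ⟨[36, 1, 106, 85], 3, [(36, 51, 40, [113, 115, 114, 89])]⟩,
  ⟨[67, 21, 95, 40], 118, [(59, 68, 18, [74, 0, 57, 26])]⟩,
  ⟨[72, 62, 29, 56], 95, [(62, 50, 90, [30, 5, 102, 100])]⟩,
  ⟨[31, 95, 95, 95], 98, [(109, 66, 17, [68, 0, 0, 0])]⟩,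
  ⟨[108, 43, 48, 103], 95, [(89, 0, 6, [20, 39, 72, 77])]⟩,
  ⟨[53, 33, 93, 38], 36, [(99, 84, 108, [0, 5, 109, 81])]⟩,
  ⟨[27, 118, 87, 41], 15, [(119, 72, 16, [114, 0, 53, 0])]⟩]

set_option maxRecDepth 100000 in
/-- inverse matrix -/
def B : List Col := [
  ([[27, 87, 107, 2], [72, 5, 70, 81], [108, 39, 30, 91], [82, 87, 104, 0]], [71, 26, 21, 51]),
  ([[34, 89, 126, 47], [122, 99, 43, 93], [36, 119, 9, 114], [56, 52, 122, 0]], [67, 27, 27, 99]),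
  ([[4, 118, 14, 29], [51, 114, 45, 120], [21, 18, 15, 63], [108, 77, 45, 0]], [3, 32, 70, 108]),
  ([[95, 99, 15, 79], [115, 110, 87, 89], [59, 117, 38, 76], [17, 66, 71, 0]], [126, 119, 115, 79]),
  ([[18, 53, 49, 118], [3, 83, 77, 115], [16, 95, 86, 21], [45, 57, 97, 0]], [51, 109, 51, 0]),
  ([[4, 12, 14, 82], [81, 121, 19, 58], [103, 98, 3, 56], [78, 69, 53, 0]], [23, 0, 40, 3]),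
  ([[100, 57, 10, 122], [74, 47, 123, 46], [12, 1, 106, 18], [57, 35, 6, 0]], [102, 10, 54, 50]),
  ([[24, 9, 60, 111], [14, 34, 78, 39], [24, 17, 62, 69], [2, 99, 28, 0]], [47, 77, 99, 25]),
  ([[11, 105, 81, 81], [84, 9, 117, 21], [36, 84, 96, 112], [5, 88, 91, 0]], [57, 34, 122, 90]),
  ([[126, 61, 87, 75], [67, 58, 115, 78], [27, 46, 124, 55], [91, 118, 75, 0]], [16, 88, 64, 47]),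
  ([[59, 77, 7, 64], [66, 35, 102, 91], [14, 65, 42, 70], [114, 6, 30, 0]], [94, 47, 50, 121]),
  ([[97, 109, 58, 121], [111, 75, 2, 45], [6, 106, 102, 110], [59, 94, 79, 0]], [109, 21, 27, 10]),
  ([[103, 72, 108, 86], [70, 12, 76, 27], [124, 46, 115, 61], [0, 83, 124, 0]], [61, 100, 84, 6]),
  ([[91, 72, 120, 48], [120, 71, 29, 117], [51, 96, 34, 20], [31, 115, 103, 0]], [19, 82, 104, 111]),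
  ([[70, 110, 3, 53], [114, 32, 4, 8], [72, 107, 20, 96], [88, 76, 72, 0]], [7, 69, 92, 10]),
  ([[81, 3, 111, 100], [73, 44, 44, 59], [67, 117, 18, 57], [96, 20, 21, 0]], [49, 12, 18, 56]),
  ([[30, 92, 111, 101], [105, 6, 126, 89], [75, 9, 33, 83], [77, 30, 11, 0]], [109, 81, 65, 84]),
  ([[105, 109, 36, 55], [29, 86, 117, 113], [7, 28, 25, 48], [96, 59, 116, 0]], [85, 83, 67, 103]),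
  ([[110, 113, 38, 9], [17, 58, 30, 36], [76, 71, 111, 121], [112, 18, 60, 0]], [92, 75, 79, 50])]

/-- inverse matrix of the values -/
def Inv : List (List ℕ) := [[16, 61, 54, 54], [88, 45, 8, 32], [74, 46, 121, 125], [47, 64, 97, 69]]

/-- inverse matrix for the conic condition -/
def InvC : List (List ℕ) := [[1, 67, 75, 0, 111, 0], [0, 123, 121, 1, 9, 0], [0, 2, 4, 0, 120, 1], [0, 61, 59, 0, 8, 0], [0, 96, 33, 0, 125, 0], [0, 95, 31, 0, 1, 0]]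

/-- certificate points -/
def pts (k : ℕ) : Pt := mkPt b0 (xs.getD k (0, 0, 0))

/-- points for independence -/
def ptsI (k : Fin 4) : Pt := mkPt b0 (ys.getD k (0, 0, 0))

set_option maxRecDepth 100000 in
theorem checkA : ∀ k : Fin 19, CheckA 127 fs (pts k) (data.getD k ⟨[], 0, []⟩) := by
  decide +kernel

set_option maxRecDepth 100000 in
theorem checkB : CheckB 127 1 19 data B := by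
  decide +kernel

set_option maxRecDepth 100000 in
theorem checkC : CheckC 127 4 fs ptsI Inv := by
  decide +kernel

theorem checkJ : det3 (gradZ fs (pts 0) 0) (gradZ fs (pts 0) 1) (gradZ fs (pts 0) 2) ≠ 0 := by
  decide +kernel

theorem cert (K : Type*) [Field K] [CharZero K] :
    Cert (fun j => mvP K (fs j)) 19 ((pts 0).bK K) (fun k => (pts k).xK K) := by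
  refine cert_of_check (K := K) 127 (by norm_num) (by norm_num) fs 19 data B pts _ (fun k => rfl)
    (fun k hk => ?_) checkB checkJ
  exact checkA ⟨k, by omega⟩

end Pool.Agent.DelPezzo.T3
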