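import Mathlib
import Pool.Agent.Helper37.Types

/-!
# Certificate for the del Pezzo surfaces of type 4
-/

namespace Pool.Agent.DelPezzo.T4

open Pool.Agent.Helper37

/-- the polynomials of the family -/
def fs : Fin 5 → List Trm := ![
  [⟨1, 0, 1, 0, 0, 2, 1, 0⟩, ⟨-1, 0, 2, 0, 0, 2, 1, 0⟩, ⟨-1, 0, 1, 0, 0, 0, 2, 1⟩, ⟨1, 2, 1, 0, 0, 0, 2, 1⟩, ⟨1, 0, 2, 0, 0, 0, 1, 2⟩, ⟨-1, 2, 1, 0, 0, 0, 1, 2⟩],
  [⟨1, 0, 1, 0, 0, 2, 0, 1⟩, ⟨-1, 0, 2, 0, 0, 2, 0, 1⟩, ⟨-1, 0, 1, 0, 0, 0, 2, 1⟩, ⟨1, 2, 0, 0, 0, 0, 2, 1⟩, ⟨1, 0, 2, 0, 0, 0, 1, 2⟩, ⟨-1, 2, 0, 0, 0, 0, 1, 2⟩],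
  [⟨1, 0, 1, 0, 0, 1, 2, 0⟩, ⟨-1, 0, 2, 0, 0, 1, 2, 0⟩, ⟨-1, 0, 1, 0, 0, 0, 2, 1⟩, ⟨1, 1, 2, 0, 0, 0, 2, 1⟩, ⟨1, 0, 2, 0, 0, 0, 1, 2⟩, ⟨-1, 1, 2, 0, 0, 0, 1, 2⟩],
  [⟨1, 0, 1, 0, 0, 1, 1, 1⟩, ⟨-1, 0, 2, 0, 0, 1, 1, 1⟩, ⟨-1, 0, 1, 0, 0, 0, 2, 1⟩, ⟨1, 1, 1, 0, 0, 0, 2, 1⟩, ⟨1, 0, 2, 0, 0, 0, 1, 2⟩, ⟨-1, 1, 1, 0, 0, 0, 1, 2⟩],
  [⟨1, 0, 1, 0, 0, 1, 0, 2⟩, ⟨-1, 0, 2, 0, 0, 1, 0, 2⟩, ⟨-1, 0, 1, 0, 0, 0, 2, 1⟩, ⟨1, 1, 0, 0, 0, 0, 2, 1⟩, ⟨1, 0, 2, 0, 0, 0, 1, 2⟩, ⟨-1, 1, 0, 0, 0, 0, 1, 2⟩]]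

/-- base parameter -/
def b0 : ℤ × ℤ × ℤ × ℤ := (-1, 4, 0, 0)

/-- certificate points -/
def xs : List (ℤ × ℤ × ℤ) := [(4, 1, 1), (2, 2, 1), (4, -2, 1), (-4, 4, 1), (-4, -3, 1), (4, 3, 1), (-1, 2, 1), (3, 3, 1), (-1, -2, 1), (-2, 2, 1), (4, -1, 1), (3, 2, 1), (4, -3, 1)]

/-- points for independence -/
def ys : List (ℤ × ℤ × ℤ) := [(-4, -3, 1), (-4, 4, 1), (-2, -2, 1), (4, -1, 1), (-4, 1, 1)]

/-- data of the points -/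
def data : List PtData := [
  ⟨[74, 74, 91, 91, 91], 10, [(108, 19, 117, [0, 0, 0, 0]), (22, 105, 117, [0, 0, 0, 0])]⟩,
  ⟨[55, 97, 15, 87, 117], 112, [(40, 31, 87, [122, 113, 0, 0]), (4, 95, 123, [33, 106, 0, 0])]⟩,
  ⟨[106, 20, 45, 24, 25], 90, [(19, 34, 53, [86, 28, 0, 0]), (69, 110, 97, [13, 34, 0, 0])]⟩,
  ⟨[42, 74, 68, 17, 36], 7, [(50, 54, 30, [0, 19, 0, 0]), (96, 124, 71, [0, 120, 0, 0])]⟩,
  ⟨[32, 117, 29, 105, 79], 123, [(11, 41, 34, [105, 59, 0, 0]), (3, 1, 78, [11, 0, 0, 0])]⟩,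
  ⟨[95, 80, 119, 98, 85], 32, [(67, 106, 41, [89, 121, 0, 0]), (86, 36, 102, [90, 3, 0, 0])]⟩,
  ⟨[0, 6, 32, 32, 26], 108, [(73, 0, 19, [50, 0, 0, 0]), (119, 108, 19, [12, 0, 0, 0])]⟩,
  ⟨[93, 37, 100, 7, 97], 58, [(32, 50, 95, [121, 6, 0, 0]), (108, 40, 19, [64, 8, 0, 0])]⟩,
  ⟨[0, 73, 31, 31, 85], 44, [(66, 0, 83, [14, 0, 0, 0]), (55, 44, 83, [111, 0, 0, 0])]⟩,
  ⟨[55, 97, 80, 56, 38], 23, [(58, 109, 23, [64, 49, 0, 0]), (92, 33, 116, [122, 79, 0, 0])]⟩,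
  ⟨[53, 44, 27, 20, 57], 66, [(24, 60, 32, [39, 20, 0, 0]), (37, 14, 118, [85, 99, 0, 0])]⟩,
  ⟨[62, 37, 94, 63, 105], 76, [(68, 73, 93, [45, 16, 0, 0]), (50, 93, 9, [30, 119, 0, 0])]⟩,
  ⟨[32, 117, 54, 12, 110], 43, [(98, 70, 30, [38, 45, 0, 0]), (70, 18, 53, [111, 53, 0, 0])]⟩]

set_option maxRecDepth 100000 in
/-- inverse matrix -/
def B : List Col := [
  ([[26, 113, 122, 77, 106], [29, 27, 89, 104, 70], [32, 82, 114, 50, 52], [12, 70, 1, 3, 104], [66, 94, 114, 35, 0]], [49, 66, 0, 0]),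
  ([[122, 63, 72, 77, 28], [9, 30, 122, 115, 111], [124, 9, 98, 123, 116], [23, 91, 2, 75, 109], [35, 28, 1, 9, 0]], [32, 3, 0, 0]),
  ([[58, 117, 61, 39, 15], [111, 70, 59, 13, 118], [102, 4, 106, 48, 59], [47, 118, 109, 36, 18], [53, 11, 51, 95, 0]], [78, 64, 0, 0]),
  ([[75, 125, 122, 17, 2], [16, 104, 101, 108, 65], [108, 91, 63, 80, 35], [85, 91, 71, 74, 33], [85, 68, 87, 13, 0]], [51, 40, 0, 0]),
  ([[108, 87, 34, 18, 70], [66, 77, 49, 27, 74], [24, 100, 112, 126, 76], [109, 124, 32, 111, 16], [125, 106, 31, 25, 0]], [17, 96, 0, 0]),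
  ([[77, 57, 58, 106, 88], [114, 109, 1, 39, 25], [116, 18, 119, 119, 63], [12, 7, 117, 110, 108], [47, 19, 21, 70, 0]], [31, 86, 0, 0]),
  ([[95, 105, 59, 53, 105], [54, 81, 122, 34, 22], [2, 102, 48, 41, 49], [85, 10, 65, 116, 84], [93, 31, 8, 42, 0]], [37, 80, 0, 0]),
  ([[103, 7, 46, 112, 7], [91, 55, 2, 16, 55], [88, 20, 58, 74, 69], [59, 107, 65, 107, 29], [68, 40, 90, 76, 0]], [89, 66, 0, 0]),
  ([[3, 16, 64, 118, 16], [22, 70, 47, 87, 40], [46, 78, 113, 107, 83], [22, 41, 70, 60, 46], [106, 21, 44, 29, 0]], [56, 96, 0, 0]),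
  ([[126, 66, 39, 39, 66], [111, 115, 64, 66, 3], [108, 90, 121, 0, 47], [84, 112, 107, 119, 69], [113, 41, 30, 22, 0]], [110, 15, 0, 0]),
  ([[120, 17, 4, 11, 21], [86, 96, 64, 105, 87], [64, 112, 23, 74, 92], [11, 86, 14, 84, 85], [47, 105, 70, 75, 0]], [25, 112, 0, 0]),
  ([[9, 10, 9, 98, 25], [12, 31, 36, 35, 83], [23, 10, 94, 94, 74], [35, 93, 65, 36, 102], [8, 51, 98, 67, 0]], [83, 79, 0, 0]),
  ([[11, 30, 103, 120, 4], [97, 121, 32, 91, 38], [78, 125, 81, 121, 17], [52, 60, 120, 30, 22], [91, 84, 79, 126, 0]], [107, 57, 0, 0]),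
  ([[48, 114, 47, 115, 13], [118, 50, 78, 10, 66], [95, 4, 92, 121, 101], [23, 4, 69, 30, 88], [23, 59, 0, 114, 0]], [57, 4, 0, 0]),
  ([[74, 3, 39, 109, 97], [51, 109, 27, 89, 71], [94, 88, 0, 110, 83], [56, 26, 121, 64, 71], [5, 59, 35, 111, 0]], [118, 46, 0, 0]),
  ([[117, 108, 116, 92, 19], [35, 9, 31, 72, 40], [22, 58, 18, 21, 66], [60, 58, 28, 30, 47], [60, 96, 38, 102, 0]], [73, 110, 0, 0]),
  ([[126, 11, 112, 59, 28], [24, 122, 96, 40, 88], [0, 123, 17, 77, 54], [64, 124, 96, 28, 74], [48, 30, 119, 27, 0]], [32, 103, 0, 0]),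
  ([[69, 72, 83, 122, 55], [119, 39, 32, 91, 68], [43, 45, 14, 43, 61], [42, 45, 117, 122, 6], [42, 44, 93, 121, 0]], [67, 61, 0, 0]),
  ([[40, 21, 122, 103, 21], [102, 94, 106, 112, 8], [65, 71, 78, 21, 36], [25, 78, 83, 9, 43], [6, 84, 21, 7, 0]], [8, 49, 0, 0]),
  ([[64, 54, 80, 3, 54], [9, 47, 23, 36, 15], [92, 3, 10, 79, 67], [10, 21, 75, 123, 85], [70, 21, 110, 109, 0]], [117, 22, 0, 0]),
  ([[66, 118, 27, 113, 102], [27, 27, 61, 89, 14], [90, 89, 100, 29, 57], [90, 82, 53, 18, 60], [13, 7, 12, 104, 0]], [54, 10, 0, 0]),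
  ([[40, 97, 77, 80, 39], [6, 71, 87, 116, 2], [92, 98, 9, 22, 27], [62, 126, 44, 31, 76], [116, 15, 93, 77, 0]], [3, 45, 0, 0]),
  ([[48, 78, 103, 53, 78], [41, 74, 21, 5, 65], [55, 72, 94, 114, 66], [89, 98, 36, 19, 92], [40, 17, 23, 13, 0]], [20, 47, 0, 0]),
  ([[67, 61, 56, 26, 61], [0, 49, 7, 55, 92], [15, 105, 75, 19, 62], [61, 83, 33, 83, 40], [122, 70, 92, 53, 0]], [111, 121, 0, 0]),
  ([[18, 86, 38, 47, 9], [73, 16, 0, 22, 101], [20, 64, 82, 87, 98], [108, 110, 36, 43, 88], [11, 96, 30, 97, 0]], [38, 58, 0, 0]),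
  ([[12, 95, 107, 115, 42], [45, 94, 27, 119, 105], [111, 4, 78, 7, 68], [102, 69, 117, 33, 66], [45, 76, 10, 30, 0]], [28, 57, 0, 0])]

/-- inverse matrix of the values -/
def Inv : List (List ℕ) := [[13, 122, 17, 39, 42], [14, 87, 23, 98, 106], [66, 124, 95, 88, 82], [7, 107, 60, 58, 56], [8, 15, 92, 11, 88]]

/-- certificate points -/
def pts (k : ℕ) : Pt := mkPt b0 (xs.getD k (0, 0, 0))

/-- points for independence -/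
def ptsI (k : Fin 5) : Pt := mkPt b0 (ys.getD k (0, 0, 0))

set_option maxRecDepth 100000 in
theorem checkA : ∀ k : Fin 13, CheckA 127 fs (pts k) (data.getD k ⟨[], 0, []⟩) := by
  decide +kernel

set_option maxRecDepth 100000 in
theorem checkB : CheckB 127 2 26 data B := by
  decide +kernel

set_option maxRecDepth 100000 in
theorem checkC : CheckC 127 5 fs ptsI Inv := by
  decide +kernel

theorem checkJ : det3 (gradZ fs (pts 0) 0) (gradZ fs (pts 0) 1) (gradZ fs (pts 0) 2) ≠ 0 := by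
  decide +kernel

theorem cert (K : Type*) [Field K] [CharZero K] :
    Cert (fun j => mvP K (fs j)) 26 ((pts 0).bK K) (fun k => (pts k).xK K) := by
  refine cert_of_check (K := K) 127 (by norm_num) (by norm_num) fs 26 data B pts _ (fun k => rfl)
    (fun k hk => ?_) checkB checkJ
  exact checkA ⟨k, by omega⟩

end Pool.Agent.DelPezzo.T4
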