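import Mathlib
import Pool.Agent.Helper37.Types

/-!
# Certificate for the del Pezzo surfaces of type 5
-/

namespace Pool.Agent.DelPezzo.T5

open Pool.Agent.Helper37

/-- the polynomials of the family -/
def fs : Fin 6 → List Trm := ![
  [⟨1, 0, 0, 0, 0, 2, 1, 0⟩, ⟨-1, 0, 0, 0, 0, 0, 1, 2⟩],
  [⟨1, 0, 0, 0, 0, 2, 0, 1⟩, ⟨-1, 0, 0, 0, 0, 0, 1, 2⟩],
  [⟨1, 0, 0, 0, 0, 1, 2, 0⟩, ⟨-1, 0, 0, 0, 0, 0, 1, 2⟩],
  [⟨1, 0, 0, 0, 0, 1, 1, 1⟩, ⟨-1, 0, 0, 0, 0, 0, 1, 2⟩],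
  [⟨1, 0, 0, 0, 0, 1, 0, 2⟩, ⟨-1, 0, 0, 0, 0, 0, 1, 2⟩],
  [⟨1, 0, 0, 0, 0, 0, 2, 1⟩, ⟨-1, 0, 0, 0, 0, 0, 1, 2⟩]]

/-- base parameter -/
def b0 : ℤ × ℤ × ℤ × ℤ := (0, 0, 0, 0)

/-- certificate points -/
def xs : List (ℤ × ℤ × ℤ) := [(-1, -1, 1), (4, -1, 1), (3, 2, 1), (-3, 3, 1), (1, -2, 1), (2, 2, 1), (4, -2, 1), (-4, 4, 1), (-4, -3, 1), (4, 3, 1), (-1, 2, 1), (-1, -2, 1)]

/-- points for independence -/
def ys : List (ℤ × ℤ × ℤ) := [(-2, -3, 1), (-1, -2, 1), (4, 4, 1), (3, -1, 1), (1, 0, 1), (-4, -3, 1)]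

/-- data of the points -/
def data : List PtData := [
  ⟨[0, 2, 0, 2, 0, 2], 115, [(12, 12, 115, []), (12, 0, 115, []), (24, 12, 103, [])]⟩,
  ⟨[112, 17, 5, 124, 5, 2], 5, [(12, 19, 76, []), (44, 92, 119, []), (92, 117, 54, [])]⟩,
  ⟨[16, 7, 10, 4, 1, 2], 95, [(1, 34, 89, []), (82, 53, 0, []), (122, 96, 125, [])]⟩,
  ⟨[24, 6, 97, 115, 121, 6], 88, [(96, 49, 26, []), (7, 62, 102, []), (57, 0, 114, [])]⟩,
  ⟨[0, 3, 6, 0, 3, 6], 19, [(54, 0, 0, []), (27, 108, 0, []), (108, 0, 108, [])]⟩,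
  ⟨[6, 2, 6, 2, 0, 2], 79, [(103, 48, 24, []), (12, 0, 115, []), (79, 48, 48, [])]⟩,
  ⟨[97, 18, 18, 121, 6, 6], 23, [(0, 25, 25, []), (26, 52, 26, []), (26, 26, 52, [])]⟩,
  ⟨[60, 12, 59, 107, 119, 12], 49, [(110, 104, 101, []), (81, 25, 100, []), (106, 30, 100, [])]⟩,
  ⟨[82, 19, 94, 15, 126, 12], 4, [(50, 99, 83, []), (27, 97, 42, []), (29, 27, 116, [])]⟩,
  ⟨[45, 13, 33, 9, 1, 6], 108, [(116, 122, 26, []), (103, 30, 110, []), (1, 50, 94, [])]⟩,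
  ⟨[0, 126, 121, 123, 124, 2], 115, [(66, 31, 24, []), (75, 19, 24, []), (60, 31, 12, [])]⟩,
  ⟨[0, 3, 125, 4, 1, 6], 43, [(30, 96, 103, []), (51, 12, 103, []), (29, 96, 19, [])]⟩]

set_option maxRecDepth 100000 in
/-- inverse matrix -/
def B : List Col := [
  ([[93, 121, 101, 116, 73, 78], [70, 66, 14, 44, 82, 23], [101, 119, 38, 111, 87, 31], [106, 45, 17, 13, 119, 39], [59, 4, 100, 66, 61, 111], [123, 100, 106, 14, 76, 0]], []),
  ([[57, 38, 14, 103, 103, 74], [96, 92, 59, 5, 96, 34], [61, 48, 35, 115, 28, 83], [15, 25, 41, 77, 119, 125], [124, 74, 98, 40, 50, 19], [51, 82, 33, 114, 100, 0]], []),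
  ([[102, 100, 41, 119, 28, 86], [8, 73, 27, 15, 47, 70], [42, 47, 118, 18, 114, 3], [119, 92, 60, 58, 124, 118], [99, 77, 28, 22, 64, 11], [90, 89, 9, 72, 43, 0]], []),
  ([[81, 95, 99, 17, 83, 17], [111, 120, 48, 33, 5, 76], [73, 96, 5, 100, 73, 69], [5, 7, 44, 63, 64, 23], [88, 120, 35, 115, 75, 10], [42, 88, 24, 123, 83, 0]], []),
  ([[78, 17, 106, 21, 61, 102], [109, 99, 47, 55, 60, 112], [125, 85, 101, 49, 30, 23], [99, 41, 23, 37, 72, 44], [79, 56, 10, 32, 36, 22], [104, 66, 111, 39, 61, 0]], []),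
  ([[120, 18, 79, 123, 4, 40], [91, 30, 117, 15, 20, 51], [108, 99, 29, 103, 34, 44], [120, 32, 26, 72, 65, 54], [51, 6, 76, 126, 52, 57], [5, 113, 79, 107, 14, 0]], []),
  ([[44, 2, 79, 44, 120, 72], [61, 65, 94, 118, 114, 70], [29, 55, 31, 92, 15, 35], [97, 75, 122, 43, 5, 71], [60, 60, 67, 13, 58, 117], [71, 43, 85, 82, 32, 0]], []),
  ([[30, 58, 93, 23, 96, 74], [1, 94, 7, 99, 12, 64], [116, 114, 30, 4, 6, 102], [40, 96, 12, 8, 75, 88], [79, 68, 122, 26, 122, 95], [2, 126, 94, 1, 50, 0]], []),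
  ([[94, 18, 39, 61, 86, 82], [38, 98, 4, 53, 87, 83], [92, 126, 102, 82, 36, 14], [109, 26, 121, 44, 80, 103], [97, 64, 30, 56, 112, 73], [22, 80, 15, 32, 122, 0]], []),
  ([[76, 75, 35, 27, 114, 72], [62, 64, 72, 21, 53, 84], [81, 86, 45, 82, 42, 56], [94, 107, 9, 109, 80, 30], [121, 38, 110, 81, 70, 85], [58, 57, 14, 12, 13, 0]], []),
  ([[6, 10, 16, 122, 66, 8], [6, 64, 10, 81, 1, 86], [106, 16, 27, 16, 70, 103], [73, 113, 123, 42, 49, 81], [50, 28, 48, 58, 72, 46], [100, 80, 22, 34, 92, 0]], []),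
  ([[43, 38, 29, 102, 4, 74], [17, 126, 101, 73, 35, 10], [32, 0, 100, 126, 61, 21], [108, 114, 70, 40, 7, 122], [15, 67, 112, 4, 35, 123], [0, 102, 111, 114, 100, 0]], []),
  ([[119, 45, 69, 2, 92, 71], [57, 107, 97, 7, 109, 22], [123, 52, 46, 122, 22, 57], [88, 101, 113, 11, 74, 38], [105, 23, 55, 52, 71, 66], [97, 104, 24, 60, 37, 0]], []),
  ([[50, 84, 47, 120, 84, 44], [85, 111, 5, 84, 100, 44], [12, 30, 125, 58, 7, 73], [22, 0, 108, 71, 84, 1], [0, 22, 0, 22, 49, 43], [114, 88, 56, 71, 75, 0]], []),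
  ([[64, 18, 125, 23, 46, 109], [116, 73, 87, 1, 14, 87], [106, 23, 84, 21, 66, 107], [71, 63, 6, 27, 51, 70], [25, 45, 102, 117, 10, 91], [88, 12, 117, 20, 73, 0]], []),
  ([[111, 28, 88, 125, 42, 51], [93, 9, 23, 124, 21, 62], [3, 83, 114, 4, 43, 105], [121, 53, 4, 38, 8, 116], [16, 65, 65, 115, 47, 86], [18, 107, 4, 112, 35, 0]], []),
  ([[67, 8, 125, 32, 39, 18], [97, 14, 10, 57, 87, 83], [43, 4, 31, 104, 14, 2], [18, 81, 56, 113, 94, 35], [12, 3, 23, 121, 70, 78], [17, 112, 24, 65, 3, 0]], []),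
  ([[37, 4, 10, 85, 100, 117], [76, 72, 56, 75, 81, 96], [26, 98, 43, 119, 32, 11], [118, 89, 36, 109, 99, 23], [122, 47, 5, 1, 58, 57], [83, 11, 22, 61, 33, 0]], []),
  ([[52, 81, 83, 53, 14, 69], [117, 90, 85, 106, 65, 24], [15, 43, 58, 100, 45, 87], [125, 105, 123, 7, 4, 81], [41, 108, 13, 38, 18, 81], [11, 86, 29, 80, 125, 0]], []),
  ([[59, 73, 124, 88, 113, 53], [40, 78, 8, 69, 1, 23], [69, 54, 57, 115, 30, 5], [78, 70, 112, 57, 64, 83], [112, 109, 51, 28, 5, 30], [25, 76, 53, 47, 58, 0]], []),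
  ([[85, 52, 54, 45, 85, 58], [30, 124, 90, 78, 121, 23], [33, 98, 30, 91, 89, 17], [94, 106, 77, 33, 41, 35], [34, 18, 93, 85, 62, 100], [61, 5, 34, 118, 61, 0]], []),
  ([[11, 25, 45, 117, 93, 40], [64, 49, 88, 24, 3, 108], [97, 0, 28, 116, 48, 26], [74, 20, 29, 3, 51, 71], [31, 57, 37, 62, 35, 48], [30, 95, 24, 39, 47, 0]], []),
  ([[29, 4, 21, 39, 65, 121], [118, 89, 85, 121, 10, 23], [85, 101, 47, 67, 70, 103], [14, 76, 93, 49, 103, 1], [52, 92, 113, 9, 25, 46], [57, 15, 81, 4, 12, 0]], []),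
  ([[57, 99, 72, 121, 7, 42], [92, 103, 119, 90, 66, 78], [123, 109, 87, 115, 103, 119], [106, 47, 59, 101, 45, 42], [63, 10, 64, 15, 22, 21], [55, 47, 64, 62, 21, 0]], []),
  ([[54, 2, 32, 46, 39, 104], [111, 70, 78, 124, 120, 100], [15, 67, 79, 16, 30, 122], [10, 61, 19, 105, 98, 75], [120, 86, 50, 79, 17, 36], [102, 31, 21, 30, 104, 0]], []),
  ([[75, 82, 66, 15, 109, 18], [96, 60, 20, 4, 82, 71], [24, 81, 110, 115, 56, 68], [68, 45, 119, 23, 124, 45], [61, 108, 105, 92, 0, 32], [91, 75, 40, 16, 62, 0]], []),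
  ([[12, 54, 23, 0, 11, 34], [50, 34, 7, 110, 71, 95], [64, 69, 101, 63, 71, 86], [86, 62, 101, 52, 26, 122], [75, 8, 52, 9, 123, 107], [93, 124, 97, 109, 121, 0]], []),
  ([[69, 118, 30, 58, 51, 37], [126, 63, 102, 98, 88, 70], [45, 116, 0, 0, 125, 50], [95, 83, 19, 69, 96, 126], [49, 20, 48, 98, 57, 56], [94, 30, 33, 41, 40, 0]], []),
  ([[10, 11, 15, 106, 77, 40], [117, 91, 110, 16, 92, 20], [121, 119, 39, 62, 110, 47], [21, 125, 55, 48, 98, 10], [45, 22, 66, 14, 108, 20], [46, 99, 6, 13, 107, 0]], []),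
  ([[67, 103, 99, 110, 10, 67], [66, 53, 81, 104, 76, 4], [75, 62, 112, 121, 49, 118], [62, 13, 106, 100, 7, 27], [112, 103, 15, 42, 6, 88], [7, 89, 55, 30, 55, 0]], []),
  ([[14, 64, 86, 0, 42, 68], [123, 5, 49, 81, 99, 8], [69, 89, 43, 100, 107, 111], [0, 45, 8, 72, 20, 63], [18, 87, 21, 32, 68, 94], [102, 125, 123, 14, 39, 0]], []),
  ([[118, 80, 101, 121, 117, 75], [53, 23, 71, 108, 71, 96], [65, 95, 28, 49, 46, 104], [31, 84, 16, 56, 119, 115], [9, 48, 79, 66, 55, 41], [93, 26, 4, 3, 31, 0]], []),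
  ([[25, 92, 10, 28, 21, 89], [85, 106, 13, 90, 39, 45], [5, 40, 102, 14, 64, 100], [60, 126, 110, 122, 31, 48], [50, 8, 77, 95, 114, 79], [23, 118, 92, 106, 9, 0]], []),
  ([[39, 27, 23, 82, 4, 119], [49, 90, 24, 109, 2, 126], [45, 2, 121, 101, 11, 9], [103, 113, 91, 102, 109, 99], [38, 85, 34, 104, 51, 54], [107, 55, 81, 121, 117, 0]], []),
  ([[99, 73, 82, 26, 96, 113], [35, 75, 90, 111, 93, 106], [79, 40, 125, 70, 89, 91], [95, 14, 36, 29, 118, 6], [89, 113, 93, 92, 122, 60], [20, 72, 117, 115, 52, 0]], [])]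

/-- inverse matrix of the values -/
def Inv : List (List ℕ) := [[58, 60, 13, 79, 108, 34], [113, 25, 19, 43, 4, 60], [66, 109, 79, 85, 118, 125], [7, 36, 59, 36, 104, 37], [14, 102, 108, 84, 124, 67], [22, 110, 23, 117, 32, 124]]

/-- certificate points -/
def pts (k : ℕ) : Pt := mkPt b0 (xs.getD k (0, 0, 0))

/-- points for independence -/
def ptsI (k : Fin 6) : Pt := mkPt b0 (ys.getD k (0, 0, 0))

set_option maxRecDepth 100000 in
theorem checkA : ∀ k : Fin 12, CheckA 127 fs (pts k) (data.getD k ⟨[], 0, []⟩) := by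
  decide +kernel

set_option maxRecDepth 100000 in
theorem checkB : CheckB 127 3 35 data B := by
  decide +kernel

set_option maxRecDepth 100000 in
theorem checkC : CheckC 127 6 fs ptsI Inv := by
  decide +kernel

theorem checkJ : det3 (gradZ fs (pts 0) 0) (gradZ fs (pts 0) 1) (gradZ fs (pts 0) 2) ≠ 0 := by
  decide +kernel

theorem cert (K : Type*) [Field K] [CharZero K] :
    Cert (fun j => mvP K (fs j)) 35 ((pts 0).bK K) (fun k => (pts k).xK K) := by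
  refine cert_of_check (K := K) 127 (by norm_num) (by norm_num) fs 35 data B pts _ (fun k => rfl)
    (fun k hk => ?_) checkB checkJ
  exact checkA ⟨k, by omega⟩

end Pool.Agent.DelPezzo.T5
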