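import Mathlib
import Pool.Agent.Helper37.Types
import Pool.Agent.Helper37.Data3
import Pool.Agent.Helper37.Data4
import Pool.Agent.Helper37.Data5
import Pool.Agent.Helper37.Data6
import Pool.Agent.Helper37.Data7
import Pool.Agent.Helper37.Data8_1
import Pool.Agent.Helper37.Data9

/-!
# Strong interpolation for the blow-up type in every degree
-/

namespace Pool.Agent.DelPezzo

open MvPolynomial Module Pool.Agent.Helper37

variable (K : Type*) [Field K] [IsAlgClosed K] [CharZero K]

theorem strong9 : StrongInterpolation (n := 7 + 2) (blowupDelPezzo K (7 + 2)) 91 := by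
  refine strong_of_cert (c := 7) (D := 91) (by norm_num) (fun j => mvP K (T9.fs j))
    (fun b i => stdP b (Fin.castLE (by norm_num) i)) (T9.cert K) ?_ ?_ ?_ ?_
  · intro b j
    exact spec_homogeneous T9.fs (by decide) b j
  · intro b j i
    exact absurd i.2 (by norm_num)
  · exact ⟨1, one_ne_zero, fun b _ => inGeneralPosition_small (by norm_num) b⟩
  · exact hind_of_check 127 (by norm_num) T9.fs T9.ptsI ((T9.ptsI 0).bK K) (fun i => rfl) T9.Inv T9.checkC

theorem strong8 : StrongInterpolation (n := 6 + 2) (blowupDelPezzo K (6 + 2)) 74 := by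
  refine strong_of_cert (c := 6) (D := 74) (by norm_num) (fun j => mvP K (T8_1.fs j))
    (fun b i => stdP b (Fin.castLE (by norm_num) i)) (T8_1.cert K) ?_ ?_ ?_ ?_
  · intro b j
    exact spec_homogeneous T8_1.fs (by decide) b j
  · intro b j i
    change Fin 1 at i
    fin_cases j <;> fin_cases i <;> simp [T8_1.fs, mvP, Trm.mv, stdP]
  · exact ⟨1, one_ne_zero, fun b _ => inGeneralPosition_small (by norm_num) b⟩
  · exact hind_of_check 127 (by norm_num) T8_1.fs T8_1.ptsI ((T8_1.ptsI 0).bK K)
      (fun i => rfl) T8_1.Inv T8_1.checkC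

theorem strong7 : StrongInterpolation (n := 5 + 2) (blowupDelPezzo K (5 + 2)) 59 := by
  refine strong_of_cert (c := 5) (D := 59) (by norm_num) (fun j => mvP K (T7.fs j))
    (fun b i => stdP b (Fin.castLE (by norm_num) i)) (T7.cert K) ?_ ?_ ?_ ?_
  · intro b j
    exact spec_homogeneous T7.fs (by decide) b j
  · intro b j i
    change Fin 2 at i
    fin_cases j <;> fin_cases i <;> simp [T7.fs, mvP, Trm.mv, stdP]
  · exact ⟨1, one_ne_zero, fun b _ => inGeneralPosition_small (by norm_num) b⟩
  · exact hind_of_check 127 (by norm_num) T7.fs T7.ptsI ((T7.ptsI 0).bK K) (fun i => rfl) T7.Inv T7.checkC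

theorem strong6 : StrongInterpolation (n := 4 + 2) (blowupDelPezzo K (4 + 2)) 46 := by
  refine strong_of_cert (c := 4) (D := 46) (by norm_num) (fun j => mvP K (T6.fs j))
    (fun b i => stdP b (Fin.castLE (by norm_num) i)) (T6.cert K) ?_ ?_ ?_ ?_
  · intro b j
    exact spec_homogeneous T6.fs (by decide) b j
  · intro b j i
    change Fin 3 at i
    fin_cases j <;> fin_cases i <;> simp [T6.fs, mvP, Trm.mv, stdP]
  · exact ⟨1, one_ne_zero, fun b _ => inGeneralPosition_small (by norm_num) b⟩
  · exact hind_of_check 127 (by norm_num) T6.fs T6.ptsI ((T6.ptsI 0).bK K) (fun i => rfl) T6.Inv T6.checkC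

/-- the base parameter as a vector -/
def vecZ (b : ℤ × ℤ × ℤ × ℤ) : Fin 4 → ℤ := ![b.1, b.2.1, b.2.2.1, b.2.2.2]

theorem strong5 : StrongInterpolation (n := 3 + 2) (blowupDelPezzo K (3 + 2)) 35 := by
  refine strong_of_cert (c := 3) (D := 35) (by norm_num) (fun j => mvP K (T5.fs j))
    (fun b i => stdP b (Fin.castLE (by norm_num) i)) (T5.cert K) ?_ ?_ ?_ ?_
  · intro b j
    exact spec_homogeneous T5.fs (by decide) b j
  · intro b j i
    change Fin 4 at i
    fin_cases j <;> fin_cases i <;> simp [T5.fs, mvP, Trm.mv, stdP]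
  · obtain ⟨G, hG, hG'⟩ := no_three_of_check (K := K) (k := 4) (by norm_num) (by norm_num)
      (vecZ T5.b0) (by decide +kernel)
    refine ⟨G, hG, fun b hb => ⟨hG' b hb, fun s hs => ?_⟩⟩
    have h1 := Finset.card_le_univ s
    rw [Fintype.card_fin] at h1
    omega
  · exact hind_of_check 127 (by norm_num) T5.fs T5.ptsI ((T5.ptsI 0).bK K) (fun i => rfl) T5.Inv T5.checkC

theorem strong4 : StrongInterpolation (n := 2 + 2) (blowupDelPezzo K (2 + 2)) 26 := by
  refine strong_of_cert (c := 2) (D := 26) (by norm_num) (fun j => mvP K (T4.fs j))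
    (fun b i => stdP b (Fin.castLE (by norm_num) i)) (T4.cert K) ?_ ?_ ?_ ?_
  · intro b j
    exact spec_homogeneous T4.fs (by decide) b j
  · intro b j i
    change Fin 5 at i
    fin_cases j <;> fin_cases i <;> simp [T4.fs, mvP, Trm.mv, stdP] <;> ring
  · obtain ⟨G, hG, hG'⟩ := no_three_of_check (K := K) (k := 5) (by norm_num) (by norm_num)
      (vecZ T4.b0) (by decide +kernel)
    refine ⟨G, hG, fun b hb => ⟨hG' b hb, fun s hs => ?_⟩⟩
    have h1 := Finset.card_le_univ s
    rw [Fintype.card_fin] at h1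
    omega
  · exact hind_of_check 127 (by norm_num) T4.fs T4.ptsI ((T4.ptsI 0).bK K) (fun i => rfl) T4.Inv T4.checkC

set_option maxHeartbeats 4000000 in
theorem strong3 : StrongInterpolation (n := 1 + 2) (blowupDelPezzo K (1 + 2)) 19 := by
  refine strong_of_cert (c := 1) (D := 19) (by norm_num) (fun j => mvP K (T3.fs j))
    (fun b i => stdP b (Fin.castLE (by norm_num) i)) (T3.cert K) ?_ ?_ ?_ ?_
  · intro b j
    exact spec_homogeneous T3.fs (by decide) b j
  · intro b j i
    change Fin 6 at i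
    fin_cases j <;> fin_cases i <;> simp [T3.fs, mvP, Trm.mv, stdP] <;> ring
  · obtain ⟨G, hG, hG'⟩ := no_three_of_check (K := K) (k := 6) (by norm_num) (by norm_num)
      (vecZ T3.b0) (by decide +kernel)
    obtain ⟨G2, hG2, hG2'⟩ := no_six_of_check (K := K) 127 (by norm_num) (vecZ T3.b0) T3.InvC
      (by decide +kernel)
    refine ⟨G * G2, mul_ne_zero hG hG2, fun b hb => ?_⟩
    rw [map_mul] at hb
    exact ⟨hG' b (left_ne_zero_of_mul hb), hG2' b (right_ne_zero_of_mul hb)⟩
  · exact hind_of_check 127 (by norm_num) T3.fs T3.ptsI ((T3.ptsI 0).bK K) (fun i => rfl) T3.Inv T3.checkC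

end Pool.Agent.DelPezzo
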