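import Mathlib
import Pool.Agent.Helper37.Types
import Pool.Agent.Helper37.Data8_0

/-!
# Strong interpolation for `ℙ¹ × ℙ¹` in `ℙ⁸`
-/

namespace Pool.Agent.DelPezzo

open MvPolynomial Module Pool.Agent.Helper37

variable {K : Type*} [Field K]

/-- The index pairs, in the order used by the certificate. -/
def ordQ : Fin 9 → Fin 3 × Fin 3 :=
  ![(0, 0), (1, 0), (0, 1), (1, 1), (2, 0), (0, 2), (2, 1), (1, 2), (2, 2)]

lemma ordQ_surjective : Function.Surjective ordQ := by decide

/-- The biquadratic monomials. -/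
noncomputable def bq (K : Type*) [Field K] (p : Fin 3 × Fin 3) : MvPolynomial (Fin 2 ⊕ Fin 2) K :=
  X (Sum.inl 0) ^ (2 - (p.1 : ℕ)) * X (Sum.inl 1) ^ (p.1 : ℕ) *
      (X (Sum.inr 0) ^ (2 - (p.2 : ℕ)) * X (Sum.inr 1) ^ (p.2 : ℕ))

lemma span_bq : Submodule.span K (Set.range fun k => bq K (ordQ k)) = biquadraticForms K := by
  unfold biquadraticForms
  congr 1
  ext w
  constructor
  · rintro ⟨k, rfl⟩
    exact ⟨ordQ k, rfl⟩
  · rintro ⟨q, rfl⟩
    obtain ⟨k, rfl⟩ := ordQ_surjective q
    exact ⟨k, rfl⟩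

/-- The affine chart. -/
noncomputable def chartQ (K : Type*) [Field K] :
    MvPolynomial (Fin 2 ⊕ Fin 2) K →ₐ[K] MvPolynomial (Fin 3) K :=
  aeval (Sum.elim ![X 0, X 1] ![1, X 2])

lemma chart_bq (b : Fin 4 → K) (k : Fin 9) :
    chartQ K (bq K (ordQ k)) = spec (fun j => mvP K (T8_0.fs j)) b k := by
  fin_cases k <;> simp [chartQ, bq, ordQ, spec, T8_0.fs, mvP, Trm.mv]

lemma eval_chartQ (x : Fin 3 → K) (F : MvPolynomial (Fin 2 ⊕ Fin 2) K) :
    eval x (chartQ K F) = eval (Sum.elim ![x 0, x 1] ![1, x 2]) F := by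
  unfold chartQ
  have : eval x (aeval (Sum.elim ![X 0, X 1] ![1, X 2]) F) =
      eval (fun s => eval x (Sum.elim ![X 0, X 1] ![1, X 2] s)) F := by
    rw [← MvPolynomial.aeval_eq_eval, ← MvPolynomial.aeval_eq_eval,
      ← AlgHom.comp_apply, comp_aeval]
  rw [this]
  congr 2
  ext s
  rcases s with s | s <;> fin_cases s <;> simp

lemma span_matrix_comb {V : Type*} [AddCommGroup V] [Module K V] {n : ℕ}
    (g : Matrix (Fin n) (Fin n) K) (hg : g.det ≠ 0) (f : Fin n → V) (hf : LinearIndependent K f) :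
    Submodule.span K (Set.range fun j => ∑ k, g j k • f k) = Submodule.span K (Set.range f) := by
  have hfin : FiniteDimensional K (Submodule.span K (Set.range f)) :=
    FiniteDimensional.span_of_finite K (Set.finite_range f)
  apply Submodule.eq_of_le_of_finrank_le
  · rw [Submodule.span_le]
    rintro _ ⟨j, rfl⟩
    exact Submodule.sum_mem _ fun k _ => Submodule.smul_mem _ _ (Submodule.subset_span ⟨k, rfl⟩)
  · rw [finrank_span_eq_card hf, finrank_span_eq_card (linearIndependent_matrix_comb g hg f hf)]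

theorem strongQ (K : Type*) [Field K] [IsAlgClosed K] [CharZero K] :
    StrongInterpolation (n := 8) (quadricDelPezzo K) 74 := by
  intro m lam hlam hsum
  let f : Fin (6 + 3) → MvPolynomial (Fin 4 ⊕ Fin 3) K := fun j => mvP K (T8_0.fs j)
  have cert : Cert f 74 _ _ := T8_0.cert K
  obtain ⟨z, u, H⟩ := cert.exists_infCond lam (fun i => (hlam i).2) hsum
  obtain ⟨G2, hG2, hG2'⟩ := hind_of_check (K := K) 127 (by norm_num) T8_0.fs T8_0.ptsI
    ((T8_0.ptsI 0).bK K) (fun i => rfl) T8_0.Inv T8_0.checkC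
  have hf0 : f 0 ≠ 0 := by
    intro h0
    apply cert.jac
    have : ∀ l, grad f ((T8_0.pts 0).bK K) ((T8_0.pts 0).xK K) 0 l = 0 := by
      intro l
      simp [grad, h0]
    simp only [jac3, det3, this]
    ring
  obtain ⟨F, hF0, hF⟩ := exists_general_member H G2 hG2 (f 0) hf0
  refine ⟨F, hF0, fun w hw => ?_⟩
  obtain ⟨g, b, x, a, hg, hb, hx, hinc⟩ := hF w hw
  have hI := hG2' b hb
  have hq : LinearIndependent K (fun k => bq K (ordQ k)) := by
    refine LinearIndependent.of_comp (chartQ K).toLinearMap ?_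
    convert! hI using 1
    ext1 k
    exact chart_bq b k
  let h : Fin 9 → MvPolynomial (Fin 2 ⊕ Fin 2) K := fun j => ∑ k, g j k • bq K (ordQ k)
  have hhI : LinearIndependent K h := linearIndependent_matrix_comb g hg _ hq
  have hspan : Submodule.span K (Set.range h) = biquadraticForms K := by
    rw [← span_bq]
    exact span_matrix_comb g hg _ hq
  refine ⟨imageClosure h, ⟨h, hhI, hspan, rfl⟩, fun i => ?_⟩
  let v : Fin (8 + 1) → K := fun j => ∑ k, g j k * eval (Sum.elim b (x i)) (f k)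
  have hv : v ≠ 0 := by
    intro h0
    have h1 : Matrix.mulVec g (fun k => eval (Sum.elim b (x i)) (f k)) = 0 := h0
    have h2 := Matrix.eq_zero_of_mulVec_eq_zero hg h1
    exact hx i (congrFun h2 0)
  have hev : ∀ j, eval (Sum.elim ![x i 0, x i 1] ![1, x i 2]) (h j) = v j := by
    intro j
    simp only [h, v, map_sum, smul_eval]
    refine Finset.sum_congr rfl fun k _ => ?_
    rw [← eval_chartQ, chart_bq b k, eval_spec]
  refine ⟨Projectivization.mk K v hv, mk_mem_imageClosure h _ v hv hev, ?_⟩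
  exact mk_mem_linearSpace _ v hv (combination_mem_span _ v (a i) (fun j => hinc i j))

end Pool.Agent.DelPezzo
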