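import Pool.Agent.Helper37.LG.Final

/-!
Machine-checked instance of all hypotheses of `MP_f689ce_ag.LagrangianSections`: the field with
three elements, `n = 3` and the standard symplectic space of dimension six.
-/

namespace Pool.Agent.Helper37.Vac

open MvPolynomial Pool.Agent.Helper37.LG

instance : Fact (Nat.Prime 3) := ⟨by norm_num⟩

theorem isC1_three : IsC1 (ZMod 3) := by
  intro n d f hf hd hdn
  have h0 : eval (0 : Fin n → ZMod 3) f = 0 := by
    rcases eq_or_ne f 0 with rfl | hne
    · simp
    · have : f.totalDegree = d := hf.totalDegree hne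
      rw [eval_zero]
      have : constantCoeff f = f.coeff 0 := rfl
      rw [this]
      by_contra hc
      have := hf hc
      simp at this
      omega
  have hdeg : f.totalDegree < Fintype.card (Fin n) := by
    rw [Fintype.card_fin]
    exact lt_of_le_of_lt hf.totalDegree_le hdn
  have hdiv := char_dvd_card_solutions (K := ZMod 3) 3 hdeg
  have h1 : 1 < Fintype.card {x : Fin n → ZMod 3 // eval x f = 0} := by
    have hpos : 0 < Fintype.card {x : Fin n → ZMod 3 // eval x f = 0} :=
      Fintype.card_pos_iff.2 ⟨⟨0, h0⟩⟩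
    have := Nat.le_of_dvd hpos hdiv
    omega
  obtain ⟨x, hx⟩ := Fintype.exists_ne_of_one_lt_card h1 ⟨0, h0⟩
  exact ⟨x.1, fun h => hx (Subtype.ext h), x.2⟩

/-- the standard symplectic form on `k^3 x k^3` -/
noncomputable def om : LinearMap.BilinForm (ZMod 3) ((Fin 3 → ZMod 3) × (Fin 3 → ZMod 3)) :=
  LinearMap.mk₂ (ZMod 3) (fun x y => ∑ i, (x.1 i * y.2 i - x.2 i * y.1 i))
    (fun x x' y => by simp only [Prod.fst_add, Prod.snd_add, Pi.add_apply]; rw [← Finset.sum_add_distrib]; exact Finset.sum_congr rfl fun i _ => by ring)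
    (fun c x y => by simp only [Prod.smul_fst, Prod.smul_snd, Pi.smul_apply, smul_eq_mul]; rw [Finset.mul_sum]; exact Finset.sum_congr rfl fun i _ => by ring)
    (fun x y y' => by simp only [Prod.fst_add, Prod.snd_add, Pi.add_apply]; rw [← Finset.sum_add_distrib]; exact Finset.sum_congr rfl fun i _ => by ring)
    (fun c x y => by simp only [Prod.smul_fst, Prod.smul_snd, Pi.smul_apply, smul_eq_mul]; rw [Finset.mul_sum]; exact Finset.sum_congr rfl fun i _ => by ring)

theorem om_apply (x y) : om x y = ∑ i, (x.1 i * y.2 i - x.2 i * y.1 i) := rfl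

example : IsC1 (ZMod 3) ∧ (2 : ZMod 3) ≠ 0 ∧
    Module.finrank (ZMod 3) ((Fin 3 → ZMod 3) × (Fin 3 → ZMod 3)) = 2 * 3 ∧
    (∀ x, om x x = 0) ∧ (∀ x, (∀ y, om x y = 0) → x = 0) := by
  refine ⟨isC1_three, by decide, by simp, fun x => ?_, fun x hx => ?_⟩
  · rw [om_apply]
    exact Finset.sum_eq_zero fun i _ => by ring
  · refine Prod.ext (funext fun i => ?_) (funext fun i => ?_)
    · have := hx (0, Pi.single i 1)
      rw [om_apply] at this
      simpa [Pi.single_apply] using this
    · have := hx (Pi.single i 1, 0)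
      rw [om_apply] at this
      simpa [Pi.single_apply] using this

end Pool.Agent.Helper37.Vac
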